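import Mathlib

/-!
# The Takagi function: basic facts
-/

open Set Filter Topology

namespace Pool.Agent.Work.MP_df9865_an

/-- The distance from `x` to the nearest integer. -/
noncomputable def phi (x : ℝ) : ℝ := |x - round x|

/-- The Takagi function. -/
noncomputable def takagi (x : ℝ) : ℝ := ∑' n : ℕ, phi (2 ^ n * x) / 2 ^ n

/-- The level set of the Takagi function on `[0,1]` at height `y`. -/
def levelSet (y : ℝ) : Set ℝ := {x | x ∈ Set.Icc (0 : ℝ) 1 ∧ takagi x = y}

/-- The `i`-th step of the digit walk of `x`: `+1` if the `(i+1)`-st binary digit of `x` is `0`,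
`-1` if it is `1`. -/
noncomputable def step (x : ℝ) (i : ℕ) : ℤ := if Int.fract (2 ^ i * x) < 1 / 2 then 1 else -1

/-- The digit walk of `x`: the number of binary digits `0` minus the number of binary digits `1`
among the first `n` binary digits of `x`. -/
noncomputable def walk (x : ℝ) (n : ℕ) : ℤ := ∑ i ∈ Finset.range n, step x i

lemma phi_nonneg (x : ℝ) : 0 ≤ phi x := abs_nonneg _

lemma phi_le_half (x : ℝ) : phi x ≤ 1 / 2 := abs_sub_round x

lemma phi_le_abs_sub (x : ℝ) (m : ℤ) : phi x ≤ |x - m| := round_le x m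

lemma phi_eq_min (x : ℝ) : phi x = min (Int.fract x) (1 - Int.fract x) :=
  abs_sub_round_eq_min x

lemma phi_add_int (x : ℝ) (m : ℤ) : phi (x + m) = phi x := by
  rw [phi_eq_min, phi_eq_min, Int.fract_add_intCast]

lemma phi_neg (x : ℝ) : phi (-x) = phi x := by
  rw [phi_eq_min, phi_eq_min]
  by_cases h : Int.fract x = 0
  · rw [Int.fract_neg_eq_zero.mpr h, h]
  · rw [Int.fract_neg h, min_comm]
    congr 1
    ring

lemma phi_of_mem_left {x : ℝ} (h0 : 0 ≤ x) (h1 : x ≤ 1 / 2) : phi x = x := by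
  rw [phi_eq_min, Int.fract_eq_self.mpr ⟨h0, by linarith⟩, min_eq_left]
  linarith

lemma phi_of_mem_right {x : ℝ} (h0 : 1 / 2 ≤ x) (h1 : x ≤ 1) : phi x = 1 - x := by
  have h := phi_add_int (-x) 1
  rw [phi_neg] at h
  rw [← h, phi_of_mem_left]
  · push_cast; ring
  · push_cast; linarith
  · push_cast; linarith

lemma phi_lipschitz (x y : ℝ) : |phi x - phi y| ≤ |x - y| := by
  rw [abs_sub_le_iff]
  constructor
  · have h1 := phi_le_abs_sub x (round y)
    have h2 : |x - round y| ≤ |x - y| + |y - round y| := by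
      have := abs_sub_le x y (round y : ℝ)
      exact this
    unfold phi at *
    linarith
  · have h1 := phi_le_abs_sub y (round x)
    have h2 : |y - round x| ≤ |y - x| + |x - round x| := by
      have := abs_sub_le y x (round x : ℝ)
      exact this
    rw [abs_sub_comm y x] at h2
    unfold phi at *
    linarith

lemma phi_continuous : Continuous phi := by
  apply LipschitzWith.continuous (K := 1)
  apply LipschitzWith.of_dist_le_mul
  intro x y
  rw [Real.dist_eq, Real.dist_eq]
  simpa using phi_lipschitz x y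

lemma term_bound (x : ℝ) (n : ℕ) : ‖phi (2 ^ n * x) / 2 ^ n‖ ≤ (1 / 2) * (1 / 2 : ℝ) ^ n := by
  rw [Real.norm_eq_abs, abs_of_nonneg (div_nonneg (phi_nonneg _) (by positivity))]
  rw [div_eq_mul_inv, one_div_pow, one_div (2 ^ n : ℝ)]
  exact mul_le_mul_of_nonneg_right (phi_le_half _) (by positivity)

lemma bound_summable : Summable fun n : ℕ => (1 / 2) * (1 / 2 : ℝ) ^ n :=
  (summable_geometric_of_lt_one (by norm_num) (by norm_num)).mul_left _

lemma takagi_summable (x : ℝ) : Summable fun n : ℕ => phi (2 ^ n * x) / 2 ^ n :=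
  Summable.of_norm_bounded bound_summable (term_bound x)

lemma takagi_continuous : Continuous takagi := by
  apply continuous_tsum (u := fun n : ℕ => (1 / 2) * (1 / 2 : ℝ) ^ n)
  · intro n
    exact (phi_continuous.comp (continuous_const.mul continuous_id)).div_const _
  · exact bound_summable
  · intro n x
    exact term_bound x n

lemma takagi_nonneg (x : ℝ) : 0 ≤ takagi x :=
  tsum_nonneg fun n => div_nonneg (phi_nonneg _) (by positivity)

lemma takagi_le_one (x : ℝ) : takagi x ≤ 1 := by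
  have h1 : takagi x ≤ ∑' n : ℕ, (1 / 2) * (1 / 2 : ℝ) ^ n := by
    apply Summable.tsum_le_tsum _ (takagi_summable x) bound_summable
    intro n
    exact (le_abs_self _).trans (term_bound x n)
  rw [tsum_mul_left, tsum_geometric_of_lt_one (by norm_num) (by norm_num)] at h1
  norm_num at h1
  exact h1

lemma takagi_rec (x : ℝ) : takagi x = phi x + takagi (2 * x) / 2 := by
  unfold takagi
  rw [(takagi_summable x).tsum_eq_zero_add, ← tsum_div_const]
  congr 1
  · simp
  · congr 1
    funext n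
    rw [pow_succ, mul_assoc]
    field_simp

lemma takagi_add_int (x : ℝ) (m : ℤ) : takagi (x + m) = takagi x := by
  unfold takagi
  congr 1
  funext n
  have : (2 : ℝ) ^ n * (x + m) = 2 ^ n * x + ((2 ^ n * m : ℤ) : ℝ) := by push_cast; ring
  rw [this, phi_add_int]

lemma takagi_neg (x : ℝ) : takagi (-x) = takagi x := by
  unfold takagi
  congr 1
  funext n
  rw [mul_neg, phi_neg]

lemma takagi_one_sub (x : ℝ) : takagi (1 - x) = takagi x := by
  have h := takagi_add_int (-x) 1
  rw [takagi_neg] at h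
  rw [← h]
  congr 1
  push_cast
  ring

lemma takagi_zero : takagi 0 = 0 := by
  have h := takagi_rec 0
  rw [phi_of_mem_left le_rfl (by norm_num)] at h
  simp only [mul_zero] at h
  linarith

lemma takagi_left {x : ℝ} (h0 : 0 ≤ x) (h1 : x ≤ 1 / 2) : takagi x = x + takagi (2 * x) / 2 := by
  rw [takagi_rec, phi_of_mem_left h0 h1]

lemma takagi_right {x : ℝ} (h0 : 1 / 2 ≤ x) (h1 : x ≤ 1) :
    takagi x = (1 - x) + takagi (2 * x - 1) / 2 := by
  rw [takagi_rec, phi_of_mem_right h0 h1]
  congr 2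
  have := takagi_add_int (2 * x) (-1)
  rw [← this]
  congr 1
  push_cast
  ring

lemma phi_two_mul_le (x : ℝ) : phi x + phi (2 * x) / 2 ≤ 1 / 2 := by
  have h1 := phi_le_abs_sub (2 * x) (2 * ⌊x⌋ + 1)
  have h2 : (2 * x - ((2 * ⌊x⌋ + 1 : ℤ) : ℝ)) = 2 * Int.fract x - 1 := by
    rw [Int.fract]
    push_cast
    ring
  rw [h2] at h1
  rw [phi_eq_min x]
  have h3 := Int.fract_nonneg x
  have h4 := Int.fract_lt_one x
  rcases le_total (Int.fract x) (1 / 2) with h | h
  · rw [abs_of_nonpos (by linarith)] at h1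
    rw [min_eq_left (by linarith)]
    linarith
  · rw [abs_of_nonneg (by linarith)] at h1
    rw [min_eq_right (by linarith)]
    linarith

lemma takagi_le (x : ℝ) : takagi x ≤ 2 / 3 := by
  have key : ∀ n : ℕ, ∀ x : ℝ, takagi x ≤ 2 / 3 + (1 / 4 : ℝ) ^ n := by
    intro n
    induction n with
    | zero =>
      intro x
      have := takagi_le_one x
      norm_num
      linarith
    | succ n ih =>
      intro x
      rw [takagi_rec x, takagi_rec (2 * x)]
      have h1 := phi_two_mul_le x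
      have h2 := ih (2 * (2 * x))
      rw [pow_succ]
      linarith
  have hlim : Tendsto (fun n : ℕ => (2 / 3 : ℝ) + (1 / 4 : ℝ) ^ n) atTop (𝓝 (2 / 3 + 0)) :=
    tendsto_const_nhds.add (tendsto_pow_atTop_nhds_zero_of_lt_one (by norm_num) (by norm_num))
  rw [add_zero] at hlim
  exact ge_of_tendsto' hlim fun n => key n x

/-- The tilted Takagi function `T(x) + D x`. -/
noncomputable def tk (D : ℤ) (x : ℝ) : ℝ := takagi x + D * x

lemma tk_left (D : ℤ) {v : ℝ} (h0 : 0 ≤ v) (h1 : v ≤ 1) : tk D (v / 2) = tk (D + 1) v / 2 := by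
  unfold tk
  rw [takagi_left (by linarith) (by linarith)]
  have : 2 * (v / 2) = v := by ring
  rw [this]
  push_cast
  ring

lemma tk_right (D : ℤ) {v : ℝ} (h0 : 0 ≤ v) (h1 : v ≤ 1) :
    tk D ((1 + v) / 2) = (tk (D - 1) v + (D + 1)) / 2 := by
  unfold tk
  rw [takagi_right (by linarith) (by linarith)]
  have : 2 * ((1 + v) / 2) - 1 = v := by ring
  rw [this]
  push_cast
  ring

/-- Upper bound: `T(u) - D u ≤ (2/3) 2^{-D}`. -/
lemma takagi_sub_le (D : ℕ) : ∀ {u : ℝ}, 0 ≤ u → u ≤ 1 →
    takagi u - D * u ≤ 2 / 3 * (1 / 2 : ℝ) ^ D := by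
  induction D with
  | zero =>
    intro u _ _
    have := takagi_le u
    simp
    linarith
  | succ D ih =>
    have hleft : ∀ {u : ℝ}, 0 ≤ u → u ≤ 1 / 2 →
        takagi u - ((D + 1 : ℕ) : ℝ) * u ≤ 2 / 3 * (1 / 2 : ℝ) ^ (D + 1) := by
      intro u h0 h1
      rw [takagi_left h0 h1]
      have := ih (u := 2 * u) (by linarith) (by linarith)
      rw [pow_succ]
      push_cast
      linarith
    intro u h0 h1
    rcases le_total u (1 / 2) with h | h
    · exact hleft h0 h
    · have h2 := hleft (u := 1 - u) (by linarith) (by linarith)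
      rw [takagi_one_sub] at h2
      have h3 : ((D + 1 : ℕ) : ℝ) * (1 - u) ≤ ((D + 1 : ℕ) : ℝ) * u :=
        mul_le_mul_of_nonneg_left (by linarith) (by positivity)
      linarith

lemma tk_le (D : ℕ) {v : ℝ} (h0 : 0 ≤ v) (h1 : v ≤ 1) :
    tk D v ≤ D + 2 / 3 * (1 / 2 : ℝ) ^ D := by
  have h := takagi_sub_le D (u := 1 - v) (by linarith) (by linarith)
  rw [takagi_one_sub] at h
  unfold tk
  push_cast
  linarith

lemma tk_nonneg (D : ℕ) {v : ℝ} (h0 : 0 ≤ v) : 0 ≤ tk D v := by
  unfold tk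
  have := takagi_nonneg v
  positivity

lemma takagi_pos {v : ℝ} (h0 : 0 < v) (h1 : v < 1) : 0 < takagi v := by
  rcases le_total v (1 / 2) with h | h
  · rw [takagi_left h0.le h]
    have := takagi_nonneg (2 * v)
    linarith
  · rw [takagi_right h h1.le]
    have := takagi_nonneg (2 * v - 1)
    linarith

lemma tk_pos (D : ℕ) {v : ℝ} (h0 : 0 < v) (h1 : v < 1) : 0 < tk D v := by
  unfold tk
  have := takagi_pos h0 h1
  positivity

lemma abs_tk_le (D : ℤ) {v : ℝ} (h0 : 0 ≤ v) (h1 : v ≤ 1) : |tk D v| ≤ |(D : ℝ)| + 1 := by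
  unfold tk
  have h2 := takagi_nonneg v
  have h3 := takagi_le_one v
  have h4 : |takagi v + D * v| ≤ |takagi v| + |D * v| := abs_add_le _ _
  rw [abs_mul, abs_of_nonneg h2, abs_of_nonneg h0] at h4
  have h5 : |(D : ℝ)| * v ≤ |(D : ℝ)| * 1 := mul_le_mul_of_nonneg_left h1 (abs_nonneg _)
  linarith

/-- Symmetry `x ↦ 1 - x`. -/
lemma tk_one_sub (D : ℤ) (v : ℝ) : tk (-D) (1 - v) = tk D v - D := by
  unfold tk
  rw [takagi_one_sub]
  push_cast
  ring

end Pool.Agent.Work.MP_df9865_an
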