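import Pool.Agent.Work.MP_df9865_an.Basic

/-!
# Words, frequencies, entropy and growth
-/

open Set Filter Topology

namespace Pool.Agent.Work.MP_df9865_an

/-- The block of length `n` at position `m`. -/
noncomputable def word (x : ℝ) (n m : ℕ) : Fin n → ℤ := fun i => step x (m + i)

/-- The blocks of length `n` which occur infinitely often. -/
def recurring (x : ℝ) (n : ℕ) : Set (Fin n → ℤ) := {w | ∃ᶠ m in atTop, word x n m = w}

/-- The sign words of length `k`. -/
def signs (k : ℕ) : Finset (Fin k → ℤ) := Fintype.piFinset fun _ : Fin k => ({1, -1} : Finset ℤ)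

/-- The frequency of the word `w` among the first `M` positions. -/
noncomputable def wordFreq (x : ℝ) (k M : ℕ) (w : Fin k → ℤ) : ℝ :=
  (((Finset.range M).filter fun n => word x k n = w).card : ℝ) / M

/-- The entropy of the empirical distribution of the words of length `k`. -/
noncomputable def blockH (x : ℝ) (k M : ℕ) : ℝ := ∑ w ∈ signs k, Real.negMulLog (wordFreq x k M w)

/-- The largest absolute value of the walk before the time `M`. -/
noncomputable def walkMax (x : ℝ) (M : ℕ) : ℕ := (Finset.range M).sup fun n => (walk x n).natAbs

end Pool.Agent.Work.MP_df9865_an
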