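import Pool.Agent.Work.MP_df9865_an.Master
import Pool.Agent.Work.MP_df9865_an.Defs

/-!
# Words of an escaping orbit
-/

open Set Filter Topology

namespace Pool.Agent.Work.MP_df9865_an

lemma step_mem (x : ℝ) (i : ℕ) : step x i ∈ ({1, -1} : Finset ℤ) := by
  unfold step
  split_ifs <;> simp

lemma word_mem (x : ℝ) (n m : ℕ) :
    word x n m ∈ Fintype.piFinset (fun _ : Fin n => ({1, -1} : Finset ℤ)) := by
  rw [Fintype.mem_piFinset]
  exact fun i => step_mem x _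

lemma recurring_subset (x : ℝ) (n : ℕ) :
    recurring x n ⊆ (Fintype.piFinset (fun _ : Fin n => ({1, -1} : Finset ℤ)) : Set (Fin n → ℤ)) := by
  intro w hw
  obtain ⟨m, hm⟩ := Frequently.exists hw
  rw [← hm]
  exact word_mem x n m

lemma recurring_finite (x : ℝ) (n : ℕ) : (recurring x n).Finite :=
  (Finset.finite_toSet _).subset (recurring_subset x n)

lemma eventually_recurring (x : ℝ) (n : ℕ) : ∀ᶠ m in atTop, word x n m ∈ recurring x n := by
  have h1 : ∀ w ∈ (Fintype.piFinset (fun _ : Fin n => ({1, -1} : Finset ℤ)) : Finset (Fin n → ℤ)),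
      ∀ᶠ m in atTop, word x n m = w → w ∈ recurring x n := by
    intro w _
    by_cases hw : w ∈ recurring x n
    · exact Eventually.of_forall fun _ _ => hw
    · have h2 : ¬ ∃ᶠ m in atTop, word x n m = w := hw
      rw [not_frequently] at h2
      exact h2.mono fun m hm hm' => absurd hm' hm
  have h2 := (Finset.eventually_all _).2 h1
  exact h2.mono fun m hm => hm _ (word_mem x n m) rfl

lemma recurring_ncard_pos (x : ℝ) (n : ℕ) : 1 ≤ (recurring x n).ncard := by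
  obtain ⟨m, hm⟩ := (eventually_recurring x n).exists
  exact (Set.ncard_pos (recurring_finite x n)).2 ⟨_, hm⟩

lemma blk_eq_of_word {x : ℝ} {m a b : ℕ} (h : word x m a = word x m b) :
    blk x m a = blk x m b := by
  unfold blk
  refine floor_eq_of_step_eq (tl_nonneg x b) (tl_lt_one x b) (tl_nonneg x a) (tl_lt_one x a) ?_
  intro i hi
  rw [step_tl, step_tl]
  exact (congrFun h ⟨i, hi⟩).symm

lemma card_blk_le_word (x : ℝ) (m : ℕ) (W : Finset ℕ) :
    (W.image (blk x m)).card ≤ (W.image (word x m)).card := by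
  classical
  exact card_image_le_of_factor W _ _ fun a _ b _ h => blk_eq_of_word h

lemma card_blk_le_pow (x : ℝ) {n : ℕ} (hn : 0 < n) (m : ℕ) (W : Finset ℕ) {N₁ : ℕ}
    (hN₁ : ∀ a, N₁ ≤ a → word x n a ∈ recurring x n) (hW : ∀ a ∈ W, N₁ ≤ a) :
    (W.image (blk x m)).card ≤ (recurring x n).ncard ^ (m / n + 1) := by
  classical
  have h1 := card_image_le_of_factor W
    (fun a => fun i : Fin (m / n + 1) => word x n (a + i * n)) (blk x m) (by
      intro a _ b _ hab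
      apply blk_eq_of_word
      funext i
      have hi := i.2
      have hlt : (i : ℕ) / n < m / n + 1 := by
        have := Nat.div_le_div_right (c := n) hi.le
        omega
      have h2 := congrFun (congrFun hab ⟨(i : ℕ) / n, hlt⟩) ⟨(i : ℕ) % n, Nat.mod_lt _ hn⟩
      simp only [word] at h2 ⊢
      have e : (i : ℕ) / n * n + (i : ℕ) % n = i := by
        rw [mul_comm]
        exact Nat.div_add_mod _ _
      rw [add_assoc, add_assoc, e] at h2
      exact h2)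
  refine h1.trans ?_
  have h2 : W.image (fun a => fun i : Fin (m / n + 1) => word x n (a + i * n)) ⊆
      Fintype.piFinset (fun _ : Fin (m / n + 1) => (recurring_finite x n).toFinset) := by
    intro f hf
    rw [Finset.mem_image] at hf
    obtain ⟨a, ha, rfl⟩ := hf
    rw [Fintype.mem_piFinset]
    intro i
    rw [Set.Finite.mem_toFinset]
    exact hN₁ _ ((hW a ha).trans (Nat.le_add_right _ _))
  refine (Finset.card_le_card h2).trans (le_of_eq ?_)
  rw [Fintype.card_piFinset, Finset.prod_const, Finset.card_univ, Fintype.card_fin,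
    Set.ncard_eq_toFinset_card _ (recurring_finite x n)]

/-- An exponential bound for the number of blocks at late positions. -/
lemma exists_kappa (x : ℝ) {n : ℕ} (hn : 0 < n) : ∃ κ : ℝ, 1 ≤ κ ∧
    κ ^ n = (recurring x n).ncard ∧ ∃ N₁ : ℕ, ∀ (m : ℕ) (W : Finset ℕ), (∀ a ∈ W, N₁ ≤ a) →
      ((W.image (blk x m)).card : ℝ) ≤ (recurring x n).ncard * κ ^ m := by
  have hP : (1 : ℝ) ≤ (recurring x n).ncard := by exact_mod_cast recurring_ncard_pos x n
  have hP0 : (0 : ℝ) ≤ (recurring x n).ncard := by linarith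
  refine ⟨((recurring x n).ncard : ℝ) ^ ((n : ℝ)⁻¹), Real.one_le_rpow hP (by positivity),
    Real.rpow_inv_natCast_pow hP0 hn.ne', ?_⟩
  obtain ⟨N₁, hN₁⟩ := eventually_atTop.1 (eventually_recurring x n)
  refine ⟨N₁, fun m W hW => ?_⟩
  have h1 := card_blk_le_pow x hn m W hN₁ hW
  have h2 : ((W.image (blk x m)).card : ℝ) ≤ ((recurring x n).ncard : ℝ) ^ (m / n + 1) := by
    exact_mod_cast h1
  refine h2.trans ?_
  rw [pow_succ']
  refine mul_le_mul_of_nonneg_left ?_ hP0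
  set κ := ((recurring x n).ncard : ℝ) ^ ((n : ℝ)⁻¹) with hκ
  have hκ1 : 1 ≤ κ := Real.one_le_rpow hP (by positivity)
  have hκn : κ ^ n = (recurring x n).ncard := Real.rpow_inv_natCast_pow hP0 hn.ne'
  rw [← hκn, ← pow_mul]
  exact pow_le_pow_right₀ hκ1 (Nat.mul_div_le m n)

variable {x : ℝ} {q N : ℕ}

/-- The master theorem. -/
theorem Esc.master (h : Esc x q N) {κ C : ℝ} (hκ1 : 1 ≤ κ) (hκ : κ ^ 2 < 2) (hC : 0 ≤ C) (m₀ : ℕ)
    {ε : ℝ} (hε : 0 < ε) : ∃ M₀ : ℕ, ∀ M : ℕ, M₀ ≤ M → ∀ W : Finset ℕ, (∀ n ∈ W, n ≤ M) →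
      (∀ m, m₀ ≤ m → m ^ 2 ≤ M → ((W.image (word x m)).card : ℝ) ≤ C * κ ^ m) →
      (W.card : ℝ) ≤ ε * M := by
  classical
  obtain ⟨J₀, c, hfine⟩ := h.fine hκ1 hκ hC m₀ (ε := ε / 4) (by positivity)
  obtain ⟨J₁, hJ₁⟩ := exists_scale (2 * ((c : ℝ) + 2) ^ 2)
  obtain ⟨M₁, hM₁⟩ := exists_nat_gt (2 * N / ε)
  refine ⟨max M₁ (2 ^ (max J₀ J₁)), fun M hM W hWM hB => ?_⟩
  have hMa : M₁ ≤ M := (le_max_left _ _).trans hM
  have hMb : 2 ^ (max J₀ J₁) ≤ M := (le_max_right _ _).trans hM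
  have hM0 : M ≠ 0 := by
    have : 0 < 2 ^ (max J₀ J₁) := by positivity
    omega
  set J := Nat.log 2 M + 1 with hJ
  have hMJ : M < 2 ^ J := Nat.lt_pow_succ_log_self (by norm_num) M
  have hJM : 2 ^ (J - 1) ≤ M := Nat.pow_log_le_self 2 hM0
  have hlog : max J₀ J₁ ≤ Nat.log 2 M := Nat.le_log_of_pow_le (by norm_num) hMb
  have hJ0 : J₀ ≤ J := by
    have := le_max_left J₀ J₁
    omega
  have hJ1 : J₁ ≤ J := by
    have := le_max_right J₀ J₁
    omega
  have h2J : (2 : ℝ) ^ J ≤ 2 * M := by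
    have e : (2 : ℝ) ^ J = 2 * 2 ^ (J - 1) := by rw [hJ, Nat.add_sub_cancel, pow_succ]; ring
    have : (2 : ℝ) ^ (J - 1) ≤ M := by exact_mod_cast hJM
    linarith
  have hsq : (2 * J + c) ^ 2 ≤ M := by
    have h1 := hJ₁ J hJ1
    have h2 : ((2 * J + c : ℕ) : ℝ) ≤ ((c : ℝ) + 2) * (J + 4) := by
      push_cast
      have e0 : (0 : ℝ) ≤ c * J := by positivity
      have e1 : (0 : ℝ) ≤ c := by positivity
      nlinarith
    have h3 := pow_le_pow_left₀ (by positivity) h2 2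
    have h4 : 2 * (((2 * J + c : ℕ) : ℝ)) ^ 2 ≤ 2 ^ J := by
      calc 2 * (((2 * J + c : ℕ) : ℝ)) ^ 2 ≤ 2 * (((c : ℝ) + 2) * (J + 4)) ^ 2 := by linarith
        _ = 2 * ((c : ℝ) + 2) ^ 2 * (J + 4) ^ 2 := by ring
        _ ≤ 2 ^ J := h1
    have h5 : (((2 * J + c : ℕ) : ℝ)) ^ 2 ≤ M := by linarith
    exact_mod_cast h5
  have hsq' : ∀ m, m ≤ 2 * J + c → m ^ 2 ≤ M := fun m hm =>
    (Nat.pow_le_pow_left hm 2).trans hsq
  set W' := W.filter fun n => N ≤ n with hW'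
  have hsub : W'  ⊆ W := Finset.filter_subset _ _
  have h1 := hfine J hJ0 W' (by
    intro n hn
    rw [hW', Finset.mem_filter] at hn
    refine ⟨hn.2, ?_⟩
    have h2 := hWM n hn.1
    have h3 := le_of_abs_le (abs_walk_le x n)
    have h4 : ((n : ℕ) : ℤ) ≤ (2 : ℤ) ^ J := by exact_mod_cast (h2.trans hMJ.le)
    exact h3.trans h4) (by
    intro m hm0 hm1
    refine le_trans ?_ (hB m hm0 (hsq' m hm1))
    have e1 : (W'.image (blk x m)).card ≤ (W.image (blk x m)).card :=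
      Finset.card_le_card (Finset.image_subset_image hsub)
    exact_mod_cast e1.trans (card_blk_le_word x m W))
  have h2 : W.card ≤ N + W'.card := by
    have e1 : W ⊆ Finset.range N ∪ W' := by
      intro n hn
      rw [Finset.mem_union, Finset.mem_range, hW', Finset.mem_filter]
      rcases Nat.lt_or_ge n N with h | h
      · exact Or.inl h
      · exact Or.inr ⟨hn, h⟩
    have e2 := (Finset.card_le_card e1).trans (Finset.card_union_le _ _)
    rwa [Finset.card_range] at e2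
  have h3 : (W.card : ℝ) ≤ N + W'.card := by exact_mod_cast h2
  have h4 : (N : ℝ) ≤ ε / 2 * M := by
    have e1 : (2 * N / ε : ℝ) < M := by
      have : (M₁ : ℝ) ≤ M := by exact_mod_cast hMa
      linarith
    rw [div_lt_iff₀ hε] at e1
    linarith
  have h5 : ε / 4 * 2 ^ J ≤ ε / 2 * M := by
    have := mul_le_mul_of_nonneg_left h2J (by positivity : 0 ≤ ε / 4)
    linarith
  linarith

/-- Many blocks occur infinitely often. -/
theorem Esc.entropy (h : Esc x q N) (n : ℕ) : 2 ^ n ≤ (recurring x n).ncard ^ 2 := by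
  rcases Nat.eq_zero_or_pos n with hn | hn
  · subst hn
    rw [pow_zero]
    exact Nat.one_le_pow _ _ (recurring_ncard_pos x 0)
  by_contra hlt
  push Not at hlt
  obtain ⟨κ, hκ1, hκn, N₁, hN₁⟩ := exists_kappa x hn
  have hκ : κ ^ 2 < 2 := by
    have h1 : (κ ^ 2) ^ n < 2 ^ n := by
      rw [← pow_mul, mul_comm, pow_mul, hκn]
      exact_mod_cast hlt
    exact lt_of_pow_lt_pow_left₀ n (by norm_num) h1
  obtain ⟨J₀, c, hfine⟩ := h.fine hκ1 hκ (C := (recurring x n).ncard) (by positivity) 0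
    (ε := 1 / 2) (by norm_num)
  obtain ⟨J, hJ⟩ : ∃ J, J = max J₀ (2 * (max N N₁)) := ⟨_, rfl⟩
  have h1 := hfine J (by rw [hJ]; exact le_max_left _ _) (Finset.Icc (max N N₁) (2 ^ J)) (by
    intro n hn
    rw [Finset.mem_Icc] at hn
    refine ⟨(le_max_left _ _).trans hn.1, ?_⟩
    have h3 := le_of_abs_le (abs_walk_le x n)
    have h4 : ((n : ℕ) : ℤ) ≤ (2 : ℤ) ^ J := by exact_mod_cast hn.2
    exact h3.trans h4) (by
    intro m _ _
    exact hN₁ m _ fun a ha => (le_max_right _ _).trans (Finset.mem_Icc.1 ha).1)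
  rw [Nat.card_Icc] at h1
  have h2 : 2 * (max N N₁) < 2 ^ J := by
    have : 2 * (max N N₁) ≤ J := by rw [hJ]; exact le_max_right _ _
    exact this.trans_lt Nat.lt_two_pow_self
  have h3 : ((2 ^ J + 1 - max N N₁ : ℕ) : ℝ) = 2 ^ J + 1 - (max N N₁ : ℕ) := by
    rw [Nat.cast_sub (by omega)]
    push_cast
    ring
  rw [h3] at h1
  have h4 : (2 : ℝ) * ((max N N₁ : ℕ) : ℝ) < 2 ^ J := by exact_mod_cast h2
  linarith

lemma exists_bound {r : ℝ} (h0 : 0 ≤ r) (h1 : r < 1) :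
    ∃ B : ℝ, 0 ≤ B ∧ ∀ J : ℕ, ((J : ℝ) + 1) * r ^ J ≤ B := by
  have t1 := tendsto_self_mul_const_pow_of_lt_one h0 h1
  have t2 := tendsto_pow_atTop_nhds_zero_of_lt_one h0 h1
  have t3 := t1.add t2
  obtain ⟨B, hB⟩ := t3.bddAbove_range
  refine ⟨max B 0, le_max_right _ _, fun J => ?_⟩
  have : (J : ℝ) * r ^ J + r ^ J ≤ B := hB (mem_range_self J)
  refine le_trans ?_ (le_max_left _ _)
  linarith

/-- The polynomial form of the counting lemma. -/
theorem Esc.rate (h : Esc x q N) {κ C s : ℝ} (hκ1 : 1 ≤ κ) (hC : 0 ≤ C) (hs : 1 < s)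
    (hκ : κ ^ 2 < 2 ^ s) (m₀ : ℕ) :
    ∃ (C' : ℝ) (c : ℕ), 0 ≤ C' ∧ ∀ K : ℕ, 1 ≤ K → ∀ W : Finset ℕ,
      (∀ n ∈ W, N ≤ n ∧ walk x n ≤ K) →
      (∀ m, m₀ ≤ m → m ≤ 2 * Nat.log 2 K + c → ((W.image (blk x m)).card : ℝ) ≤ C * κ ^ m) →
      (W.card : ℝ) ≤ C' * (K : ℝ) ^ s := by
  have h2s : (0 : ℝ) < 2 ^ s := Real.rpow_pos_of_pos (by norm_num) _
  have hs1 : (2 : ℝ) < 2 ^ s := by
    have h1 := Real.rpow_lt_rpow_of_exponent_lt (by norm_num : (1 : ℝ) < 2) hs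
    rwa [Real.rpow_one] at h1
  obtain ⟨a, ha⟩ : ∃ a : ℝ, a = max 2 (κ ^ 2) := ⟨_, rfl⟩
  have ha2 : 2 ≤ a := by rw [ha]; exact le_max_left _ _
  have haκ : κ ^ 2 ≤ a := by rw [ha]; exact le_max_right _ _
  have has : a < 2 ^ s := by rw [ha]; exact max_lt hs1 hκ
  have ha0 : 0 < a := by linarith
  obtain ⟨C', c, hC', hrough⟩ := h.rough hκ1 hC ha2 haκ m₀
  obtain ⟨B, hB0, hB⟩ := exists_bound (r := a / 2 ^ s) (by positivity) (by rwa [div_lt_one h2s])
  have hs0 : 0 < s := by linarith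
  refine ⟨C' * B * 2 ^ s, c + 2, by positivity, fun K hK W hW hblk => ?_⟩
  set J := Nat.log 2 K + 1 with hJ
  have hKJ : K < 2 ^ J := Nat.lt_pow_succ_log_self (by norm_num) K
  have hJK : 2 ^ (J - 1) ≤ K := Nat.pow_log_le_self 2 (by omega)
  have h2J : (2 : ℝ) ^ J ≤ 2 * K := by
    have e : (2 : ℝ) ^ J = 2 * 2 ^ (J - 1) := by rw [hJ, Nat.add_sub_cancel, pow_succ]; ring
    have : (2 : ℝ) ^ (J - 1) ≤ K := by exact_mod_cast hJK
    linarith
  have h1 := hrough J W (by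
    intro b hb
    obtain ⟨h1, h2⟩ := hW b hb
    refine ⟨h1, h2.trans ?_⟩
    exact_mod_cast hKJ.le) (by
    intro m hm0 hm1
    exact hblk m hm0 (by omega))
  have h2 : ((J : ℝ) + 1) * a ^ J ≤ B * (2 ^ s) ^ J := by
    have := hB J
    rw [div_pow, ← mul_div_assoc, div_le_iff₀ (by positivity)] at this
    exact this
  have h3 : ((2 : ℝ) ^ s) ^ J ≤ 2 ^ s * (K : ℝ) ^ s := by
    have e1 : ((2 : ℝ) ^ s) ^ J = ((2 : ℝ) ^ J) ^ s := by
      rw [← Real.rpow_natCast, ← Real.rpow_natCast, ← Real.rpow_mul (by norm_num),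
        ← Real.rpow_mul (by norm_num), mul_comm]
    rw [e1, ← Real.mul_rpow (by norm_num) (by positivity)]
    exact Real.rpow_le_rpow (by positivity) h2J hs0.le
  calc (W.card : ℝ) ≤ C' * (((J : ℝ) + 1) * a ^ J) := by rw [← mul_assoc]; exact h1
    _ ≤ C' * (B * (2 ^ s) ^ J) := mul_le_mul_of_nonneg_left h2 hC'
    _ ≤ C' * (B * (2 ^ s * (K : ℝ) ^ s)) := by
        refine mul_le_mul_of_nonneg_left ?_ hC'
        exact mul_le_mul_of_nonneg_left h3 hB0
    _ = _ := by ring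

/-- The growth theorem. -/
theorem Esc.growth_rate (h : Esc x q N) {n : ℕ} (hn : 0 < n) {s : ℝ}
    (hs : ((recurring x n).ncard : ℝ) ^ 2 < 2 ^ (s * n)) :
    ∃ C : ℝ, 0 ≤ C ∧ ∃ N' : ℕ, ∀ K : ℕ, 1 ≤ K → ∀ W : Finset ℕ, (∀ a ∈ W, N' ≤ a ∧ walk x a ≤ K) →
      (W.card : ℝ) ≤ C * (K : ℝ) ^ s := by
  obtain ⟨κ, hκ1, hκn, N₁, hN₁⟩ := exists_kappa x hn
  have h2s : (0 : ℝ) < 2 ^ s := Real.rpow_pos_of_pos (by norm_num) _
  have hsn : (2 : ℝ) ^ (s * n) = (2 ^ s) ^ n := by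
    rw [Real.rpow_mul (by norm_num), Real.rpow_natCast]
  have hκ : κ ^ 2 < 2 ^ s := by
    have h1 : (κ ^ 2) ^ n < (2 ^ s) ^ n := by
      rw [← pow_mul, mul_comm, pow_mul, hκn, ← hsn]
      exact hs
    exact lt_of_pow_lt_pow_left₀ n h2s.le h1
  have hs1 : (2 : ℝ) < 2 ^ s := by
    have h1 : (2 : ℝ) ^ n ≤ ((recurring x n).ncard : ℝ) ^ 2 := by exact_mod_cast h.entropy n
    have h2 := h1.trans_lt hs
    rw [hsn] at h2
    exact lt_of_pow_lt_pow_left₀ n h2s.le h2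
  have hs' : 1 < s := by
    by_contra hle
    push Not at hle
    have : (2 : ℝ) ^ s ≤ 2 ^ (1 : ℝ) := Real.rpow_le_rpow_of_exponent_le (by norm_num) hle
    rw [Real.rpow_one] at this
    linarith
  obtain ⟨C', c, hC', hrate⟩ := h.rate hκ1 (C := (recurring x n).ncard) (by positivity) hs' hκ 0
  refine ⟨C', hC', max N N₁, fun K hK W hW => hrate K hK W (fun b hb => ?_) fun m _ _ => ?_⟩
  · exact ⟨(le_max_left _ _).trans (hW b hb).1, (hW b hb).2⟩
  · exact hN₁ m W fun b hb => (le_max_right _ _).trans (hW b hb).1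

end Pool.Agent.Work.MP_df9865_an
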