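import Pool.Agent.Work.MP_df9865_an.Lines

/-!
# The counting lemma
-/

open Set Filter Topology

namespace Pool.Agent.Work.MP_df9865_an

lemma card_image_le_of_factor {α β γ : Type*} [DecidableEq β] [DecidableEq γ] (s : Finset α)
    (f : α → β) (g : α → γ) (h : ∀ a ∈ s, ∀ b ∈ s, f a = f b → g a = g b) :
    (s.image g).card ≤ (s.image f).card := by
  have e1 : s.image g = (s.image fun a => (f a, g a)).image Prod.snd := by
    rw [Finset.image_image]; rfl
  have e2 : s.image f = (s.image fun a => (f a, g a)).image Prod.fst := by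
    rw [Finset.image_image]; rfl
  rw [e1, e2, Finset.card_image_of_injOn (s := s.image fun a => (f a, g a)) (f := Prod.fst)]
  · exact Finset.card_image_le
  · intro p hp p' hp' hpp
    simp only [Finset.coe_image, Set.mem_image, Finset.mem_coe] at hp hp'
    obtain ⟨a, ha, rfl⟩ := hp
    obtain ⟨b, hb, rfl⟩ := hp'
    simp only at hpp
    rw [Prod.mk.injEq]
    exact ⟨hpp, h a ha b hb hpp⟩

variable {x : ℝ} {q N : ℕ}

theorem Esc.count (h : Esc x q N) (J L c j₀ : ℕ) (W : Finset ℕ)
    (hW : ∀ n ∈ W, N ≤ n ∧ walk x n ≤ 2 ^ J)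
    (hL : 16 * q * ((2 : ℝ) ^ J + L + 1) ^ 2 ≤ 2 ^ L) (hc : (8 : ℝ) * q ≤ 2 ^ c) {δ : ℝ}
    (hsmall : ∀ n, N ≤ n → ∀ A : ℚ, A.den < 2 ^ j₀ →
      |(q : ℝ) * tl x n - A| * (walk x n + 1) < δ → False)
    (hδ : q * ((2 : ℝ) ^ J + L + 1) ^ 2 < δ * 2 ^ L) :
    W.card ≤ (W.image (blk x L)).card +
      ∑ j ∈ Finset.Ico j₀ J, (W.image (blk x (2 * j + c))).card * (2 ^ (J - j) + 1) := by
  classical
  have hq : (0 : ℝ) < q := by exact_mod_cast h.hq
  have hq1 : (1 : ℝ) ≤ q := by exact_mod_cast h.hq
  have h2L : (0 : ℝ) < 2 ^ L := by positivity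
  have hL0 : (0 : ℝ) ≤ L := by positivity
  set K : ℝ := 2 ^ J with hK
  have hK1 : 1 ≤ K := one_le_pow₀ (by norm_num)
  set S : ℝ := K + L + 1 with hS
  have hS1 : 1 ≤ S := by linarith
  set Δ : ℝ := q * S / 2 ^ L with hΔ
  have hΔ0 : 0 ≤ Δ := by positivity
  have hΔS : Δ * S ≤ 1 / 16 := by
    rw [hΔ, div_mul_eq_mul_div, div_le_iff₀ h2L]
    linarith [sq S]
  have hΔS' : Δ * S < δ := by
    rw [hΔ, div_mul_eq_mul_div, div_lt_iff₀ h2L]
    linarith [sq S]
  have hqS : q * (K + L + 1) < 2 ^ L := by
    have : (q : ℝ) * S ≤ q * S ^ 2 := by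
      refine mul_le_mul_of_nonneg_left ?_ hq.le
      nlinarith
    have h3 : 0 < (q : ℝ) * S ^ 2 := by positivity
    linarith
  choose Y hY using h.int
  have hwK : ∀ n ∈ W, (walk x n : ℝ) ≤ K := by
    intro n hn
    have := (hW n hn).2
    rw [hK]
    exact_mod_cast this
  set U := W.filter fun n => ∀ m ∈ W, blk x L m = blk x L n → m = n with hU
  set V := W.filter fun n => ¬ ∀ m ∈ W, blk x L m = blk x L n → m = n with hV
  have hUV : U.card + V.card = W.card := Finset.card_filter_add_card_filter_not _
  have hUcard : U.card ≤ (W.image (blk x L)).card := by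
    rw [← Finset.card_image_of_injOn (s := U) (f := blk x L)]
    · exact Finset.card_le_card (Finset.image_subset_image (Finset.filter_subset _ _))
    · intro n hn m hm hnm
      rw [Finset.mem_coe, hU, Finset.mem_filter] at hn hm
      exact hm.2 n hn.1 hnm
  -- the rational numbers
  have hA : ∀ n, n ∈ V → ∃ A : ℚ, A.den < 2 ^ J ∧ |(q : ℝ) * tl x n - A| * A.den ≤ Δ := by
    intro n hn
    rw [hV, Finset.mem_filter] at hn
    obtain ⟨hnW, hn2⟩ := hn
    push Not at hn2
    obtain ⟨m, hm, hbm, hne⟩ := hn2
    obtain ⟨A, h1, h2, h3⟩ := h.pair (hW n hnW).1 (hW m hm).1 (Ne.symm hne) (hwK m hm) hbm.symm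
      hqS
    refine ⟨A, ?_, h3⟩
    have h4 := Int.le_of_dvd (abs_pos.2 h2) ((dvd_abs _ _).2 h1)
    have h5 := h.pos (hW n hnW).1
    have h6 := h.pos (hW m hm).1
    have h7 := (hW n hnW).2
    have h8 := (hW m hm).2
    have h9 : |walk x m - walk x n| < 2 ^ J := by
      rw [abs_lt]
      constructor <;> linarith
    have : (A.den : ℤ) < 2 ^ J := by linarith
    exact_mod_cast this
  choose! A hAd hAe using hA
  have hVW : V ⊆ W := Finset.filter_subset _ _
  have hlogJ : ∀ n ∈ V, Nat.log 2 (A n).den < J := fun n hn =>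
    Nat.log_lt_of_lt_pow (A n).den_nz (hAd n hn)
  have hlog0 : ∀ n ∈ V, j₀ ≤ Nat.log 2 (A n).den := by
    intro n hn
    refine Nat.le_log_of_pow_le (by norm_num) ?_
    by_contra hlt
    push Not at hlt
    have hnW := hVW hn
    have hpn : (0 : ℝ) < walk x n := by exact_mod_cast h.pos (hW n hnW).1
    refine hsmall n (hW n hnW).1 (A n) hlt ?_
    have hb1 : (1 : ℝ) ≤ (A n).den := by exact_mod_cast (A n).den_pos
    have e1 : |(q : ℝ) * tl x n - A n| ≤ Δ :=
      (le_mul_of_one_le_right (abs_nonneg _) hb1).trans (hAe n hn)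
    have e2 : (walk x n : ℝ) + 1 ≤ S := by
      have := hwK n hnW
      linarith
    exact (mul_le_mul e1 e2 (by linarith) hΔ0).trans_lt hΔS'
  have hmaps : ∀ n ∈ V, Nat.log 2 (A n).den ∈ Finset.Ico j₀ J := fun n hn =>
    Finset.mem_Ico.2 ⟨hlog0 n hn, hlogJ n hn⟩
  have hVsum : V.card = ∑ j ∈ Finset.Ico j₀ J, (V.filter fun n => Nat.log 2 (A n).den = j).card :=
    Finset.card_eq_sum_card_fiberwise hmaps
  have hmain : ∀ j ∈ Finset.Ico j₀ J, (V.filter fun n => Nat.log 2 (A n).den = j).card ≤
      (W.image (blk x (2 * j + c))).card * (2 ^ (J - j) + 1) := by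
    intro j hj
    rw [Finset.mem_Ico] at hj
    set Vj := V.filter fun n => Nat.log 2 (A n).den = j with hVj
    have hVjV : Vj ⊆ V := Finset.filter_subset _ _
    have hden1 : ∀ n ∈ Vj, 2 ^ j ≤ (A n).den := by
      intro n hn
      rw [hVj, Finset.mem_filter] at hn
      rw [← hn.2]
      exact Nat.pow_log_le_self 2 (A n).den_nz
    have hden2 : ∀ n ∈ Vj, (A n).den < 2 ^ (j + 1) := by
      intro n hn
      rw [hVj, Finset.mem_filter] at hn
      rw [← hn.2]
      exact Nat.lt_pow_succ_log_self (by norm_num) _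
    -- fibres
    have hfib : ∀ a ∈ Vj.image A, (Vj.filter fun n => A n = a).card ≤ 2 ^ (J - j) + 1 := by
      intro a ha
      have hcard : (Finset.Icc (0 : ℤ) (2 ^ (J - j))).card = 2 ^ (J - j) + 1 := by
        rw [Int.card_Icc]
        have : ((2 : ℤ) ^ (J - j) + 1 - 0) = ((2 ^ (J - j) + 1 : ℕ) : ℤ) := by push_cast; ring
        rw [this, Int.toNat_natCast]
      rw [← hcard]
      refine Finset.card_le_card_of_injOn (fun n => walk x n / (a.den : ℤ)) ?_ ?_
      · intro n hn
        rw [Finset.mem_coe, Finset.mem_filter] at hn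
        have hnV := hVjV hn.1
        have hnW := hVW hnV
        have hpn := h.pos (hW n hnW).1
        have hle := (hW n hnW).2
        have hd := hden1 n hn.1
        rw [hn.2] at hd
        rw [Finset.mem_coe, Finset.mem_Icc]
        have hdpos : (0 : ℤ) < a.den := by exact_mod_cast a.den_pos
        refine ⟨Int.ediv_nonneg hpn.le hdpos.le, ?_⟩
        refine Int.ediv_le_of_le_mul hdpos ?_
        have e1 : (2 : ℤ) ^ J = 2 ^ (J - j) * 2 ^ j := by rw [← pow_add]; congr 1; omega
        have e2 : (2 : ℤ) ^ j ≤ a.den := by exact_mod_cast hd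
        calc walk x n ≤ 2 ^ J := hle
          _ = 2 ^ (J - j) * 2 ^ j := e1
          _ ≤ 2 ^ (J - j) * a.den := mul_le_mul_of_nonneg_left e2 (by positivity)
      · intro n hn m hm hnm
        rw [Finset.mem_coe, Finset.mem_filter] at hn hm
        have hnV := hVjV hn.1
        have hnW := hVW hnV
        have hmV := hVjV hm.1
        have hmW := hVW hmV
        have han := hAe n hnV
        have ham := hAe m hmV
        rw [hn.2] at han
        rw [hm.2] at ham
        have hadK : (a.den : ℝ) ≤ K := by
          have := hAd n hnV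
          rw [hn.2] at this
          rw [hK]
          exact_mod_cast this.le
        have hline := h.line (hW n hnW).1 (hW m hmW).1 (hwK n hnW) (hwK m hmW) hadK han ham hL
          (hY n) (hY m)
        have hdvd : (a.den : ℤ) ∣ walk x n - walk x m := by
          have h1 : (a.den : ℤ) ∣ a.num * (walk x n - walk x m) := ⟨_, hline.symm⟩
          refine (IsCoprime.dvd_of_dvd_mul_left ?_ h1)
          have := a.reduced
          rw [Int.isCoprime_iff_gcd_eq_one, Int.gcd, Int.natAbs_natCast]
          exact this.symm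
        have hww : walk x n = walk x m := by
          have e1 : walk x n % a.den = walk x m % a.den :=
            (Int.emod_emod_of_dvd _ (dvd_refl _)).symm.trans
              ((Int.emod_emod_of_dvd _ (dvd_refl _)).trans
                (Int.emod_eq_emod_iff_emod_sub_eq_zero.2 (Int.emod_eq_zero_of_dvd hdvd)))
          have e2 := Int.mul_ediv_add_emod (walk x n) a.den
          have e3 := Int.mul_ediv_add_emod (walk x m) a.den
          simp only at hnm
          rw [hnm, e1] at e2
          linarith
        have hYY : Y n = Y m := by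
          rw [hww, sub_self, mul_zero] at hline
          rcases mul_eq_zero.1 hline with h1 | h1
          · exact absurd h1 (by exact_mod_cast a.den_nz)
          · linarith
        refine h.inj (hW n hnW).1 (hW m hmW).1 hww ?_
        have : (q : ℝ) * ht x n = q * ht x m := by rw [hY, hY, hYY]
        exact mul_left_cancel₀ hq.ne' this
    have h1 := Finset.card_le_mul_card_image Vj (2 ^ (J - j) + 1) hfib
    -- separation
    have hsep : (Vj.image A).card ≤ (Vj.image (blk x (2 * j + c))).card := by
      refine card_image_le_of_factor Vj _ _ ?_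
      intro n hn m hm hnm
      by_contra hne
      have hclose := close_of_blk hnm
      have hen := hAe n (hVjV hn)
      have hem := hAe m (hVjV hm)
      have hdn : ((A n).den : ℝ) ≤ 2 ^ (j + 1) := by exact_mod_cast (hden2 n hn).le
      have hdm : ((A m).den : ℝ) ≤ 2 ^ (j + 1) := by exact_mod_cast (hden2 m hm).le
      have hdn0 : (0 : ℝ) < (A n).den := by exact_mod_cast (A n).den_pos
      have hdm0 : (0 : ℝ) < (A m).den := by exact_mod_cast (A m).den_pos
      have hZ : (1 : ℝ) ≤ |(A n : ℝ) - A m| * ((A n).den * (A m).den) := by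
        have e1 : ((A n : ℝ) - A m) * ((A n).den * (A m).den)
            = (((A n).num * (A m).den - (A m).num * (A n).den : ℤ) : ℝ) := by
          have h1 : ((A n).num : ℝ) = A n * (A n).den := by
            have := Rat.mul_den_eq_num (A n)
            exact_mod_cast this.symm
          have h2 : ((A m).num : ℝ) = A m * (A m).den := by
            have := Rat.mul_den_eq_num (A m)
            exact_mod_cast this.symm
          push_cast
          rw [h1, h2]
          ring
        have e2 : ((A n : ℝ) - A m) * ((A n).den * (A m).den) ≠ 0 := by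
          refine mul_ne_zero (sub_ne_zero.2 ?_) (by positivity)
          exact_mod_cast hne
        have e3 : |(A n : ℝ) - A m| * ((A n).den * (A m).den)
            = |((A n : ℝ) - A m) * ((A n).den * (A m).den)| := by
          rw [abs_mul, abs_of_pos (by positivity : (0 : ℝ) < (A n).den * (A m).den)]
        rw [e3, e1]
        rw [e1] at e2
        have e4 : ((A n).num * (A m).den - (A m).num * (A n).den : ℤ) ≠ 0 := by exact_mod_cast e2
        exact_mod_cast Int.one_le_abs e4
      have htri : |(A n : ℝ) - A m| ≤ |(q : ℝ) * tl x n - A n| + |(q : ℝ) * tl x m - A m| +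
          q * |tl x n - tl x m| := by
        have e1 : (A n : ℝ) - A m = -((q : ℝ) * tl x n - A n) + ((q : ℝ) * tl x m - A m)
            + q * (tl x n - tl x m) := by ring
        rw [e1]
        have e2 := abs_add_le (-((q : ℝ) * tl x n - A n) + ((q : ℝ) * tl x m - A m))
          (q * (tl x n - tl x m))
        have e3 := abs_add_le (-((q : ℝ) * tl x n - A n)) ((q : ℝ) * tl x m - A m)
        rw [abs_neg] at e3
        have e4 : |(q : ℝ) * (tl x n - tl x m)| = q * |tl x n - tl x m| := by
          rw [abs_mul, abs_of_pos hq]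
        linarith
      have hbd : |(A n : ℝ) - A m| * ((A n).den * (A m).den) ≤
          Δ * 2 ^ (j + 1) + Δ * 2 ^ (j + 1) + 1 / 2 := by
        have t1 : |(q : ℝ) * tl x n - A n| * ((A n).den * (A m).den) ≤ Δ * 2 ^ (j + 1) := by
          rw [← mul_assoc]
          exact mul_le_mul hen hdm hdm0.le hΔ0
        have t2 : |(q : ℝ) * tl x m - A m| * ((A n).den * (A m).den) ≤ Δ * 2 ^ (j + 1) := by
          rw [mul_comm ((A n).den : ℝ), ← mul_assoc]
          exact mul_le_mul hem hdn hdn0.le hΔ0
        have t3 : q * |tl x n - tl x m| * ((A n).den * (A m).den) ≤ 1 / 2 := by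
          have s1 : q * |tl x n - tl x m| ≤ q * (1 / 2) ^ (2 * j + c) :=
            mul_le_mul_of_nonneg_left hclose hq.le
          have s2 : ((A n).den : ℝ) * (A m).den ≤ 2 ^ (j + 1) * 2 ^ (j + 1) :=
            mul_le_mul hdn hdm hdm0.le (by positivity)
          have s3 := mul_le_mul s1 s2 (by positivity) (by positivity)
          refine s3.trans ?_
          have s4 : (q : ℝ) * (1 / 2) ^ (2 * j + c) * (2 ^ (j + 1) * 2 ^ (j + 1))
              = 4 * q / 2 ^ c := by
            rw [one_div_pow, pow_add, pow_mul, pow_succ]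
            have : (2 : ℝ) ^ j * 2 ^ j = (2 ^ 2) ^ j := by rw [← mul_pow]; norm_num
            have h22 : ((2 : ℝ) ^ 2) ^ j ≠ 0 := by positivity
            field_simp
            rw [← this]
            ring
          rw [s4, div_le_iff₀ (by positivity)]
          linarith
        have := mul_le_mul_of_nonneg_right htri
          (by positivity : (0 : ℝ) ≤ (A n).den * (A m).den)
        linarith
      have hfin : Δ * 2 ^ (j + 1) + Δ * 2 ^ (j + 1) < 1 / 2 := by
        have s1 : (2 : ℝ) ^ (j + 1) ≤ K := by
          rw [hK]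
          exact pow_le_pow_right₀ (by norm_num) (by omega)
        have s2 : Δ * 2 ^ (j + 1) ≤ Δ * S :=
          mul_le_mul_of_nonneg_left (by linarith) hΔ0
        linarith
      linarith
    have hsub : (Vj.image (blk x (2 * j + c))).card ≤ (W.image (blk x (2 * j + c))).card :=
      Finset.card_le_card (Finset.image_subset_image (hVjV.trans hVW))
    calc Vj.card ≤ (2 ^ (J - j) + 1) * (Vj.image A).card := h1
      _ ≤ (2 ^ (J - j) + 1) * (W.image (blk x (2 * j + c))).card :=
          Nat.mul_le_mul_left _ (hsep.trans hsub)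
      _ = _ := Nat.mul_comm _ _
  have := Finset.sum_le_sum hmain
  omega

end Pool.Agent.Work.MP_df9865_an
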