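import Pool.Agent.Work.MP_df9865_an.Final

/-!
# Coding the blocks: the density form with a growth exponent
-/

open Set Filter Topology

namespace Pool.Agent.Work.MP_df9865_an

variable {x : ℝ} {q N : ℕ}

/-- The density form of the counting lemma with a growth exponent. -/
theorem Esc.density (h : Esc x q N) {σ κ C : ℝ} (hσ0 : 0 < σ) (hσ1 : σ ≤ 1) (hκ1 : 1 ≤ κ)
    (hκ : 2 * σ * Real.log κ < Real.log 2) (hC : 0 ≤ C) (m₀ : ℕ) {ε : ℝ} (hε : 0 < ε) :
    ∃ M₀ : ℕ, ∀ M : ℕ, M₀ ≤ M → ∀ W : Finset ℕ,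
      (∀ n ∈ W, n ≤ M ∧ (walk x n : ℝ) ≤ (M : ℝ) ^ σ) →
      (∀ m, m₀ ≤ m → m ^ 2 ≤ M → ((W.image (word x m)).card : ℝ) ≤ C * κ ^ m) →
      (W.card : ℝ) ≤ ε * M := by
  classical
  have hκ0 : 0 < κ := by linarith
  have hlog2 : 0 < Real.log 2 := Real.log_pos (by norm_num)
  rcases hσ1.lt_or_eq with hlt | heq
  · obtain ⟨l, hl⟩ : ∃ l : ℝ, l = max 1 (2 * Real.log κ / Real.log 2) := ⟨_, rfl⟩
    have hl1 : 1 ≤ l := by rw [hl]; exact le_max_left _ _
    have hl2 : 2 * Real.log κ / Real.log 2 ≤ l := by rw [hl]; exact le_max_right _ _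
    have hl3 : l < 1 / σ := by
      rw [hl]
      refine max_lt ?_ ?_
      · rw [lt_div_iff₀ hσ0]
        linarith
      · rw [div_lt_div_iff₀ hlog2 hσ0]
        linarith
    obtain ⟨s, hs⟩ : ∃ s : ℝ, s = (l + 1 / σ) / 2 := ⟨_, rfl⟩
    have hsl : l < s := by linarith
    have hs1 : 1 < s := by linarith
    have hsσ : σ * s < 1 := by
      have : s < 1 / σ := by linarith
      rw [lt_div_iff₀ hσ0] at this
      linarith
    have hκs : κ ^ 2 < 2 ^ s := by
      rw [← Real.exp_log (show 0 < κ ^ 2 by positivity),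
        ← Real.exp_log (show (0 : ℝ) < 2 ^ s by positivity)]
      refine Real.exp_lt_exp.2 ?_
      rw [Real.log_pow, Real.log_rpow (by norm_num)]
      have : 2 * Real.log κ / Real.log 2 < s := by linarith
      rw [div_lt_iff₀ hlog2] at this
      push_cast
      exact this
    obtain ⟨C', c, hC', hrate⟩ := h.rate hκ1 hC hs1 hκs m₀
    obtain ⟨M₁, hM₁⟩ := log_le_sqrt 1 c one_pos
    obtain ⟨M₂, hM₂⟩ := eventually_small (C' := C') (by linarith : 0 < s) hsσ hσ0 hlt hC'
      hε one_pos N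
    refine ⟨max M₁ M₂, fun M hM W hW hB => ?_⟩
    have hMa := hM₁ M ((le_max_left _ _).trans hM)
    obtain ⟨hM1, hMb⟩ := hM₂ M ((le_max_right _ _).trans hM)
    rw [one_mul] at hMa hMb
    have hyr : (1 : ℝ) ≤ ((M + 1 : ℕ) : ℝ) := by
      have : 1 ≤ M + 1 := by omega
      exact_mod_cast this
    set K := ⌈((M + 1 : ℕ) : ℝ) ^ σ⌉₊ with hK
    have hyσ : 1 ≤ ((M + 1 : ℕ) : ℝ) ^ σ := Real.one_le_rpow hyr hσ0.le
    have hKge : ((M + 1 : ℕ) : ℝ) ^ σ ≤ K := Nat.le_ceil _
    have hK1 : 1 ≤ K := by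
      have : (1 : ℝ) ≤ K := hyσ.trans hKge
      exact_mod_cast this
    have hKy : K ≤ M + 1 := by
      rw [hK, Nat.ceil_le]
      calc ((M + 1 : ℕ) : ℝ) ^ σ ≤ ((M + 1 : ℕ) : ℝ) ^ (1 : ℝ) :=
            Real.rpow_le_rpow_of_exponent_le hyr hσ1
        _ = ((M + 1 : ℕ) : ℝ) := Real.rpow_one _
    have h1 := hrate K hK1 (W.filter fun n => N ≤ n) (by
      intro n hn
      rw [Finset.mem_filter] at hn
      refine ⟨hn.2, ?_⟩
      have e1 := (hW n hn.1).2
      have e2 : (M : ℝ) ^ σ ≤ ((M + 1 : ℕ) : ℝ) ^ σ :=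
        Real.rpow_le_rpow (by positivity) (by push_cast; linarith) hσ0.le
      have e3 : (walk x n : ℝ) ≤ K := by linarith
      exact_mod_cast e3) (by
      intro m hm0 hm1
      have e1 : Nat.log 2 K ≤ Nat.log 2 (M + 1) := Nat.log_mono_right hKy
      have e2 : m ^ 2 ≤ M := Nat.le_sqrt'.1 (by omega)
      refine le_trans ?_ (hB m hm0 e2)
      have e3 := (card_blk_le_word x m (W.filter fun n => N ≤ n)).trans
        (Finset.card_le_card (Finset.image_subset_image (Finset.filter_subset _ W)))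
      exact_mod_cast e3)
    have h2 : (W.card : ℝ) ≤ N + (W.filter fun n => N ≤ n).card := by
      exact_mod_cast split_card W N
    have h3 : (0 : ℝ) ≤ (Nat.sqrt M : ℕ) := by positivity
    linarith
  · subst heq
    have hκ2 : κ ^ 2 < 2 := by
      rw [← Real.exp_log (show 0 < κ ^ 2 by positivity),
        ← Real.exp_log (show (0 : ℝ) < 2 by norm_num)]
      refine Real.exp_lt_exp.2 ?_
      rw [Real.log_pow]
      push_cast
      linarith
    obtain ⟨M₀, hM₀⟩ := h.master hκ1 hκ2 hC m₀ hε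
    exact ⟨M₀, fun M hM W hW hB => hM₀ M hM W (fun n hn => (hW n hn).1) hB⟩

/-- The number of words with a short code. -/
lemma card_code_le {A : Type*} [DecidableEq A] (S : Finset A) (Q : A → ℝ)
    (hQ0 : ∀ v ∈ S, 0 < Q v) (hQ1 : ∑ v ∈ S, Q v ≤ 1) {b : ℝ} (m : ℕ) (T : Finset (Fin m → A))
    (hT : T ⊆ Fintype.piFinset fun _ => S)
    (hs : ∀ u ∈ T, ∑ j, -Real.log (Q (u j)) ≤ b * m) :
    (T.card : ℝ) ≤ Real.exp b ^ m := by
  have h0 : 0 < Real.exp b := Real.exp_pos _
  have h1 : ∀ u ∈ T, (Real.exp (-b)) ^ m ≤ ∏ j, Q (u j) := by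
    intro u hu
    have hu' := hT hu
    rw [Fintype.mem_piFinset] at hu'
    have e1 : ∏ j, Q (u j) = Real.exp (-∑ j, -Real.log (Q (u j))) := by
      rw [← Finset.sum_neg_distrib, Real.exp_sum]
      refine Finset.prod_congr rfl fun j _ => ?_
      rw [neg_neg, Real.exp_log (hQ0 _ (hu' j))]
    rw [e1, ← Real.exp_nat_mul]
    refine Real.exp_le_exp.2 ?_
    have := hs u hu
    linarith
  have h2 : (T.card : ℝ) * (Real.exp (-b)) ^ m ≤ 1 := by
    calc (T.card : ℝ) * (Real.exp (-b)) ^ m = ∑ u ∈ T, (Real.exp (-b)) ^ m := by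
          rw [Finset.sum_const, nsmul_eq_mul]
      _ ≤ ∑ u ∈ T, ∏ j, Q (u j) := Finset.sum_le_sum h1
      _ ≤ ∑ u ∈ Fintype.piFinset (fun _ : Fin m => S), ∏ j, Q (u j) := by
          refine Finset.sum_le_sum_of_subset_of_nonneg hT fun u hu _ => ?_
          rw [Fintype.mem_piFinset] at hu
          exact Finset.prod_nonneg fun j _ => (hQ0 _ (hu j)).le
      _ = ∏ j : Fin m, ∑ v ∈ S, Q v :=
          (Finset.prod_univ_sum (fun _ : Fin m => S) (fun _ v => Q v)).symm
      _ = (∑ v ∈ S, Q v) ^ m := by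
          rw [Finset.prod_const, Finset.card_univ, Fintype.card_fin]
      _ ≤ 1 := pow_le_one₀ (Finset.sum_nonneg fun v hv => (hQ0 v hv).le) hQ1
  have h3 : Real.exp (-b) ^ m * Real.exp b ^ m = 1 := by
    rw [← mul_pow, ← Real.exp_add, neg_add_cancel, Real.exp_zero, one_pow]
  calc (T.card : ℝ) = T.card * (Real.exp (-b) ^ m * Real.exp b ^ m) := by rw [h3, mul_one]
    _ = (T.card * Real.exp (-b) ^ m) * Real.exp b ^ m := by ring
    _ ≤ 1 * Real.exp b ^ m := mul_le_mul_of_nonneg_right h2 (by positivity)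
    _ = _ := one_mul _

/-- No code of the blocks in a residue class is short. -/
theorem Esc.code_residue (h : Esc x q N) {σ : ℝ} (hσ0 : 0 < σ) (hσ1 : σ ≤ 1) {k : ℕ} (hk : 0 < k)
    (Q : (Fin k → ℤ) → ℝ) (hQ0 : ∀ v ∈ signs k, 0 < Q v) (hQ1 : ∑ v ∈ signs k, Q v ≤ 1) {r : ℕ}
    (hr : r < k) {η : ℝ} (hη : 0 < η) :
    ∃ Y₀ : ℕ, ∀ Y : ℕ, Y₀ ≤ Y → (∀ n, n < Y → (walk x n : ℝ) ≤ (Y : ℝ) ^ σ) →
      (k * Real.log 2 / (2 * σ) - η) * ((Y / k : ℕ) : ℝ) ≤
        ∑ j ∈ Finset.range (Y / k), -Real.log (Q (word x k (r + k * j))) := by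
  classical
  have hkr : (0 : ℝ) < k := by exact_mod_cast hk
  have hlog2 : 0 < Real.log 2 := Real.log_pos (by norm_num)
  have hword : ∀ n, word x k n ∈ signs k := fun n => word_mem x k n
  set f : ℕ → ℝ := fun j => -Real.log (Q (word x k (r + k * j))) with hf
  have hf0 : ∀ j, 0 ≤ f j := by
    intro j
    have h1 : Q (word x k (r + k * j)) ≤ 1 :=
      (Finset.single_le_sum (f := Q) (fun v hv => (hQ0 v hv).le) (hword _)).trans hQ1
    have h2 := Real.log_nonpos (hQ0 _ (hword _)).le h1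
    simp only [hf]
    linarith
  obtain ⟨a, ha⟩ : ∃ a : ℝ, a = k * Real.log 2 / (2 * σ) := ⟨_, rfl⟩
  rw [← ha]
  rcases le_or_gt a η with hle | hgt
  · refine ⟨0, fun Y _ _ => ?_⟩
    refine le_trans ?_ (Finset.sum_nonneg fun j _ => hf0 j)
    exact mul_nonpos_of_nonpos_of_nonneg (by linarith) (by positivity)
  obtain ⟨d, hd⟩ : ∃ d : ℝ, d = a - η / 2 := ⟨_, rfl⟩
  have hd0 : 0 < d := by linarith
  obtain ⟨e, he⟩ : ∃ e : ℝ, e = η / 2 / d := ⟨_, rfl⟩
  have he0 : 0 < e := by rw [he]; positivity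
  have hed : e * d = η / 2 := by rw [he]; field_simp
  have hκ : 2 * σ * Real.log (Real.exp (d / k)) < Real.log 2 := by
    rw [Real.log_exp]
    have h1 : 2 * σ * (a / k) = Real.log 2 := by
      rw [ha]
      field_simp
    have h2 : 2 * σ * (d / k) < 2 * σ * (a / k) := by
      refine mul_lt_mul_of_pos_left ?_ (by positivity)
      exact div_lt_div_of_pos_right (by linarith) hkr
    linarith
  obtain ⟨M₀, hM₀⟩ := h.density hσ0 hσ1 (κ := Real.exp (d / k)) (Real.one_le_exp (by positivity))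
    hκ (C := 2 ^ k) (by positivity) 0 (ε := e / (4 * k)) (by positivity)
  obtain ⟨M₁, hM₁⟩ := exists_nat_gt (32 * k / e ^ 2)
  refine ⟨max M₀ (k * (M₁ + 1)), fun Y hY hslow => ?_⟩
  have hYa : M₀ ≤ Y := (le_max_left _ _).trans hY
  have hYb : k * (M₁ + 1) ≤ Y := (le_max_right _ _).trans hY
  obtain ⟨M, hM⟩ : ∃ M, M = Y / k := ⟨_, rfl⟩
  rw [← hM]
  have hM1 : M₁ + 1 ≤ M := by
    rw [hM, Nat.le_div_iff_mul_le hk, mul_comm]
    exact hYb
  have hkM : k * M ≤ Y := by rw [hM]; exact Nat.mul_div_le Y k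
  have hYk : Y < k * (M + 1) := by rw [hM]; exact Nat.lt_mul_div_succ Y hk
  have hMr : (1 : ℝ) ≤ M := by
    have : 1 ≤ M := by omega
    exact_mod_cast this
  have hM32 : 32 * k ≤ e ^ 2 * M := by
    have e1 : (32 * k / e ^ 2 : ℝ) < M := hM₁.trans_le (by exact_mod_cast (by omega : M₁ ≤ M))
    rw [div_lt_iff₀ (by positivity)] at e1
    linarith
  set b := Nat.sqrt Y with hb
  have hbM : (b : ℝ) ≤ e / 4 * M := by
    have e1 : (b : ℝ) ^ 2 ≤ Y := by exact_mod_cast Nat.sqrt_le' Y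
    have e2 : (Y : ℝ) ≤ k * (M + 1) := by exact_mod_cast hYk.le
    have e3 : (k : ℝ) * (M + 1) ≤ 2 * k * M := by
      have : (k : ℝ) * 1 ≤ k * M := mul_le_mul_of_nonneg_left hMr hkr.le
      linarith
    have e4 : 2 * k * (M : ℝ) ≤ (e / 4 * M) ^ 2 := by
      have : (e / 4 * M) ^ 2 = (e ^ 2 * M) / 16 * M := by ring
      rw [this]
      have := mul_le_mul_of_nonneg_right hM32 (by linarith : (0 : ℝ) ≤ M)
      linarith
    exact le_of_sq_le_sq (by linarith) (by positivity)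
  by_contra hcon
  push Not at hcon
  set B := (Finset.range M).filter fun n =>
    ∃ m : ℕ, 1 ≤ m ∧ n + m ≤ M ∧ d * m < ∑ i ∈ Finset.Ico n (n + m), f i with hB
  have hBcard : d * (B.card : ℝ) ≤ ∑ i ∈ Finset.Ico 0 M, f i := by
    have h1 := rising_sun f hf0 hd0.le M B (by
      intro n hn
      rw [hB, Finset.mem_filter, Finset.mem_range] at hn
      exact hn) M 0 (by omega)
    have h2 : B.filter (fun n => 0 ≤ n) = B := Finset.filter_true_of_mem fun _ _ => Nat.zero_le _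
    rwa [h2] at h1
  rw [← Finset.range_eq_Ico] at hBcard
  have hBcard' : (B.card : ℝ) ≤ (1 - e) * M := by
    have h1 : d * (B.card : ℝ) ≤ d * ((1 - e) * M) := by
      have : d * ((1 - e) * M) = (a - η) * M := by
        have : d * ((1 - e) * M) = d * M - e * d * M := by ring
        rw [this, hed, hd]
        ring
      rw [this]
      linarith
    exact le_of_mul_le_mul_left h1 hd0
  set G := Finset.range (M - b) \ B with hG
  have hGcard : e * M - b ≤ G.card := by
    have h1 : (Finset.range (M - b)).card ≤ G.card + B.card := by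
      rw [hG]
      exact Finset.card_le_card_sdiff_add_card
    rw [Finset.card_range] at h1
    have h2 : (M : ℝ) ≤ G.card + B.card + b := by
      have : M ≤ G.card + B.card + b := by omega
      exact_mod_cast this
    linarith
  set W := G.image (fun j => r + k * j) with hW
  have hWcard : W.card = G.card := by
    refine Finset.card_image_of_injective _ ?_
    intro i j hij
    have : k * i = k * j := by simpa using hij
    exact Nat.eq_of_mul_eq_mul_left hk this
  have hmem : ∀ n ∈ W, ∃ j, j ∈ G ∧ n = r + k * j ∧ n < Y := by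
    intro n hn
    rw [hW, Finset.mem_image] at hn
    obtain ⟨j, hj, rfl⟩ := hn
    refine ⟨j, hj, rfl, ?_⟩
    rw [hG, Finset.mem_sdiff, Finset.mem_range] at hj
    have h1 : k * (j + 1) ≤ k * M := Nat.mul_le_mul_left _ (by omega)
    rw [Nat.mul_add] at h1
    omega
  have hmain := hM₀ Y hYa W (by
    intro n hn
    obtain ⟨j, _, _, hnY⟩ := hmem n hn
    exact ⟨hnY.le, hslow n hnY⟩) (by
    intro m _ hm
    have hmb : m ≤ b := Nat.le_sqrt'.2 hm
    have h1 := card_word_le x hk m W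
    have h2 : ((W.image fun a => fun i : Fin (m / k) => word x k (a + k * i)).card : ℝ) ≤
        Real.exp d ^ (m / k) := by
      refine card_code_le (signs k) Q hQ0 hQ1 (m / k) _ ?_ ?_
      · intro u hu
        rw [Finset.mem_image] at hu
        obtain ⟨a, _, rfl⟩ := hu
        rw [Fintype.mem_piFinset]
        exact fun i => hword _
      · intro u hu
        rw [Finset.mem_image] at hu
        obtain ⟨a, ha, rfl⟩ := hu
        obtain ⟨j, hj, haj, _⟩ := hmem a ha
        rw [hG, Finset.mem_sdiff, Finset.mem_range, hB, Finset.mem_filter,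
          Finset.mem_range] at hj
        have hmk : m / k ≤ b := (Nat.div_le_self _ _).trans hmb
        have e1 : ∑ i : Fin (m / k), -Real.log (Q (word x k (a + k * i)))
            = ∑ i ∈ Finset.Ico j (j + m / k), f i := by
          rw [Finset.sum_Ico_eq_sum_range, Nat.add_sub_cancel_left, ← Fin.sum_univ_eq_sum_range]
          refine Finset.sum_congr rfl fun i _ => ?_
          have e3 : a + k * (i : ℕ) = r + k * (j + i) := by rw [haj]; ring
          rw [e3]
        rw [e1]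
        rcases Nat.eq_zero_or_pos (m / k) with h0 | h0
        · rw [h0]
          simp
        · by_contra hlt'
          push Not at hlt'
          exact hj.2 ⟨by omega, m / k, h0, by omega, hlt'⟩
    have h3 : ((W.image (word x m)).card : ℝ) ≤
        ((W.image fun a => fun i : Fin (m / k) => word x k (a + k * i)).card : ℝ) * 2 ^ k := by
      exact_mod_cast h1
    have h4 : Real.exp d ^ (m / k) ≤ Real.exp (d / k) ^ m := by
      have e1 : Real.exp d = Real.exp (d / k) ^ k := by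
        rw [← Real.exp_nat_mul]
        congr 1
        field_simp
      rw [e1, ← pow_mul]
      exact pow_le_pow_right₀ (Real.one_le_exp (by positivity)) (Nat.mul_div_le m k)
    calc ((W.image (word x m)).card : ℝ) ≤ Real.exp d ^ (m / k) * 2 ^ k :=
          h3.trans (mul_le_mul_of_nonneg_right h2 (by positivity))
      _ ≤ Real.exp (d / k) ^ m * 2 ^ k := mul_le_mul_of_nonneg_right h4 (by positivity)
      _ = 2 ^ k * Real.exp (d / k) ^ m := mul_comm _ _)
  rw [hWcard] at hmain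
  have h5 : e / (4 * k) * (Y : ℝ) ≤ e / 2 * M := by
    have e1 : (Y : ℝ) ≤ k * (M + 1) := by exact_mod_cast hYk.le
    have e2 : e / (4 * k) * (Y : ℝ) ≤ e / (4 * k) * (k * (M + 1)) :=
      mul_le_mul_of_nonneg_left e1 (by positivity)
    have e3 : e / (4 * k) * (k * (M + 1)) = e / 4 * (M + 1) := by field_simp
    have e4 : e / 4 * 1 ≤ e / 4 * M := mul_le_mul_of_nonneg_left hMr (by positivity)
    linarith
  have h6 : 0 < e * M := by positivity
  linarith

lemma sum_range_mul (f : ℕ → ℝ) (k M : ℕ) :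
    ∑ n ∈ Finset.range (k * M), f n =
      ∑ r ∈ Finset.range k, ∑ j ∈ Finset.range M, f (r + k * j) := by
  induction M with
  | zero => simp
  | succ M ih =>
    rw [Nat.mul_succ, Finset.sum_range_add, ih, ← Finset.sum_add_distrib]
    refine Finset.sum_congr rfl fun r _ => ?_
    rw [Finset.sum_range_succ, add_comm (k * M) r]

/-- No code of the blocks is short. -/
theorem Esc.code (h : Esc x q N) {σ : ℝ} (hσ0 : 0 < σ) (hσ1 : σ ≤ 1) {k : ℕ} (hk : 0 < k)
    (Q : (Fin k → ℤ) → ℝ) (hQ0 : ∀ v ∈ signs k, 0 < Q v) (hQ1 : ∑ v ∈ signs k, Q v ≤ 1)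
    {η : ℝ} (hη : 0 < η) :
    ∃ Y₀ : ℕ, ∀ Y : ℕ, Y₀ ≤ Y → (∀ n, n < Y → (walk x n : ℝ) ≤ (Y : ℝ) ^ σ) →
      (k * Real.log 2 / (2 * σ) - η) * (Y : ℝ) ≤
        ∑ n ∈ Finset.range Y, -Real.log (Q (word x k n)) := by
  classical
  have hkr : (0 : ℝ) < k := by exact_mod_cast hk
  have hlog2 : 0 < Real.log 2 := Real.log_pos (by norm_num)
  have hword : ∀ n, word x k n ∈ signs k := fun n => word_mem x k n
  have hf0 : ∀ n, 0 ≤ -Real.log (Q (word x k n)) := by
    intro n
    have h1 : Q (word x k n) ≤ 1 :=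
      (Finset.single_le_sum (f := Q) (fun v hv => (hQ0 v hv).le) (hword _)).trans hQ1
    have h2 := Real.log_nonpos (hQ0 _ (hword _)).le h1
    linarith
  obtain ⟨a, ha⟩ : ∃ a : ℝ, a = k * Real.log 2 / (2 * σ) := ⟨_, rfl⟩
  rw [← ha]
  rcases le_or_gt a η with hle | hgt
  · refine ⟨0, fun Y _ _ => ?_⟩
    refine le_trans ?_ (Finset.sum_nonneg fun j _ => hf0 j)
    exact mul_nonpos_of_nonpos_of_nonneg (by linarith) (by positivity)
  have hF : ∀ r, r < k → ∃ Y₀ : ℕ, ∀ Y : ℕ, Y₀ ≤ Y →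
      (∀ n, n < Y → (walk x n : ℝ) ≤ (Y : ℝ) ^ σ) →
      (a - η / 2) * ((Y / k : ℕ) : ℝ) ≤
        ∑ j ∈ Finset.range (Y / k), -Real.log (Q (word x k (r + k * j))) := by
    intro r hr
    rw [ha]
    exact h.code_residue hσ0 hσ1 hk Q hQ0 hQ1 hr (by positivity)
  choose! F hF using hF
  obtain ⟨M₁, hM₁⟩ := exists_nat_gt (2 * a / η)
  refine ⟨max (∑ r ∈ Finset.range k, F r) (k * M₁), fun Y hY hslow => ?_⟩
  have hYa : ∑ r ∈ Finset.range k, F r ≤ Y := (le_max_left _ _).trans hY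
  have hYb : k * M₁ ≤ Y := (le_max_right _ _).trans hY
  obtain ⟨M, hM⟩ : ∃ M, M = Y / k := ⟨_, rfl⟩
  have hM1 : M₁ ≤ M := by
    rw [hM, Nat.le_div_iff_mul_le hk, mul_comm]
    exact hYb
  have hkM : k * M ≤ Y := by rw [hM]; exact Nat.mul_div_le Y k
  have hYk : Y < k * (M + 1) := by rw [hM]; exact Nat.lt_mul_div_succ Y hk
  have h1 : ∑ n ∈ Finset.range (k * M), -Real.log (Q (word x k n)) ≤
      ∑ n ∈ Finset.range Y, -Real.log (Q (word x k n)) :=
    Finset.sum_le_sum_of_subset_of_nonneg (Finset.range_subset_range.2 hkM) fun n _ _ => hf0 n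
  rw [sum_range_mul] at h1
  have h2 : ∑ _r ∈ Finset.range k, (a - η / 2) * (M : ℝ) ≤
      ∑ r ∈ Finset.range k, ∑ j ∈ Finset.range M, -Real.log (Q (word x k (r + k * j))) := by
    refine Finset.sum_le_sum fun r hr => ?_
    have h3 := hF r (Finset.mem_range.1 hr) Y ((Finset.single_le_sum (f := F)
      (fun _ _ => Nat.zero_le _) hr).trans hYa) hslow
    rwa [← hM] at h3
  rw [Finset.sum_const, Finset.card_range, nsmul_eq_mul] at h2
  have h3 : (a - η) * (Y : ℝ) ≤ k * ((a - η / 2) * M) := by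
    have e1 : (Y : ℝ) ≤ k * (M + 1) := by exact_mod_cast hYk.le
    have e2 : (a - η) * (Y : ℝ) ≤ (a - η) * (k * (M + 1)) :=
      mul_le_mul_of_nonneg_left e1 (by linarith)
    have e3 : (2 * a / η : ℝ) < M := hM₁.trans_le (by exact_mod_cast hM1)
    rw [div_lt_iff₀ hη] at e3
    have e4 : (k : ℝ) * (a - η) ≤ k * (η / 2 * M) :=
      mul_le_mul_of_nonneg_left (by linarith) hkr.le
    have e5 : (a - η) * (k * ((M : ℝ) + 1)) = k * ((a - η / 2) * M) - k * (η / 2 * M) +
        k * (a - η) := by ring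
    linarith
  linarith

end Pool.Agent.Work.MP_df9865_an
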