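import Pool.Agent.Work.MP_df9865_an.Density

/-!
# The entropy of the blocks and the growth of the walk
-/

open Set Filter Topology

namespace Pool.Agent.Work.MP_df9865_an

lemma freq_mem (x : ℝ) (k M : ℕ) (w : Fin k → ℤ) : wordFreq x k M w ∈ Set.Icc (0 : ℝ) 1 := by
  unfold wordFreq
  refine ⟨by positivity, ?_⟩
  refine div_le_one_of_le₀ ?_ (by positivity)
  have := Finset.card_filter_le (Finset.range M) (fun n => word x k n = w)
  rw [Finset.card_range] at this
  exact_mod_cast this

lemma sum_freq (x : ℝ) (k : ℕ) {M : ℕ} (hM : 0 < M) (g : (Fin k → ℤ) → ℝ) :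
    ∑ w ∈ signs k, wordFreq x k M w * g w = (∑ n ∈ Finset.range M, g (word x k n)) / M := by
  classical
  have hMr : (0 : ℝ) < M := by exact_mod_cast hM
  rw [eq_div_iff hMr.ne', Finset.sum_mul,
    ← Finset.sum_fiberwise_of_maps_to (s := Finset.range M) (t := signs k)
      (g := fun n => word x k n) (fun n _ => word_mem x k n)]
  refine Finset.sum_congr rfl fun w _ => ?_
  have h1 : ∑ n ∈ (Finset.range M).filter (fun n => word x k n = w), g (word x k n)
      = ∑ n ∈ (Finset.range M).filter (fun n => word x k n = w), g w := by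
    refine Finset.sum_congr rfl fun n hn => ?_
    rw [(Finset.mem_filter.1 hn).2]
  rw [h1, Finset.sum_const, nsmul_eq_mul]
  unfold wordFreq
  field_simp

lemma sum_freq_one (x : ℝ) (k : ℕ) {M : ℕ} (hM : 0 < M) : ∑ w ∈ signs k, wordFreq x k M w = 1 := by
  have h1 := sum_freq x k hM (fun _ => 1)
  simp only [mul_one, Finset.sum_const, Finset.card_range, nsmul_eq_mul] at h1
  rw [h1]
  have hMr : (0 : ℝ) < M := by exact_mod_cast hM
  exact div_self hMr.ne'

lemma le_top (x : ℝ) {n M : ℕ} (hn : n < M) : (walk x n).natAbs ≤ walkMax x M :=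
  Finset.le_sup (f := fun n => (walk x n).natAbs) (Finset.mem_range.2 hn)

lemma top_le (x : ℝ) (M : ℕ) : walkMax x M ≤ M := by
  refine Finset.sup_le fun n hn => ?_
  have h1 := abs_walk_le x n
  have h2 := Finset.mem_range.1 hn
  rw [← Int.natCast_natAbs] at h1
  have h3 : (walk x n).natAbs ≤ n := by exact_mod_cast h1
  omega

lemma one_le_top (x : ℝ) {M : ℕ} (hM : 2 ≤ M) : 1 ≤ walkMax x M := by
  refine le_trans ?_ (le_top x (show 1 < M by omega))
  have h1 : walk x 1 = step x 0 := by simp [walk]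
  rw [h1]
  have := step_mem x 0
  simp only [Finset.mem_insert, Finset.mem_singleton] at this
  rcases this with e | e <;> simp [e]

variable {x : ℝ} {q N : ℕ}

/-- Entropy times growth exponent is at least one half. -/
theorem Esc.entropy_growth (h : Esc x q N) {k : ℕ} (hk : 0 < k) {ε : ℝ} (hε : 0 < ε) :
    ∀ᶠ M : ℕ in atTop,
      (k * Real.log 2 / 2 - ε) * Real.log M ≤ blockH x k M * Real.log (walkMax x M) := by
  classical
  by_contra hcon
  have hfreq : ∃ᶠ M : ℕ in atTop,
      blockH x k M * Real.log (walkMax x M) < (k * Real.log 2 / 2 - ε) * Real.log M := by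
    rw [not_eventually] at hcon
    exact hcon.mono fun M hM => not_le.1 hM
  obtain ⟨A, hA⟩ : ∃ A : ℝ, A = k * Real.log 2 / 2 := ⟨_, rfl⟩
  rw [← hA] at hfreq
  have hkr : (0 : ℝ) < k := by exact_mod_cast hk
  have hlog2 : 0 < Real.log 2 := Real.log_pos (by norm_num)
  set S : Set (((Fin k → ℤ) → ℝ) × ℝ) :=
    ((Set.univ.pi fun _ => Set.Icc (0 : ℝ) 1) ×ˢ Set.Icc (0 : ℝ) 1) ∩
      ({z | ∑ w ∈ signs k, z.1 w = 1} ∩
        {z | (∑ w ∈ signs k, Real.negMulLog (z.1 w)) * z.2 ≤ A - ε}) with hS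
  have hScomp : IsCompact S := by
    refine IsCompact.inter_right
      ((isCompact_univ_pi fun _ => isCompact_Icc).prod isCompact_Icc) ?_
    have c1 : ∀ w : Fin k → ℤ, Continuous fun z : ((Fin k → ℤ) → ℝ) × ℝ => z.1 w := fun w =>
      (continuous_apply w).comp continuous_fst
    refine IsClosed.inter ?_ ?_
    · exact isClosed_eq (continuous_finsetSum _ fun w _ => c1 w) continuous_const
    · refine isClosed_le (Continuous.mul ?_ continuous_snd) continuous_const
      exact continuous_finsetSum _ fun w _ => Real.continuous_negMulLog.comp (c1 w)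
  set z : ℕ → ((Fin k → ℤ) → ℝ) × ℝ :=
    fun M => (wordFreq x k M, Real.log (walkMax x M) / Real.log M) with hz
  have hzS : ∃ᶠ M in atTop, z M ∈ S := by
    have hbig : ∀ᶠ M : ℕ in atTop, 2 ≤ M := eventually_ge_atTop 2
    refine (hfreq.and_eventually hbig).mono ?_
    rintro M ⟨hM, hM2⟩
    have hMr : (2 : ℝ) ≤ M := by exact_mod_cast hM2
    have hlogM : 0 < Real.log M := Real.log_pos (by linarith)
    have ht1 : (1 : ℝ) ≤ walkMax x M := by exact_mod_cast one_le_top x hM2
    have ht2 : (walkMax x M : ℝ) ≤ M := by exact_mod_cast top_le x M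
    refine ⟨⟨?_, ?_⟩, ?_, ?_⟩
    · intro w _
      exact freq_mem x k M w
    · refine ⟨div_nonneg (Real.log_nonneg ht1) hlogM.le, ?_⟩
      rw [div_le_one hlogM]
      exact Real.log_le_log (by linarith) ht2
    · exact sum_freq_one x k (by omega)
    · change blockH x k M * (Real.log (walkMax x M) / Real.log M) ≤ A - ε
      rw [← mul_div_assoc, div_le_iff₀ hlogM]
      exact hM.le
  obtain ⟨⟨v, s⟩, ⟨⟨hv01, hs01⟩, hv1, hvs⟩, φ, hφ, hlim⟩ := hScomp.tendsto_subseq' hzS
  simp only [Set.mem_ofPred_eq] at hv1 hvs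
  have hv0 : ∀ w, 0 ≤ v w := fun w => (hv01 w (Set.mem_univ _)).1
  have hvle : ∀ w, v w ≤ 1 := fun w => (hv01 w (Set.mem_univ _)).2
  have hs0 : 0 ≤ s := hs01.1
  obtain ⟨H, hH⟩ : ∃ H : ℝ, H = ∑ w ∈ signs k, Real.negMulLog (v w) := ⟨_, rfl⟩
  rw [← hH] at hvs
  have hH0 : 0 ≤ H := by
    rw [hH]
    exact Finset.sum_nonneg fun w _ => Real.negMulLog_nonneg (hv0 w) (hvle w)
  obtain ⟨t, ht⟩ : ∃ t : ℝ, t = ε / (4 * (H + 1)) := ⟨_, rfl⟩
  have ht0 : 0 < t := by rw [ht]; positivity
  have hHt : H * t ≤ ε / 4 := by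
    rw [ht, mul_div_assoc', div_le_div_iff₀ (by positivity) (by norm_num)]
    nlinarith
  obtain ⟨σ, hσ⟩ : ∃ σ : ℝ, σ = min 1 (s + t) := ⟨_, rfl⟩
  have hσ0 : 0 < σ := by rw [hσ]; exact lt_min one_pos (by linarith)
  have hσ1 : σ ≤ 1 := by rw [hσ]; exact min_le_left _ _
  have hσs : σ ≤ s + t := by rw [hσ]; exact min_le_right _ _
  have hHσ : H * σ ≤ A - 3 * ε / 4 := by
    have := mul_le_mul_of_nonneg_left hσs hH0
    linarith
  -- the limit of the exponents
  have hlim2 : Tendsto (fun i => Real.log (walkMax x (φ i)) / Real.log (φ i : ℕ)) atTop (𝓝 s) :=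
    (continuous_snd.tendsto _).comp hlim
  have hlim1 : ∀ w, Tendsto (fun i => wordFreq x k (φ i) w) atTop (𝓝 (v w)) := fun w =>
    (((continuous_apply w).comp continuous_fst).tendsto _).comp hlim
  have hφt : Tendsto φ atTop atTop := hφ.tendsto_atTop
  have hσev : ∀ᶠ i in atTop, Real.log (walkMax x (φ i)) / Real.log (φ i : ℕ) ≤ σ := by
    rcases le_or_gt 1 (s + t) with hge | hlt
    · have e : σ = 1 := by rw [hσ]; exact min_eq_left hge
      filter_upwards [hφt.eventually_ge_atTop 2] with i hi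
      have hMr : (2 : ℝ) ≤ (φ i : ℕ) := by exact_mod_cast hi
      have hlogM : 0 < Real.log (φ i : ℕ) := Real.log_pos (by linarith)
      have ht1 : (1 : ℝ) ≤ walkMax x (φ i) := by exact_mod_cast one_le_top x hi
      have ht2 : (walkMax x (φ i) : ℝ) ≤ (φ i : ℕ) := by exact_mod_cast top_le x (φ i)
      rw [e, div_le_one hlogM]
      exact Real.log_le_log (by linarith) ht2
    · have e : σ = s + t := by rw [hσ]; exact min_eq_right hlt.le
      have hsσ : s < σ := by linarith
      exact (hlim2.eventually_lt_const hsσ).mono fun i hi => hi.le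
  -- the code
  have h2k : (0 : ℝ) < 2 ^ k := by positivity
  obtain ⟨u, hu⟩ : ∃ u : ℝ, u = ε / (4 * 2 ^ k) := ⟨_, rfl⟩
  have hu0 : 0 < u := by rw [hu]; positivity
  have h2ku : 2 ^ k * u = ε / 4 := by
    rw [hu]
    field_simp
  have hSc : ((signs k).card : ℝ) = 2 ^ k := by rw [card_signs]; push_cast; rfl
  obtain ⟨D, hD⟩ : ∃ D : ℝ, D = 1 + 2 ^ k * u := ⟨_, rfl⟩
  have hD0 : 0 < D := by rw [hD]; positivity
  have hQsum : ∑ w ∈ signs k, (v w + u) / D = 1 := by
    rw [← Finset.sum_div, Finset.sum_add_distrib, hv1, Finset.sum_const, nsmul_eq_mul, hSc, ← hD]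
    exact div_self hD0.ne'
  obtain ⟨Y₀, hY₀⟩ := h.code hσ0 hσ1 hk (fun w => (v w + u) / D)
    (fun w _ => div_pos (by have := hv0 w; linarith) hD0) hQsum.le (η := ε / 4) (by positivity)
  have hcode : ∀ᶠ i in atTop, k * Real.log 2 / (2 * σ) - ε / 4 ≤
      ∑ w ∈ signs k, wordFreq x k (φ i) w * (-Real.log ((v w + u) / D)) := by
    filter_upwards [hσev, hφt.eventually_ge_atTop (max Y₀ 2)] with i hi hi2
    have hiY : Y₀ ≤ φ i := (le_max_left _ _).trans hi2
    have hi2' : 2 ≤ φ i := (le_max_right _ _).trans hi2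
    have hMr : (2 : ℝ) ≤ (φ i : ℕ) := by exact_mod_cast hi2'
    have hM0 : (0 : ℝ) < (φ i : ℕ) := by linarith
    have hlogM : 0 < Real.log (φ i : ℕ) := Real.log_pos (by linarith)
    have ht1 : (1 : ℝ) ≤ walkMax x (φ i) := by exact_mod_cast one_le_top x hi2'
    have htop : (walkMax x (φ i) : ℝ) ≤ ((φ i : ℕ) : ℝ) ^ σ := by
      rw [← Real.log_le_log_iff (by linarith) (by positivity), Real.log_rpow hM0]
      rwa [div_le_iff₀ hlogM] at hi
    have h1 := hY₀ (φ i) hiY (fun n hn => by
      have e1 := le_top x hn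
      have e2 : (walk x n : ℝ) ≤ walkMax x (φ i) := by
        have e3 : walk x n ≤ (walkMax x (φ i) : ℤ) := by omega
        exact_mod_cast e3
      exact e2.trans htop)
    rw [sum_freq x k (by omega) (fun w => -Real.log ((v w + u) / D)), le_div_iff₀ hM0]
    exact h1
  have hcodelim : Tendsto (fun i => ∑ w ∈ signs k,
      wordFreq x k (φ i) w * (-Real.log ((v w + u) / D))) atTop
      (𝓝 (∑ w ∈ signs k, v w * (-Real.log ((v w + u) / D)))) :=
    tendsto_finsetSum _ fun w _ => (hlim1 w).mul_const _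
  have h3 : k * Real.log 2 / (2 * σ) - ε / 4 ≤
      ∑ w ∈ signs k, v w * (-Real.log ((v w + u) / D)) := ge_of_tendsto hcodelim hcode
  have h4 : ∑ w ∈ signs k, v w * (-Real.log ((v w + u) / D)) ≤ H + Real.log D := by
    have e1 : ∀ w ∈ signs k, v w * (-Real.log ((v w + u) / D)) ≤
        Real.negMulLog (v w) + v w * Real.log D := by
      intro w _
      have hvu : 0 < v w + u := by have := hv0 w; linarith
      rw [Real.log_div hvu.ne' hD0.ne', Real.negMulLog]
      rcases (hv0 w).lt_or_eq with hpos | hzero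
      · have e2 : Real.log (v w) ≤ Real.log (v w + u) := Real.log_le_log hpos (by linarith)
        have e3 := mul_le_mul_of_nonneg_left e2 hpos.le
        linarith
      · rw [← hzero]
        simp
    have e2 := Finset.sum_le_sum e1
    rw [Finset.sum_add_distrib, ← Finset.sum_mul, hv1, one_mul, ← hH] at e2
    exact e2
  have h5 : Real.log D ≤ ε / 4 := by
    have := Real.log_le_sub_one_of_pos hD0
    rw [hD] at this ⊢
    linarith
  have h6 : k * Real.log 2 / (2 * σ) ≤ H + ε / 2 := by linarith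
  have h7 : A ≤ (H + ε / 2) * σ := by
    have e1 : A = k * Real.log 2 / (2 * σ) * σ := by
      rw [hA]
      field_simp
    rw [e1]
    exact mul_le_mul_of_nonneg_right h6 hσ0.le
  have h8 : ε / 2 * σ ≤ ε / 2 * 1 := mul_le_mul_of_nonneg_left hσ1 (by positivity)
  linarith

section

variable {x' : ℝ} {τ : ℤ}

lemma Rel.walkMax (h : Rel x x' τ) (M : ℕ) :
    MP_df9865_an.walkMax x' M = MP_df9865_an.walkMax x M := by
  unfold MP_df9865_an.walkMax
  congr 1
  funext n
  have h1 := h.abs_walk n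
  rw [Int.abs_eq_natAbs, Int.abs_eq_natAbs] at h1
  exact_mod_cast h1

lemma Rel.mul_mem (h : Rel x x' τ) {k : ℕ} {w : Fin k → ℤ} (hw : w ∈ signs k) :
    (fun i => τ * w i) ∈ signs k := by
  have hτ : τ = 1 ∨ τ = -1 := by
    have := h.abs
    rcases abs_choice τ with e | e <;> rw [e] at this
    · exact Or.inl this
    · right; omega
  unfold signs at hw ⊢
  rw [Fintype.mem_piFinset] at hw ⊢
  intro i
  have := hw i
  simp only [Finset.mem_insert, Finset.mem_singleton] at this ⊢
  rcases hτ with e | e <;> rcases this with e' | e' <;> simp [e, e']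

lemma Rel.wordFreq (h : Rel x x' τ) (k M : ℕ) (w : Fin k → ℤ) :
    MP_df9865_an.wordFreq x' k M (fun i => τ * w i) = MP_df9865_an.wordFreq x k M w := by
  unfold MP_df9865_an.wordFreq
  congr 3
  refine Finset.filter_congr fun n _ => ?_
  rw [h.word]
  constructor
  · intro e
    exact h.mul_inj k e
  · intro e
    rw [e]

lemma Rel.blockH (h : Rel x x' τ) (k M : ℕ) :
    MP_df9865_an.blockH x' k M = MP_df9865_an.blockH x k M := by
  unfold MP_df9865_an.blockH
  have hτ : ∀ w : Fin k → ℤ, (fun i => τ * (τ * w i)) = w := by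
    intro w
    funext i
    rw [← mul_assoc, h.sq, one_mul]
  refine Finset.sum_nbij' (fun w i => τ * w i) (fun w i => τ * w i)
    (fun w hw => h.mul_mem hw) (fun w hw => h.mul_mem hw) (fun w _ => hτ w) (fun w _ => hτ w)
    fun w _ => ?_
  rw [← h.wordFreq k M (fun i => τ * w i), hτ]

/-- The entropy theorem for `x`. -/
theorem part_entropy_growth (hE : Esc x' q N) (h : Rel x x' τ) {k : ℕ} (hk : 0 < k) {ε : ℝ}
    (hε : 0 < ε) : ∀ᶠ M : ℕ in atTop, (k * Real.log 2 / 2 - ε) * Real.log M ≤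
      MP_df9865_an.blockH x k M * Real.log (MP_df9865_an.walkMax x M) := by
  filter_upwards [hE.entropy_growth hk hε] with M hM
  rwa [h.blockH, h.walkMax] at hM

end

end Pool.Agent.Work.MP_df9865_an
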