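import Pool.Agent.Work.MP_df9865_an.Loops

open Set Filter Topology

namespace Pool.Agent.Work.MP_df9865_an

/-! ### Branching -/

lemma irrational_tl {x : ℝ} (h : Irrational x) (n : ℕ) : Irrational (tl x n) := by
  rintro ⟨r, hr⟩
  apply h
  refine ⟨(⌊2 ^ n * x⌋ + r) / 2 ^ n, ?_⟩
  have := splice_self x n
  unfold splice at this
  rw [← hr] at this
  push_cast
  exact this

lemma irrational_ne_half {v : ℝ} (h : Irrational v) : v ≠ 1 / 2 := by
  intro e
  apply h
  exact ⟨1 / 2, by rw [e]; norm_num⟩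

lemma irrational_pos {v : ℝ} (h : Irrational v) (h0 : 0 ≤ v) : 0 < v :=
  lt_of_le_of_ne h0 (by
    intro e
    exact h ⟨0, by rw [← e]; norm_num⟩)

lemma irrational_lt_one {v : ℝ} (h : Irrational v) (h1 : v ≤ 1) : v < 1 :=
  lt_of_le_of_ne h1 (by
    intro e
    exact h ⟨1, by rw [e]; norm_num⟩)

/-- The upper bound at a level `D ≥ 0` on the left half. -/
lemma tk_left_le (D : ℕ) {z : ℝ} (h0 : 0 ≤ z) (h1 : z ≤ 1 / 2) :
    2 * tk D z - (D + 1) ≤ 2 / 3 * (1 / 2 : ℝ) ^ (D + 1) := by
  have e : z = (2 * z) / 2 := by ring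
  rw [e, tk_left _ (by linarith) (by linarith)]
  have h := tk_le (D + 1) (v := 2 * z) (by linarith) (by linarith)
  push_cast at h
  linarith

/-- The lower bound at a level `D ≥ 1` on the right half. -/
lemma tk_right_ge (D : ℕ) (hD : 1 ≤ D) {z : ℝ} (h0 : 1 / 2 ≤ z) (h1 : z ≤ 1) :
    0 ≤ 2 * tk D z - (D + 1) := by
  obtain ⟨d, rfl⟩ : ∃ d, D = d + 1 := ⟨D - 1, by omega⟩
  have e : z = (1 + (2 * z - 1)) / 2 := by ring
  rw [e, tk_right _ (by linarith) (by linarith)]
  have h := tk_nonneg d (v := 2 * z - 1) (by linarith)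
  push_cast at h ⊢
  rw [add_sub_cancel_right]
  linarith

lemma tk_right_gt (D : ℕ) (hD : 1 ≤ D) {z : ℝ} (h0 : 1 / 2 < z) (h1 : z < 1) :
    0 < 2 * tk D z - (D + 1) := by
  obtain ⟨d, rfl⟩ : ∃ d, D = d + 1 := ⟨D - 1, by omega⟩
  have e : z = (1 + (2 * z - 1)) / 2 := by ring
  rw [e, tk_right _ (by linarith) (by linarith)]
  have h := tk_pos d (v := 2 * z - 1) (by linarith) (by linarith)
  push_cast at h ⊢
  rw [add_sub_cancel_right]
  linarith

lemma q_bound {q D : ℕ} (hq0 : 0 < q) {Y : ℤ} {y : ℝ} (hy : (q : ℝ) * y = Y)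
    (h0 : 0 < 2 * y - (D + 1)) (h1 : 2 * y - (D + 1) ≤ 2 / 3 * (1 / 2 : ℝ) ^ (D + 1)) :
    3 * 2 ^ D ≤ q := by
  have hq : (0 : ℝ) < q := by exact_mod_cast hq0
  have h2 : (0 : ℝ) < ((2 * Y - q * (D + 1) : ℤ) : ℝ) := by
    push_cast
    rw [← hy]
    have := mul_pos hq h0
    linarith
  have h3 : (1 : ℤ) ≤ 2 * Y - q * (D + 1) := by
    have : (0 : ℤ) < 2 * Y - q * (D + 1) := by exact_mod_cast h2
    omega
  have h4 : (1 : ℝ) ≤ ((2 * Y - q * (D + 1) : ℤ) : ℝ) := by exact_mod_cast h3
  have h5 : ((2 * Y - q * (D + 1) : ℤ) : ℝ) = q * (2 * y - (D + 1)) := by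
    push_cast
    rw [← hy]
    ring
  rw [h5] at h4
  have h6 := mul_le_mul_of_nonneg_left h1 hq.le
  have h7 : (1 : ℝ) ≤ q * (2 / 3 * (1 / 2 : ℝ) ^ (D + 1)) := h4.trans h6
  have h8 : (0 : ℝ) < 2 ^ D := by positivity
  have h9 : (3 * 2 ^ D : ℝ) ≤ q := by
    rw [pow_succ, one_div_pow] at h7
    have := mul_le_mul_of_nonneg_left h7 (show (0 : ℝ) ≤ 3 * 2 ^ D by positivity)
    field_simp at this
    linarith
  exact_mod_cast h9

lemma le_of_q_bound {q D : ℕ} (h : 3 * 2 ^ D ≤ q) : D ≤ q := by
  have : D < 2 ^ D := Nat.lt_two_pow_self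
  omega

lemma branch_nat {q : ℕ} (hq0 : 0 < q) {D : ℕ} (hD : 1 ≤ D) {Y : ℤ} {y z z' : ℝ}
    (hy : (q : ℝ) * y = Y) (hz0 : 0 ≤ z) (hz1 : z < 1 / 2) (hz0' : 1 / 2 < z') (hz1' : z' < 1)
    (h : tk D z = y) (h' : tk D z' = y) : 3 * 2 ^ D ≤ q := by
  apply q_bound hq0 hy
  · rw [← h']
    exact tk_right_gt D hD hz0' hz1'
  · rw [← h]
    exact tk_left_le D hz0 hz1.le

/-- Two irrational solutions in different halves are only possible at low levels. -/
lemma branch {q : ℕ} (hq0 : 0 < q) {D : ℤ} {Y : ℤ} {y z z' : ℝ}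
    (hy : (q : ℝ) * y = Y) (hz0 : 0 < z) (hz1 : z < 1 / 2) (hz0' : 1 / 2 < z') (hz1' : z' < 1)
    (h : tk D z = y) (h' : tk D z' = y) : |D| ≤ q := by
  rcases lt_trichotomy D 0 with hD | hD | hD
  · obtain ⟨d, hd⟩ := Int.eq_ofNat_of_zero_le (show 0 ≤ -D by omega)
    have h1 := tk_one_sub D z
    have h2 := tk_one_sub D z'
    rw [hd] at h1 h2
    have h3 := branch_nat hq0 (D := d) (by omega) (Y := Y - q * D) (y := y - D)
      (z := 1 - z') (z' := 1 - z) (by push_cast; rw [← hy]; ring) (by linarith) (by linarith)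
      (by linarith) (by linarith) (by rw [h2, h']) (by rw [h1, h])
    have h4 := le_of_q_bound h3
    rw [abs_of_neg hD, hd]
    exact_mod_cast h4
  · subst hD
    simp
  · obtain ⟨d, rfl⟩ := Int.eq_ofNat_of_zero_le hD.le
    have h3 := branch_nat hq0 (D := d) (by omega) hy hz0.le hz1 hz0' hz1' h h'
    have h4 := le_of_q_bound h3
    rw [abs_of_nonneg hD.le]
    exact_mod_cast h4

/-! ### Infinite level sets -/

lemma splice_of_floor_eq {x x' : ℝ} {n : ℕ} (h : ⌊2 ^ n * x'⌋ = ⌊2 ^ n * x⌋) :
    splice x n (tl x' n) = x' := by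
  conv_rhs => rw [← splice_self x' n]
  unfold splice
  rw [h]

lemma eq_of_floor_eq {x x' : ℝ} {N : ℕ} (h : ∀ n, N ≤ n → ⌊2 ^ n * x'⌋ = ⌊2 ^ n * x⌋) : x' = x := by
  have key : ∀ n : ℕ, |x' - x| ≤ (1 / 2 : ℝ) ^ n := by
    intro n
    have h1 := splice_of_floor_eq (h (N + n) (by omega))
    have h2 := splice_sub x (N + n) (tl x' (N + n))
    rw [h1] at h2
    rw [h2, abs_div, abs_of_pos (show (0 : ℝ) < 2 ^ (N + n) by positivity), one_div_pow]
    have h3 : |tl x' (N + n) - tl x (N + n)| ≤ 1 := by
      rw [abs_le]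
      have := tl_nonneg x (N + n)
      have := tl_nonneg x' (N + n)
      have := tl_lt_one x (N + n)
      have := tl_lt_one x' (N + n)
      constructor <;> linarith
    exact div_le_div₀ (by norm_num) h3 (by positivity) (pow_le_pow_right₀ (by norm_num) (by omega))
  have hlim := tendsto_pow_atTop_nhds_zero_of_lt_one (r := (1 / 2 : ℝ)) (by norm_num) (by norm_num)
  have h7 : |x' - x| ≤ 0 := ge_of_tendsto' hlim key
  have := abs_nonpos_iff.mp h7
  linarith

lemma levelSet_closed (y : ℝ) : IsClosed (levelSet y) :=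
  isClosed_Icc.inter (isClosed_eq takagi_continuous continuous_const)

/-- A rational height whose level set is infinite has a rational preimage. -/
theorem rational_of_infinite {q : ℕ} (hq : 0 < q) {p : ℤ} {y : ℝ} (hp : q * y = p)
    (hinf : (levelSet y).Infinite) : ∃ r : ℚ, (r : ℝ) ∈ levelSet y := by
  by_contra hcon
  push Not at hcon
  have hirr : ∀ x ∈ levelSet y, Irrational x := by
    rintro x hx ⟨r, rfl⟩
    exact hcon r hx
  obtain ⟨x, _, hx⟩ := hinf.exists_accPt_of_subset_isCompact (isCompact_Icc (a := (0 : ℝ)) (b := 1))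
    (fun z hz => hz.1)
  have hxL : x ∈ levelSet y := by
    have h1 := hx.clusterPt
    rw [← mem_closure_iff_clusterPt] at h1
    rwa [(levelSet_closed y).closure_eq] at h1
  have hxi := hirr x hxL
  have hx0 : 0 ≤ x := hxL.1.1
  have hx1 : x < 1 := irrational_lt_one hxi hxL.1.2
  have hTx : takagi x = y := hxL.2
  -- the walk is at a low level infinitely often
  have hlow : {n | |walk x n| ≤ (q : ℤ)}.Infinite := by
    rw [Set.infinite_iff_exists_gt]
    intro N
    -- a nearby point of the level set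
    have hopen : IsOpen {z : ℝ | (⌊2 ^ (N + 1) * x⌋ : ℝ) < 2 ^ (N + 1) * z ∧
        2 ^ (N + 1) * z < (⌊2 ^ (N + 1) * x⌋ : ℝ) + 1} :=
      (isOpen_lt continuous_const (continuous_const.mul continuous_id)).inter
        (isOpen_lt (continuous_const.mul continuous_id) continuous_const)
    have hmem : x ∈ {z : ℝ | (⌊2 ^ (N + 1) * x⌋ : ℝ) < 2 ^ (N + 1) * z ∧
        2 ^ (N + 1) * z < (⌊2 ^ (N + 1) * x⌋ : ℝ) + 1} := by
      have h1 := floor_add_tl x (N + 1)
      have h2 := irrational_pos (irrational_tl hxi (N + 1)) (tl_nonneg _ _)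
      have h3 := tl_lt_one x (N + 1)
      constructor
      · linarith
      · linarith
    obtain ⟨x', ⟨hx'1, hx'2⟩, hne⟩ := (accPt_iff_nhds.mp hx) _ (hopen.mem_nhds hmem)
    have hfl : ⌊2 ^ (N + 1) * x'⌋ = ⌊2 ^ (N + 1) * x⌋ := by
      rw [Int.floor_eq_iff]
      exact ⟨hx'1.1.le, hx'1.2⟩
    have hex : ∃ n, N + 1 ≤ n ∧ ⌊2 ^ n * x'⌋ = ⌊2 ^ n * x⌋ ∧
        ⌊2 ^ (n + 1) * x'⌋ ≠ ⌊2 ^ (n + 1) * x⌋ := by
      by_contra hc
      push Not at hc
      apply hne
      apply eq_of_floor_eq (N := N + 1)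
      intro n hn
      induction n, hn using Nat.le_induction with
      | base => exact hfl
      | succ n hn ih => exact hc n hn ih
    obtain ⟨n, hn, hfn, hfn1⟩ := hex
    refine ⟨n, ?_, by omega⟩
    have hx'i := hirr x' hx'2
    have hTx' : takagi x' = y := hx'2.2
    have h1 := takagi_splice x n (tl_nonneg x' n) (tl_lt_one x' n).le
    rw [splice_of_floor_eq hfn, hTx', hTx, sub_self] at h1
    have h2 : tk (walk x n) (tl x' n) = tk (walk x n) (tl x n) := by
      have h3 : (2 : ℝ) ^ n ≠ 0 := by positivity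
      have h4 := (div_eq_zero_iff.mp h1.symm).resolve_right h3
      linarith
    obtain ⟨Y, hY⟩ := ht_int hx0 hx1 (q := q) (p := p) (by rw [hTx, hp]) n
    have hti := irrational_tl hxi n
    have hti' := irrational_tl hx'i n
    rcases lt_or_ge (tl x n) (1 / 2) with ha | ha
    · rcases lt_or_ge (tl x' n) (1 / 2) with hb | hb
      · exfalso
        apply hfn1
        rw [floor_succ_of_lt ha, floor_succ_of_lt hb, hfn]
      · exact branch hq (y := ht x n) hY (irrational_pos hti (tl_nonneg _ _)) ha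
          (lt_of_le_of_ne hb (irrational_ne_half hti').symm) (tl_lt_one _ _) rfl h2
    · rcases lt_or_ge (tl x' n) (1 / 2) with hb | hb
      · exact branch hq (y := ht x n) hY (irrational_pos hti' (tl_nonneg _ _)) hb
          (lt_of_le_of_ne ha (irrational_ne_half hti).symm) (tl_lt_one _ _) h2 rfl
      · exfalso
        apply hfn1
        rw [floor_succ_of_ge ha, floor_succ_of_ge hb, hfn]
  obtain ⟨r, hr⟩ := rational_of_bounded hx0 hx1 hq (p := p) (by rw [hTx, hp]) hlow
  rw [hTx] at hr
  exact hcon r hr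

/-! ### Divergent walks and rigidity -/

lemma step_eq (x : ℝ) (n : ℕ) : step x n = 1 ∨ step x n = -1 := by
  rcases lt_or_ge (tl x n) (1 / 2) with h | h
  · exact Or.inl (step_of_lt h)
  · exact Or.inr (step_of_ge h)

lemma takagi_div_pow (k : ℕ) {v : ℝ} (h0 : 0 ≤ v) (h1 : v ≤ 1) :
    takagi (v / 2 ^ k) = tk k v / 2 ^ k := by
  induction k with
  | zero => simp [tk]
  | succ k ih =>
    have hp : (1 : ℝ) ≤ 2 ^ k := one_le_pow₀ (by norm_num)
    have h2 : v / 2 ^ k ≤ 1 := by
      rw [div_le_one (by positivity)]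
      linarith
    have e : v / 2 ^ (k + 1) = (v / 2 ^ k) / 2 := by
      rw [pow_succ]
      field_simp
    rw [e, takagi_left (by positivity) (by linarith)]
    have e2 : 2 * (v / 2 ^ k / 2) = v / 2 ^ k := by ring
    rw [e2, ih]
    unfold tk
    rw [pow_succ]
    push_cast
    field_simp
    ring

lemma takagi_ge (k : ℕ) (hk : 1 ≤ k) : ∀ {x : ℝ}, 1 / 2 ^ k ≤ x → x ≤ 1 / 2 →
    (k : ℝ) / 2 ^ k ≤ takagi x := by
  induction k, hk using Nat.le_induction with
  | base =>
    intro x h0 h1
    have hx : x = 1 / 2 := by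
      norm_num at h0
      linarith
    rw [hx, takagi_left (by norm_num) le_rfl]
    have := takagi_nonneg (2 * (1 / 2))
    norm_num at this ⊢
    linarith
  | succ k hk ih =>
    intro x h0 h1
    have hkr : (1 : ℝ) ≤ k := by exact_mod_cast hk
    rcases le_total x (1 / 4) with h | h
    · have h2 := ih (x := 2 * x) (by rw [pow_succ] at h0; field_simp at h0 ⊢; linarith) (by linarith)
      rw [takagi_left (by have : (0 : ℝ) < 1 / 2 ^ (k + 1) := by positivity
                          linarith) h1]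
      have e : ((k + 1 : ℕ) : ℝ) / 2 ^ (k + 1) = 1 / 2 ^ (k + 1) + (k / 2 ^ k) / 2 := by
        rw [pow_succ]
        push_cast
        field_simp
        ring
      rw [e]
      linarith
    · have h3 : 1 / 2 ≤ takagi x := by
        rw [takagi_left (by linarith) h1, takagi_right (x := 2 * x) (by linarith) (by linarith)]
        have := takagi_nonneg (2 * (2 * x) - 1)
        linarith
      have h4 : ((k + 1 : ℕ) : ℝ) / 2 ^ (k + 1) ≤ 1 / 2 := by
        have h5 : k + 1 ≤ 2 ^ k := Nat.lt_two_pow_self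
        have h6 : ((k + 1 : ℕ) : ℝ) ≤ 2 ^ k := by exact_mod_cast h5
        rw [div_le_iff₀ (by positivity), pow_succ]
        linarith
      linarith

/-- Rigidity: if from time `n` on the walk stays strictly above the high level `k`, then the tail
is the only solution at its state. -/
lemma rigid {x : ℝ} (hx0 : 0 ≤ x) (hx1 : x < 1) (hirr : Irrational x) {q : ℕ} (hq : 0 < q)
    {p : ℤ} (hp : q * takagi x = p) {n k : ℕ} (hk2 : 2 ≤ k) (hkq : q < 3 * 2 ^ k)
    (hn : walk x n = k) (hgt : ∀ m, n < m → (k : ℤ) < walk x m)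
    {v : ℝ} (hv0 : 0 ≤ v) (hv1 : v < 1) (hv : tk k v = ht x n) : v = tl x n := by
  -- no state `(g, g)` can occur after time `n`
  have hdesc : ∀ m, n < m → ht x m ≠ walk x m := by
    intro m hm heq
    have key : ∀ i : ℕ, (i : ℤ) ≤ walk x m - k →
        walk x (m + i) = walk x m - i ∧ ht x (m + i) = walk x m - i := by
      intro i
      induction i with
      | zero => intro _; simp [heq]
      | succ i ih =>
        intro hi
        push_cast at hi
        obtain ⟨h1, h2⟩ := ih (by omega)
        obtain ⟨g, hg⟩ := Int.eq_ofNat_of_zero_le (show 0 ≤ walk x (m + i) by omega)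
        have hg3 : 3 ≤ g := by omega
        have hti := irrational_tl hirr (m + i)
        have hge : 1 / 2 ≤ tl x (m + i) := by
          by_contra hlt
          push Not at hlt
          have h3 := tk_left_le g (tl_nonneg x (m + i)) hlt.le
          have h4 : tk g (tl x (m + i)) = g := by
            have : ht x (m + i) = tk g (tl x (m + i)) := by unfold ht; rw [hg]
            rw [← this, h2, ← Int.cast_natCast (R := ℝ) g, ← hg, h1]
            push_cast
            ring
          rw [h4] at h3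
          have h5 : (1 / 2 : ℝ) ^ (g + 1) ≤ 1 := pow_le_one₀ (by norm_num) (by norm_num)
          have h6 : (3 : ℝ) ≤ g := by exact_mod_cast hg3
          linarith
        have h7 := walk_succ x (m + i)
        rw [step_of_ge hge] at h7
        have h8 := ht_succ_of_ge hge
        rw [← add_assoc, h7, h8, h1, h2]
        push_cast
        constructor <;> ring
    have h1 := hgt m hm
    obtain ⟨i, hi⟩ := Int.eq_ofNat_of_zero_le (show 0 ≤ walk x m - k by omega)
    have h2 := (key i (by omega)).1
    have h3 := hgt (m + i) (by omega)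
    omega
  have hge : ∀ m, n ≤ m → (k : ℤ) ≤ walk x m := by
    intro m hm
    rcases Nat.lt_or_ge n m with h | h
    · exact (hgt m h).le
    · obtain rfl : m = n := by omega
      exact hn.ge
  -- agreement of the digits
  apply eq_of_floor_eq (N := 0)
  intro j hj
  clear hj
  have hz0 := tl_nonneg x n
  have hz1 := tl_lt_one x n
  induction j with
  | zero =>
    have e1 : ⌊v⌋ = 0 := Int.floor_eq_iff.mpr ⟨by simpa using hv0, by simpa using hv1⟩
    have e2 : ⌊tl x n⌋ = 0 := Int.floor_eq_iff.mpr ⟨by simpa using hz0, by simpa using hz1⟩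
    rw [pow_zero, one_mul, one_mul, e1, e2]
  | succ j ih =>
    -- the common state
    have h1 := tk_splice k (tl x n) j (tl_nonneg v j) (tl_lt_one v j).le
    rw [splice_of_floor_eq ih, hv] at h1
    have h2 : (k : ℤ) + walk (tl x n) j = walk x (n + j) := by rw [walk_tl, hn]
    rw [h2, tl_tl] at h1
    have h3 : tk k (tl x n) = ht x n := by unfold ht; rw [hn]
    rw [h3, sub_self] at h1
    have h4 : tk (walk x (n + j)) (tl v j) = ht x (n + j) := by
      have h5 : (2 : ℝ) ^ j ≠ 0 := by positivity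
      have h6 := (div_eq_zero_iff.mp h1.symm).resolve_right h5
      unfold ht
      linarith
    have hE := hge (n + j) (by omega)
    obtain ⟨e, he⟩ := Int.eq_ofNat_of_zero_le (show 0 ≤ walk x (n + j) by omega)
    have hek : k ≤ e := by omega
    obtain ⟨Y, hY⟩ := ht_int hx0 hx1 hp (n + j)
    have hti := irrational_tl hirr (n + j)
    have h7 : ht x (n + j) = tk e (tl x (n + j)) := by unfold ht; rw [he]
    have h8 : tk e (tl v j) = ht x (n + j) := by rw [← h4, he]
    have hqe : ¬ 3 * 2 ^ e ≤ q := by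
      have : 2 ^ k ≤ 2 ^ e := Nat.pow_le_pow_right (by norm_num) hek
      omega
    rcases lt_or_ge (tl x (n + j)) (1 / 2) with ha | ha
    · rcases lt_or_ge (tl v j) (1 / 2) with hb | hb
      · rw [floor_succ_of_lt hb, floor_succ_of_lt (by rw [tl_tl]; exact ha), ih]
      · exfalso
        have h9 := tk_left_le e (tl_nonneg x (n + j)) ha.le
        rw [← h7] at h9
        have h10 := tk_right_ge e (by omega) hb (tl_lt_one v j).le
        rw [h8] at h10
        rcases h10.lt_or_eq with h11 | h11
        · exact hqe (q_bound hq hY h11 h9)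
        · apply hdesc (n + j + 1) (by omega)
          rw [ht_succ_of_lt ha, walk_succ, step_of_lt ha, he]
          push_cast
          linarith
    · rcases lt_or_ge (tl v j) (1 / 2) with hb | hb
      · exfalso
        have h9 := tk_left_le e (tl_nonneg v j) hb.le
        rw [h8] at h9
        have h10 := tk_right_gt e (by omega) (lt_of_le_of_ne ha (irrational_ne_half hti).symm)
          (tl_lt_one x (n + j))
        rw [← h7] at h10
        exact hqe (q_bound hq hY h10 h9)
      · rw [floor_succ_of_ge hb, floor_succ_of_ge (by rw [tl_tl]; exact ha), ih]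

lemma walk_one_sub {x : ℝ} (hirr : Irrational x) (n : ℕ) : walk (1 - x) n = - walk x n := by
  induction n with
  | zero => simp [walk_zero]
  | succ n ih =>
    rw [walk_succ, walk_succ, ih]
    have hti := irrational_tl hirr n
    have hne : tl x n ≠ 0 := (irrational_pos hti (tl_nonneg _ _)).ne'
    have e : tl (1 - x) n = 1 - tl x n := by
      unfold tl at hne ⊢
      have e1 : (2 : ℝ) ^ n * (1 - x) = -(2 ^ n * x) + ((2 ^ n : ℤ) : ℝ) := by push_cast; ring
      rw [e1, Int.fract_add_intCast, Int.fract_neg hne]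
    rcases lt_or_ge (tl x n) (1 / 2) with h | h
    · rw [step_of_lt h, step_of_ge (by rw [e]; linarith)]
      ring
    · have h' := lt_of_le_of_ne h (irrational_ne_half hti).symm
      rw [step_of_ge h, step_of_lt (by rw [e]; linarith)]
      ring

lemma levelSet_one_sub {x y : ℝ} (h : x ∈ levelSet y) : 1 - x ∈ levelSet y := by
  obtain ⟨⟨h0, h1⟩, h2⟩ := h
  exact ⟨⟨by linarith, by linarith⟩, by rw [takagi_one_sub, h2]⟩

/-- An irrational point with rational height and walk diverging to `+∞` produces a rational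
height whose level set consists of two irrational points `z` and `1 - z`. -/
lemma two_points_of_diverges {x : ℝ} (hx0 : 0 ≤ x) (hx1 : x < 1) (hirr : Irrational x)
    {q : ℕ} (hq : 0 < q) {p : ℤ} (hp : q * takagi x = p)
    (hdiv : Tendsto (fun n => walk x n) atTop atTop) :
    ∃ y : ℚ, 0 ≤ y ∧ y ≤ 2 / 3 ∧ ∃ z : ℝ, Irrational z ∧ levelSet (y : ℝ) = {z, 1 - z} := by
  set k := q + 2 with hk
  have hkq : q < 3 * 2 ^ k := by
    have h1 : k < 2 ^ k := Nat.lt_two_pow_self
    omega
  -- last time at level at most `k`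
  have hfin : {n | walk x n ≤ (k : ℤ)}.Finite := by
    have h1 := hdiv.eventually_gt_atTop (k : ℤ)
    rw [eventually_atTop] at h1
    obtain ⟨N, hN⟩ := h1
    apply (Set.finite_Iio N).subset
    intro n hn
    simp only [Set.mem_ofPred_eq] at hn
    by_contra hc
    simp only [Set.mem_Iio, not_lt] at hc
    have := hN n hc
    omega
  have hne : {n | walk x n ≤ (k : ℤ)}.Nonempty := ⟨0, by simp [walk_zero]⟩
  obtain ⟨n, hnmem, hnmax⟩ := hfin.exists_maximal hne
  simp only [Set.mem_ofPred_eq] at hnmem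
  have hgt : ∀ m, n < m → (k : ℤ) < walk x m := by
    intro m hm
    by_contra hc
    push Not at hc
    have := hnmax (y := m) hc hm.le
    omega
  have hn : walk x n = k := by
    have h1 := hgt (n + 1) (by omega)
    rw [walk_succ] at h1
    rcases step_eq x n with h2 | h2 <;> omega
  have hstep : tl x n < 1 / 2 := by
    by_contra hc
    push Not at hc
    have h1 := hgt (n + 1) (by omega)
    rw [walk_succ, step_of_ge hc] at h1
    omega
  obtain ⟨Y, hY⟩ := ht_int hx0 hx1 hp n
  have hht : ht x n = tk k (tl x n) := by unfold ht; rw [hn]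
  have hq' : (q : ℝ) ≠ 0 := by exact_mod_cast hq.ne'
  have hp2 : (0 : ℝ) < 2 ^ k := by positivity
  have hp21 : (1 : ℝ) ≤ 2 ^ k := one_le_pow₀ (by norm_num)
  have hTz : takagi (tl x n / 2 ^ k) = ht x n / 2 ^ k := by
    rw [takagi_div_pow k (tl_nonneg _ _) (tl_lt_one _ _).le, hht]
  have hcast : (((Y : ℚ) / (q * 2 ^ k) : ℚ) : ℝ) = ht x n / 2 ^ k := by
    push_cast
    rw [← hY]
    field_simp
  have hz0 : 0 ≤ tl x n / 2 ^ k := div_nonneg (tl_nonneg _ _) hp2.le
  have hz1 : tl x n / 2 ^ k ≤ 1 := by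
    rw [div_le_one hp2]
    linarith [tl_lt_one x n]
  refine ⟨(Y : ℚ) / (q * 2 ^ k), ?_, ?_, tl x n / 2 ^ k, ?_, ?_⟩
  · have : (0 : ℝ) ≤ (((Y : ℚ) / (q * 2 ^ k) : ℚ) : ℝ) := by
      rw [hcast, ← hTz]
      exact takagi_nonneg _
    exact_mod_cast this
  · have : (((Y : ℚ) / (q * 2 ^ k) : ℚ) : ℝ) ≤ ((2 / 3 : ℚ) : ℝ) := by
      rw [hcast, ← hTz]
      push_cast
      exact takagi_le _
    exact_mod_cast this
  · rintro ⟨r, hr⟩
    apply irrational_tl hirr n
    refine ⟨r * 2 ^ k, ?_⟩
    push_cast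
    rw [hr]
    field_simp
  · have main : ∀ r : ℝ, r ≤ 1 / 2 → r ∈ levelSet (ht x n / 2 ^ k) → r = tl x n / 2 ^ k := by
      intro r hr hmem
      have hr0 : 0 ≤ r := hmem.1.1
      have hTr : takagi r = ht x n / 2 ^ k := hmem.2
      have hk1 : (2 : ℝ) ≤ k := by rw [hk]; push_cast; linarith [show (0 : ℝ) ≤ q by positivity]
      have hlt : ht x n < k := by
        have h1 := tk_left_le k (tl_nonneg x n) hstep.le
        rw [← hht] at h1
        have h5 : (1 / 2 : ℝ) ^ (k + 1) ≤ (1 / 2) ^ 1 :=
          pow_le_pow_of_le_one (by norm_num) (by norm_num) (by omega)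
        linarith
      have hsmall : r < 1 / 2 ^ k := by
        by_contra hc
        push Not at hc
        have h1 := takagi_ge k (by omega) hc hr
        rw [hTr, div_le_div_iff_of_pos_right hp2] at h1
        linarith
      have hv0 : 0 ≤ 2 ^ k * r := by positivity
      have hv1 : 2 ^ k * r < 1 := by
        rw [lt_div_iff₀ hp2] at hsmall
        linarith
      have hv : tk k (2 ^ k * r) = ht x n := by
        have h1 := takagi_div_pow k hv0 hv1.le
        have e : 2 ^ k * r / 2 ^ k = r := by field_simp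
        rw [e, hTr, div_left_inj' hp2.ne'] at h1
        exact h1.symm
      have hrig := rigid hx0 hx1 hirr hq hp (n := n) (k := k) (by omega) hkq hn hgt hv0 hv1 hv
      rw [← hrig]
      field_simp
    rw [hcast]
    ext r
    simp only [Set.mem_insert_iff, Set.mem_singleton_iff]
    have hself : tl x n / 2 ^ k ∈ levelSet (ht x n / 2 ^ k) := ⟨⟨hz0, hz1⟩, hTz⟩
    constructor
    · intro hmem
      rcases le_total r (1 / 2) with h | h
      · exact Or.inl (main r h hmem)
      · right
        have h1 := main (1 - r) (by linarith) (levelSet_one_sub hmem)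
        linarith
    · rintro (h | h)
      · rw [h]
        exact hself
      · rw [h]
        exact levelSet_one_sub hself

lemma diverges_cases {x : ℝ} (h : Tendsto (fun n => |walk x n|) atTop atTop) :
    Tendsto (fun n => walk x n) atTop atTop ∨ Tendsto (fun n => - walk x n) atTop atTop := by
  have h1 := h.eventually_ge_atTop 1
  rw [eventually_atTop] at h1
  obtain ⟨N, hN⟩ := h1
  rcases lt_or_ge 0 (walk x N) with hpos | hneg
  · left
    have key : ∀ n, N ≤ n → 0 < walk x n := by
      intro n hn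
      induction n, hn using Nat.le_induction with
      | base => exact hpos
      | succ n hn ih =>
        have h2 := hN (n + 1) (by omega)
        rw [walk_succ] at h2 ⊢
        by_contra hc
        rcases step_eq x n with h3 | h3
        · omega
        · rw [h3] at hc h2
          have h4 : walk x n + -1 = 0 := by omega
          rw [h4] at h2
          simp at h2
    apply h.congr'
    filter_upwards [eventually_ge_atTop N] with n hn
    exact abs_of_pos (key n hn)
  · right
    have hneg' : walk x N < 0 := by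
      have h2 := hN N le_rfl
      by_contra hc
      have h3 : walk x N = 0 := by omega
      rw [h3] at h2
      simp at h2
    have key : ∀ n, N ≤ n → walk x n < 0 := by
      intro n hn
      induction n, hn using Nat.le_induction with
      | base => exact hneg'
      | succ n hn ih =>
        have h2 := hN (n + 1) (by omega)
        rw [walk_succ] at h2 ⊢
        by_contra hc
        rcases step_eq x n with h3 | h3
        · rw [h3] at hc h2
          have h4 : walk x n + 1 = 0 := by omega
          rw [h4] at h2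
          simp at h2
        · omega
    apply h.congr'
    filter_upwards [eventually_ge_atTop N] with n hn
    exact abs_of_neg (key n hn)

/-- Knuth's first statement. -/
def KnuthOne : Prop :=
  ∀ y : ℚ, 0 ≤ y → y ≤ 2 / 3 → ∃ r : ℚ, (r : ℝ) ∈ levelSet (y : ℝ)

/-- Knuth's second statement. -/
def KnuthTwo : Prop :=
  ∀ x ∈ Set.Icc (0 : ℝ) 1, Irrational x → (∃ y : ℚ, takagi x = y) →
    ¬ (levelSet (takagi x)).Countable

/-- The escape statement. -/
def Escape : Prop :=
  ∀ x ∈ Set.Icc (0 : ℝ) 1, Irrational x → Tendsto (fun n => |walk x n|) atTop atTop →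
    Irrational (takagi x)

lemma rat_form {x : ℝ} {y : ℚ} (h : takagi x = y) : ((y.den : ℕ) : ℝ) * takagi x = (y.num : ℤ) := by
  rw [h]
  have h1 : ((y.den : ℚ) * y) = y.num := by
    rw [mul_comm]
    exact Rat.mul_den_eq_num y
  exact_mod_cast h1

lemma bounded_of_not_diverges {x : ℝ} (h : ¬ Tendsto (fun n => |walk x n|) atTop atTop) :
    ∃ K : ℤ, {n | |walk x n| ≤ K}.Infinite := by
  rw [tendsto_atTop] at h
  push Not at h
  obtain ⟨K, hK⟩ := h
  refine ⟨K, ?_⟩
  rw [← Nat.frequently_atTop_iff_infinite]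
  exact hK.mono fun n hn => le_of_lt hn

theorem levelSet_nonempty {y : ℝ} (h0 : 0 ≤ y) (h1 : y ≤ 2 / 3) : (levelSet y).Nonempty := by
  have e : takagi (1 / 3) = 2 / 3 := by
    have h1 : takagi (1 / 3) = 1 / 3 + takagi (2 * (1 / 3)) / 2 := takagi_left (by norm_num) (by norm_num)
    have h2 : takagi (2 * (1 / 3)) = takagi (1 / 3) := by
      rw [← takagi_one_sub (1 / 3)]
      norm_num
    linarith
  have hivt := intermediate_value_Icc (a := (0 : ℝ)) (b := 1 / 3) (by norm_num)
    takagi_continuous.continuousOn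
  rw [takagi_zero, e] at hivt
  obtain ⟨x, hx, hxy⟩ := hivt ⟨h0, h1⟩
  exact ⟨x, ⟨hx.1, by linarith [hx.2]⟩, hxy⟩

theorem escape_imp_two : Escape → KnuthTwo := by
  intro hE x hx hirr ⟨y, hy⟩
  have hx1 := irrational_lt_one hirr hx.2
  have h1 : ¬ Tendsto (fun n => |walk x n|) atTop atTop := by
    intro h
    exact hE x hx hirr h ⟨y, hy.symm⟩
  obtain ⟨K, hK⟩ := bounded_of_not_diverges h1
  exact uncountable_of_bounded hx.1 hx1 hirr y.den_pos (rat_form hy) hK

theorem two_imp_one : KnuthTwo → KnuthOne := by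
  intro h2 y h0 h1
  by_contra hcon
  push Not at hcon
  obtain ⟨x, hx⟩ := levelSet_nonempty (y := (y : ℝ)) (by exact_mod_cast h0) (by
    have : ((y : ℚ) : ℝ) ≤ ((2 / 3 : ℚ) : ℝ) := by exact_mod_cast h1
    push_cast at this
    exact this)
  have hirr : Irrational x := by
    rintro ⟨r, rfl⟩
    exact hcon r hx
  have hTx : takagi x = y := hx.2
  have h3 := h2 x hx.1 hirr ⟨y, hTx⟩
  rw [hTx] at h3
  have hinf : (levelSet (y : ℝ)).Infinite := fun hf => h3 hf.countable
  obtain ⟨r, hr⟩ := rational_of_infinite y.den_pos (p := y.num) (by rw [← hTx]; exact rat_form hTx) hinf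
  exact hcon r hr

/-- If the escape statement fails then some rational height has a level set consisting of exactly
two irrational points. -/
theorem two_points_of_not_escape (h : ¬ Escape) :
    ∃ y : ℚ, 0 ≤ y ∧ y ≤ 2 / 3 ∧ ∃ z : ℝ, Irrational z ∧ levelSet (y : ℝ) = {z, 1 - z} := by
  unfold Escape at h
  push Not at h
  obtain ⟨x, hx, hirr, hdiv, hT⟩ := h
  unfold Irrational at hT
  push Not at hT
  obtain ⟨y, hy⟩ := hT
  have hx1 := irrational_lt_one hirr hx.2
  have hx0 := irrational_pos hirr hx.1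
  rcases diverges_cases hdiv with h | h
  · exact two_points_of_diverges hx.1 hx1 hirr y.den_pos (rat_form hy.symm) h
  · have hirr' : Irrational (1 - x) := by
      have := hirr.ratCast_sub 1
      push_cast at this
      exact this
    have h' : Tendsto (fun n => walk (1 - x) n) atTop atTop := by
      apply h.congr
      intro n
      rw [walk_one_sub hirr]
    exact two_points_of_diverges (x := 1 - x) (by linarith) (by linarith)
      hirr' y.den_pos (p := y.num) (by rw [takagi_one_sub]; exact rat_form hy.symm) h'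

theorem one_imp_escape : KnuthOne → Escape := by
  intro h1
  by_contra hE
  obtain ⟨y, hy0, hy1, z, hz, hL⟩ := two_points_of_not_escape hE
  obtain ⟨r, hr⟩ := h1 y hy0 hy1
  rw [hL] at hr
  rcases hr with hr | hr
  · exact hz ⟨r, hr⟩
  · exact hz ⟨1 - r, by
      rw [Set.mem_singleton_iff] at hr
      push_cast
      linarith⟩

/-- The weak form of Knuth's second statement: the level set has a third element. -/
def KnuthTwoWeak : Prop :=
  ∀ x ∈ Set.Icc (0 : ℝ) 1, Irrational x → (∃ y : ℚ, takagi x = y) →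
    levelSet (takagi x) ≠ {x, 1 - x}

theorem two_imp_weak : KnuthTwo → KnuthTwoWeak := by
  intro h x hx hirr hy hL
  apply h x hx hirr hy
  rw [hL]
  exact (Set.toFinite _).countable

theorem weak_imp_escape : KnuthTwoWeak → Escape := by
  intro h1
  by_contra hE
  obtain ⟨y, hy0, hy1, z, hz, hL⟩ := two_points_of_not_escape hE
  have hmem : z ∈ levelSet (y : ℝ) := by rw [hL]; exact Or.inl rfl
  have hT : takagi z = y := hmem.2
  apply h1 z hmem.1 hz ⟨y, hT⟩
  rw [hT, hL]

end Pool.Agent.Work.MP_df9865_an
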