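import Pool.Agent.Work.MP_df9865_an.Normal

/-!
# The structure theorem
-/

open Set Filter Topology

namespace Pool.Agent.Work.MP_df9865_an

/-- `x'` is `x` or has the opposite digits. -/
structure Rel (x x' : ℝ) (τ : ℤ) : Prop where
  sq : τ * τ = 1
  step : ∀ i, step x' i = τ * step x i

lemma Esc.of_tendsto {x : ℝ} (hx0 : 0 ≤ x) (hx1 : x < 1) (hirr : Irrational x) {q : ℕ} (hq : 0 < q)
    {p : ℤ} (hp : q * takagi x = p) (hdiv : Tendsto (fun n => walk x n) atTop atTop) :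
    ∃ N, Esc x q N := by
  have hkq : q < 3 * 2 ^ (q + 2) := by
    have h1 : q + 2 < 2 ^ (q + 2) := Nat.lt_two_pow_self
    omega
  obtain ⟨N, hN⟩ := eventually_atTop.1 (hdiv.eventually_gt_atTop ((q + 2 : ℕ) : ℤ))
  exact ⟨N, hx0, hx1, hirr, hq, ⟨p, hp⟩, ⟨q + 2, by omega, hkq, hN⟩⟩

lemma exists_esc {x : ℝ} (hx : x ∈ Set.Icc (0 : ℝ) 1) (hirr : Irrational x) {q : ℕ} (hq : 0 < q)
    {p : ℤ} (hp : q * takagi x = p) (hdiv : Tendsto (fun n => |walk x n|) atTop atTop) :
    ∃ (x' : ℝ) (N : ℕ) (τ : ℤ), Esc x' q N ∧ Rel x x' τ := by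
  have hx1 := irrational_lt_one hirr hx.2
  have hx0 := irrational_pos hirr hx.1
  rcases diverges_cases hdiv with h | h
  · obtain ⟨N, hN⟩ := Esc.of_tendsto hx.1 hx1 hirr hq hp h
    exact ⟨x, N, 1, hN, by norm_num, fun i => (one_mul _).symm⟩
  · have hirr' : Irrational (1 - x) := by
      have := hirr.ratCast_sub 1
      push_cast at this
      exact this
    have h' : Tendsto (fun n => walk (1 - x) n) atTop atTop := by
      apply h.congr
      intro n
      rw [walk_one_sub hirr]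
    obtain ⟨N, hN⟩ := Esc.of_tendsto (x := 1 - x) (by linarith) (by linarith) hirr' hq (p := p)
      (by rw [takagi_one_sub, hp]) h'
    refine ⟨1 - x, N, -1, hN, by norm_num, fun i => ?_⟩
    rw [step_one_sub hirr]
    ring

lemma diverges_of {x : ℝ} (hx : x ∈ Set.Icc (0 : ℝ) 1) (hirr : Irrational x) {q : ℕ} (hq : 0 < q)
    {p : ℤ} (hp : q * takagi x = p)
    (hL : (levelSet (takagi x)).Countable ∨ Tendsto (fun n => |walk x n|) atTop atTop) :
    Tendsto (fun n => |walk x n|) atTop atTop := by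
  rcases hL with hcount | hdiv
  · by_contra h
    obtain ⟨K, hK⟩ := bounded_of_not_diverges h
    exact uncountable_of_bounded hx.1 (irrational_lt_one hirr hx.2) hirr hq hp hK hcount
  · exact hdiv

/-- The quadratic bound, from the divergence of the walk. -/
theorem growth' {x : ℝ} (hx : x ∈ Set.Icc (0 : ℝ) 1) (hirr : Irrational x) {q : ℕ} (hq : 0 < q)
    {p : ℤ} (hp : q * takagi x = p) (hdiv : Tendsto (fun n => |walk x n|) atTop atTop) :
    ∃ C : ℕ, ∀ K : ℕ, {n | |walk x n| ≤ (K : ℤ)}.Finite ∧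
      2 * {n | |walk x n| ≤ (K : ℤ)}.ncard ≤ q * (K + 1) ^ 2 + C := by
  have hx1 := irrational_lt_one hirr hx.2
  have hx0 := irrational_pos hirr hx.1
  rcases diverges_cases hdiv with h | h
  · exact pos_growth hx.1 hx1 hirr hq hp h
  · have hirr' : Irrational (1 - x) := by
      have := hirr.ratCast_sub 1
      push_cast at this
      exact this
    have h' : Tendsto (fun n => walk (1 - x) n) atTop atTop := by
      apply h.congr
      intro n
      rw [walk_one_sub hirr]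
    obtain ⟨C, hC⟩ := pos_growth (x := 1 - x) (by linarith) (by linarith) hirr' hq (p := p)
      (by rw [takagi_one_sub, hp]) h'
    refine ⟨C, fun K => ?_⟩
    have e : {n | |walk (1 - x) n| ≤ (K : ℤ)} = {n | |walk x n| ≤ (K : ℤ)} := by
      ext n
      simp only [Set.mem_ofPred_eq]
      rw [walk_one_sub hirr, abs_neg]
    have := hC K
    rwa [e] at this

section

variable {x x' : ℝ} {τ : ℤ} {q N : ℕ}

lemma Rel.abs (h : Rel x x' τ) : |τ| = 1 := by
  have h1 := h.sq
  have h2 : τ ∣ 1 := ⟨τ, h1.symm⟩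
  exact Int.isUnit_iff_abs_eq.1 (isUnit_of_dvd_one h2)

lemma Rel.walk (h : Rel x x' τ) (n : ℕ) : walk x' n = τ * walk x n := by
  unfold MP_df9865_an.walk
  rw [Finset.mul_sum]
  exact Finset.sum_congr rfl fun i _ => h.step i

lemma Rel.abs_walk (h : Rel x x' τ) (n : ℕ) : |MP_df9865_an.walk x' n| = |MP_df9865_an.walk x n| := by
  rw [h.walk, abs_mul, h.abs, one_mul]

lemma Rel.word (h : Rel x x' τ) (n m : ℕ) : word x' n m = fun i => τ * word x n m i := by
  funext i
  exact h.step _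

lemma Rel.mul_inj (h : Rel x x' τ) (n : ℕ) :
    Function.Injective (fun (w : Fin n → ℤ) i => τ * w i) := by
  intro a b hab
  have h1 : ∀ c : Fin n → ℤ, (fun i => τ * (τ * c i)) = c := by
    intro c
    funext i
    rw [← mul_assoc, h.sq, one_mul]
  have h2 := congrArg (fun (w : Fin n → ℤ) i => τ * w i) hab
  simp only at h2
  rw [h1, h1] at h2
  exact h2

lemma Rel.card_image (h : Rel x x' τ) (m : ℕ) (W : Finset ℕ) :
    (W.image (MP_df9865_an.word x' m)).card = (W.image (MP_df9865_an.word x m)).card := by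
  classical
  have e : W.image (MP_df9865_an.word x' m) =
      (W.image (MP_df9865_an.word x m)).image (fun (w : Fin m → ℤ) i => τ * w i) := by
    rw [Finset.image_image]
    exact Finset.image_congr fun a _ => h.word m a
  rw [e, Finset.card_image_of_injective _ (h.mul_inj m)]

lemma Rel.ncard (h : Rel x x' τ) (n : ℕ) : (recurring x' n).ncard = (recurring x n).ncard := by
  have e : recurring x' n = (fun (w : Fin n → ℤ) i => τ * w i) '' recurring x n := by
    ext w
    simp only [recurring, Set.mem_image, Set.mem_ofPred_eq]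
    constructor
    · intro hw
      refine ⟨fun i => τ * w i, ?_, ?_⟩
      · refine hw.mono fun m hm => ?_
        rw [← hm, h.word]
        funext i
        rw [← mul_assoc, h.sq, one_mul]
      · funext i
        rw [← mul_assoc, h.sq, one_mul]
    · rintro ⟨v, hv, rfl⟩
      refine hv.mono fun m hm => ?_
      rw [h.word, hm]
  rw [e, Set.ncard_image_of_injective _ (h.mul_inj n)]

lemma Esc.walk_eq (hE : Esc x' q N) (h : Rel x x' τ) {n : ℕ} (hn : N ≤ n) :
    MP_df9865_an.walk x' n = |MP_df9865_an.walk x n| := by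
  rw [← h.abs_walk, abs_of_pos (hE.pos hn)]

lemma split_card (W : Finset ℕ) (N : ℕ) : W.card ≤ N + (W.filter fun n => N ≤ n).card := by
  have e1 : W ⊆ Finset.range N ∪ W.filter fun n => N ≤ n := by
    intro n hn
    rw [Finset.mem_union, Finset.mem_range, Finset.mem_filter]
    rcases Nat.lt_or_ge n N with h | h
    · exact Or.inl h
    · exact Or.inr ⟨hn, h⟩
  have e2 := (Finset.card_le_card e1).trans (Finset.card_union_le _ _)
  rwa [Finset.card_range] at e2

/-- Part (1). -/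
theorem part_entropy (hE : Esc x' q N) (h : Rel x x' τ) (n : ℕ) :
    2 ^ n ≤ (recurring x n).ncard ^ 2 := by
  rw [← h.ncard]
  exact hE.entropy n

/-- Part (2). -/
theorem part_freq (hE : Esc x' q N) (h : Rel x x' τ) {δ : ℝ} (hδ0 : 0 ≤ δ) (hδ1 : δ ≤ 1 / 2)
    (hH : Real.binEntropy δ < Real.log 2 / 2) :
    ∀ᶠ n : ℕ in atTop, |(MP_df9865_an.walk x n : ℝ)| ≤ (1 - 2 * δ) * n := by
  obtain ⟨N', hN'⟩ := hE.freq hδ0 hδ1 hH
  refine eventually_atTop.2 ⟨max N N', fun n hn => ?_⟩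
  have h1 := hN' n ((le_max_right _ _).trans hn)
  rw [hE.walk_eq h ((le_max_left _ _).trans hn)] at h1
  exact_mod_cast h1

/-- Part (4), polynomial form. -/
theorem part_rate (hE : Esc x' q N) (h : Rel x x' τ) {κ C s : ℝ} (hκ0 : 0 ≤ κ) (hs : 1 < s)
    (hκ : κ ^ 2 < 2 ^ s) (m₀ : ℕ) :
    ∃ (C' : ℝ) (c : ℕ), ∀ K : ℕ, 1 ≤ K → ∀ W : Finset ℕ,
      (∀ n ∈ W, |MP_df9865_an.walk x n| ≤ K) →
      (∀ m, m₀ ≤ m → m ≤ 2 * Nat.log 2 K + c →
        ((W.image (MP_df9865_an.word x m)).card : ℝ) ≤ C * κ ^ m) →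
      (W.card : ℝ) ≤ C' * (K : ℝ) ^ s := by
  classical
  have hs1 : (1 : ℝ) < 2 ^ s := Real.one_lt_rpow (by norm_num) (by linarith)
  have hκ' : (max κ 1) ^ 2 < (2 : ℝ) ^ s := by
    rcases max_choice κ 1 with e | e <;> rw [e]
    · exact hκ
    · rw [one_pow]; exact hs1
  obtain ⟨C', c, hC', hrate⟩ := hE.rate (le_max_right κ 1) (le_max_right C 0) hs hκ' m₀
  refine ⟨N + C', c, fun K hK W hW hB => ?_⟩
  have hKr : (1 : ℝ) ≤ K := by exact_mod_cast hK
  have h1 := hrate K hK (W.filter fun n => N ≤ n) (by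
    intro n hn
    rw [Finset.mem_filter] at hn
    refine ⟨hn.2, ?_⟩
    rw [hE.walk_eq h hn.2]
    exact hW n hn.1) (by
    intro m hm0 hm1
    have e1 : (((W.filter fun n => N ≤ n).image (blk x' m)).card : ℝ) ≤
        ((W.image (MP_df9865_an.word x m)).card : ℝ) := by
      rw [← h.card_image]
      have e2 := (card_blk_le_word x' m (W.filter fun n => N ≤ n)).trans
        (Finset.card_le_card (Finset.image_subset_image (Finset.filter_subset _ W)))
      exact_mod_cast e2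
    refine e1.trans ((hB m hm0 hm1).trans ?_)
    exact mul_le_mul (le_max_left _ _) (pow_le_pow_left₀ hκ0 (le_max_left _ _) m)
      (by positivity) (le_max_right _ _))
  have h2 : (W.card : ℝ) ≤ N + (W.filter fun n => N ≤ n).card := by
    exact_mod_cast split_card W N
  have h3 : (1 : ℝ) ≤ (K : ℝ) ^ s := Real.one_le_rpow hKr (by linarith)
  have h4 : (N : ℝ) * 1 ≤ N * (K : ℝ) ^ s := mul_le_mul_of_nonneg_left h3 (by positivity)
  calc (W.card : ℝ) ≤ N * (K : ℝ) ^ s + C' * (K : ℝ) ^ s := by linarith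
    _ = _ := by ring

/-- Part (4), fine form. -/
theorem part_fine (hE : Esc x' q N) (h : Rel x x' τ) {κ C ε : ℝ} (hκ0 : 0 ≤ κ)
    (hκ : κ ^ 2 < 2) (hε : 0 < ε) (m₀ : ℕ) :
    ∃ K₀ c : ℕ, ∀ K : ℕ, K₀ ≤ K → ∀ W : Finset ℕ,
      (∀ n ∈ W, |MP_df9865_an.walk x n| ≤ K) →
      (∀ m, m₀ ≤ m → m ≤ 2 * Nat.log 2 K + c →
        ((W.image (MP_df9865_an.word x m)).card : ℝ) ≤ C * κ ^ m) →
      (W.card : ℝ) ≤ ε * K := by
  classical
  have hκ' : (max κ 1) ^ 2 < (2 : ℝ) := by
    rcases max_choice κ 1 with e | e <;> rw [e]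
    · exact hκ
    · norm_num
  obtain ⟨J₀, c, hfine⟩ := hE.fine (le_max_right κ 1) hκ' (le_max_right C 0) m₀ (ε := ε / 4)
    (by positivity)
  obtain ⟨K₁, hK₁⟩ := exists_nat_gt (2 * N / ε)
  refine ⟨max K₁ (2 ^ J₀), c + 2, fun K hK W hW hB => ?_⟩
  have hKa : K₁ ≤ K := (le_max_left _ _).trans hK
  have hKb : 2 ^ J₀ ≤ K := (le_max_right _ _).trans hK
  have hK0 : K ≠ 0 := by
    have : 0 < 2 ^ J₀ := by positivity
    omega
  set J := Nat.log 2 K + 1 with hJ
  have hKJ : K < 2 ^ J := Nat.lt_pow_succ_log_self (by norm_num) K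
  have hJK : 2 ^ (J - 1) ≤ K := Nat.pow_log_le_self 2 hK0
  have hlog : J₀ ≤ Nat.log 2 K := Nat.le_log_of_pow_le (by norm_num) hKb
  have h2J : (2 : ℝ) ^ J ≤ 2 * K := by
    have e : (2 : ℝ) ^ J = 2 * 2 ^ (J - 1) := by rw [hJ, Nat.add_sub_cancel, pow_succ]; ring
    have : (2 : ℝ) ^ (J - 1) ≤ K := by exact_mod_cast hJK
    linarith
  have h1 := hfine J (by omega) (W.filter fun n => N ≤ n) (by
    intro n hn
    rw [Finset.mem_filter] at hn
    refine ⟨hn.2, ?_⟩
    rw [hE.walk_eq h hn.2]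
    refine (hW n hn.1).trans ?_
    exact_mod_cast hKJ.le) (by
    intro m hm0 hm1
    have e1 : (((W.filter fun n => N ≤ n).image (blk x' m)).card : ℝ) ≤
        ((W.image (MP_df9865_an.word x m)).card : ℝ) := by
      rw [← h.card_image]
      have e2 := (card_blk_le_word x' m (W.filter fun n => N ≤ n)).trans
        (Finset.card_le_card (Finset.image_subset_image (Finset.filter_subset _ W)))
      exact_mod_cast e2
    refine e1.trans ((hB m hm0 (by omega)).trans ?_)
    exact mul_le_mul (le_max_left _ _) (pow_le_pow_left₀ hκ0 (le_max_left _ _) m)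
      (by positivity) (le_max_right _ _))
  have h2 : (W.card : ℝ) ≤ N + (W.filter fun n => N ≤ n).card := by
    exact_mod_cast split_card W N
  have h4 : (N : ℝ) ≤ ε / 2 * K := by
    have e1 : (2 * N / ε : ℝ) < K := hK₁.trans_le (by exact_mod_cast hKa)
    rw [div_lt_iff₀ hε] at e1
    linarith
  have h5 : ε / 4 * 2 ^ J ≤ ε / 2 * K := by
    have := mul_le_mul_of_nonneg_left h2J (by positivity : 0 ≤ ε / 4)
    linarith
  linarith

/-- Part (3). -/
theorem part_growth (hE : Esc x' q N) (h : Rel x x' τ)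
    (hfin : ∀ K : ℕ, {n | |MP_df9865_an.walk x n| ≤ (K : ℤ)}.Finite) {n : ℕ} (hn : 0 < n) {s : ℝ}
    (hs : ((recurring x n).ncard : ℝ) ^ 2 < 2 ^ (s * n)) :
    ∃ C : ℝ, ∀ K : ℕ, 1 ≤ K →
      ({m | |MP_df9865_an.walk x m| ≤ (K : ℤ)}.ncard : ℝ) ≤ C * (K : ℝ) ^ s := by
  classical
  have hs0 : 0 ≤ s := by
    by_contra hneg
    push Not at hneg
    have h1 : (1 : ℝ) ≤ ((recurring x n).ncard : ℝ) ^ 2 := by
      have := Nat.one_le_pow 2 _ (recurring_ncard_pos x n)
      exact_mod_cast this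
    have h2 : (2 : ℝ) ^ (s * n) ≤ 2 ^ (0 : ℝ) := by
      refine Real.rpow_le_rpow_of_exponent_le (by norm_num) ?_
      exact mul_nonpos_of_nonpos_of_nonneg hneg.le (by positivity)
    rw [Real.rpow_zero] at h2
    linarith
  rw [← h.ncard] at hs
  obtain ⟨C, hC, N', hgr⟩ := hE.growth_rate hn hs
  obtain ⟨N₂, hN₂⟩ : ∃ N₂, N₂ = max N N' := ⟨_, rfl⟩
  refine ⟨N₂ + C, fun K hK => ?_⟩
  have hKr : (1 : ℝ) ≤ K := by exact_mod_cast hK
  rw [Set.ncard_eq_toFinset_card _ (hfin K)]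
  have h1 := hgr K hK ((hfin K).toFinset.filter fun n => N₂ ≤ n) (by
    intro a ha
    rw [Finset.mem_filter, Set.Finite.mem_toFinset, hN₂] at ha
    refine ⟨(le_max_right _ _).trans ha.2, ?_⟩
    rw [hE.walk_eq h ((le_max_left _ _).trans ha.2)]
    exact ha.1)
  have h2 : ((hfin K).toFinset.card : ℝ) ≤
      N₂ + ((hfin K).toFinset.filter fun n => N₂ ≤ n).card := by
    exact_mod_cast split_card _ N₂
  have h3 : (1 : ℝ) ≤ (K : ℝ) ^ s := Real.one_le_rpow hKr hs0
  have h4 : (N₂ : ℝ) * 1 ≤ N₂ * (K : ℝ) ^ s := mul_le_mul_of_nonneg_left h3 (by positivity)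
  calc ((hfin K).toFinset.card : ℝ) ≤ N₂ * (K : ℝ) ^ s + C * (K : ℝ) ^ s := by linarith
    _ = _ := by ring

/-- Part (5). -/
theorem part_normal (hE : Esc x' q N) (h : Rel x x' τ)
    (hslow : ∀ σ : ℝ, 1 / 2 < σ → ∀ᶠ n : ℕ in atTop,
      |(MP_df9865_an.walk x n : ℝ)| ≤ (n : ℝ) ^ σ)
    {k : ℕ} (hk : 0 < k) (w : Fin k → ℤ) (hw : ∀ i, w i = 1 ∨ w i = -1) :
    Tendsto (fun M : ℕ =>
      (((Finset.range M).filter fun n => MP_df9865_an.word x k n = w).card : ℝ) / M) atTop
      (𝓝 (1 / 2 ^ k)) := by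
  classical
  have hτ : τ = 1 ∨ τ = -1 := by
    have := h.abs
    rcases abs_choice τ with e | e <;> rw [e] at this
    · exact Or.inl this
    · right; omega
  have h1 := hE.normal (by
    intro σ hσ
    filter_upwards [hslow σ hσ] with n hn
    refine le_trans ?_ hn
    have e1 : (MP_df9865_an.walk x' n : ℝ) ≤ |(MP_df9865_an.walk x' n : ℝ)| := le_abs_self _
    have e2 : |(MP_df9865_an.walk x' n : ℝ)| = |(MP_df9865_an.walk x n : ℝ)| := by
      exact_mod_cast congrArg (fun z : ℤ => (z : ℝ)) (h.abs_walk n)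
    rw [← e2]
    exact e1) hk (fun i => τ * w i) (by
    unfold signs
    rw [Fintype.mem_piFinset]
    intro i
    rcases hτ with e | e <;> rcases hw i with e' | e' <;> simp [e, e'])
  refine h1.congr fun M => ?_
  congr 3
  refine Finset.filter_congr fun n _ => ?_
  rw [h.word]
  constructor
  · intro e
    exact h.mul_inj k e
  · intro e
    rw [e]

end

end Pool.Agent.Work.MP_df9865_an
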