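import Pool.Agent.Work.MP_df9865_an.Blocks

/-!
# The frequency of the digits
-/

open Set Filter Topology

namespace Pool.Agent.Work.MP_df9865_an

lemma rising_sun (f : ℕ → ℝ) (hf : ∀ i, 0 ≤ f i) {δ : ℝ} (hδ : 0 ≤ δ) (M : ℕ) (B : Finset ℕ)
    (hB : ∀ n ∈ B, n < M ∧ ∃ m : ℕ, 1 ≤ m ∧ n + m ≤ M ∧ δ * m < ∑ i ∈ Finset.Ico n (n + m), f i) :
    ∀ k a, a + k = M → δ * ((B.filter (fun n => a ≤ n)).card : ℝ) ≤ ∑ i ∈ Finset.Ico a M, f i := by
  intro k
  induction k using Nat.strong_induction_on with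
  | _ k ih =>
    intro a ha
    rcases Nat.eq_zero_or_pos k with hk | hk
    · have : B.filter (fun n => a ≤ n) = ∅ := by
        rw [Finset.filter_eq_empty_iff]
        intro n hn
        have := (hB n hn).1
        omega
      rw [this, Finset.card_empty, Nat.cast_zero, mul_zero]
      exact Finset.sum_nonneg fun i _ => hf i
    by_cases haB : a ∈ B
    · obtain ⟨_, m, hm1, hmM, hm⟩ := hB a haB
      have h1 := ih (k - m) (by omega) (a + m) (by omega)
      have h2 : (B.filter (fun n => a ≤ n)).card ≤ m + (B.filter (fun n => a + m ≤ n)).card := by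
        have e1 : B.filter (fun n => a ≤ n) ⊆
            Finset.Ico a (a + m) ∪ B.filter (fun n => a + m ≤ n) := by
          intro n hn
          rw [Finset.mem_filter] at hn
          rw [Finset.mem_union, Finset.mem_Ico, Finset.mem_filter]
          rcases Nat.lt_or_ge n (a + m) with h | h
          · exact Or.inl ⟨hn.2, h⟩
          · exact Or.inr ⟨hn.1, h⟩
        have e2 := (Finset.card_le_card e1).trans (Finset.card_union_le _ _)
        rw [Nat.card_Ico] at e2
        omega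
      have h3 : ((B.filter (fun n => a ≤ n)).card : ℝ) ≤
          m + (B.filter (fun n => a + m ≤ n)).card := by exact_mod_cast h2
      have h4 := Finset.sum_Ico_consecutive f (show a ≤ a + m by omega) hmM
      rw [← h4]
      have h5 := mul_le_mul_of_nonneg_left h3 hδ
      linarith
    · have h1 := ih (k - 1) (by omega) (a + 1) (by omega)
      have h2 : B.filter (fun n => a ≤ n) = B.filter (fun n => a + 1 ≤ n) := by
        refine Finset.filter_congr fun n hn => ?_
        constructor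
        · intro h
          rcases h.lt_or_eq with h | h
          · exact h
          · exact absurd (h ▸ hn) haB
        · omega
      rw [h2]
      refine h1.trans ?_
      have h4 := Finset.sum_Ico_consecutive f (show a ≤ a + 1 by omega) (show a + 1 ≤ M by omega)
      rw [← h4]
      have := Finset.sum_nonneg (s := Finset.Ico a (a + 1)) fun i _ => hf i
      linarith

/-- The number of sign words with few entries `-1`. -/
lemma card_sparse_le {δ t : ℝ} (ht0 : 0 < t) (ht1 : t ≤ 1) (m : ℕ) (T : Finset (Fin m → ℤ))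
    (hT : ∀ w ∈ T, w ∈ Fintype.piFinset (fun _ : Fin m => ({1, -1} : Finset ℤ)))
    (hs : ∀ w ∈ T, ∑ i, ((1 - w i : ℤ) : ℝ) / 2 ≤ δ * m) :
    (T.card : ℝ) ≤ ((1 + t) / t ^ δ) ^ m := by
  have htd : 0 < t ^ δ := Real.rpow_pos_of_pos ht0 _
  rw [div_pow, le_div_iff₀ (by positivity)]
  have h1 : ∀ w ∈ T, (t ^ δ) ^ m ≤ ∏ i, t ^ (((1 - w i : ℤ) : ℝ) / 2) := by
    intro w hw
    rw [← Real.rpow_sum_of_pos ht0, ← Real.rpow_natCast, ← Real.rpow_mul ht0.le]
    exact Real.rpow_le_rpow_of_exponent_ge ht0 ht1 (hs w hw)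
  calc (T.card : ℝ) * (t ^ δ) ^ m = ∑ w ∈ T, (t ^ δ) ^ m := by
        rw [Finset.sum_const, nsmul_eq_mul]
    _ ≤ ∑ w ∈ T, ∏ i, t ^ (((1 - w i : ℤ) : ℝ) / 2) := Finset.sum_le_sum h1
    _ ≤ ∑ w ∈ Fintype.piFinset (fun _ : Fin m => ({1, -1} : Finset ℤ)),
        ∏ i, t ^ (((1 - w i : ℤ) : ℝ) / 2) :=
        Finset.sum_le_sum_of_subset_of_nonneg hT fun w _ _ =>
          Finset.prod_nonneg fun i _ => (Real.rpow_pos_of_pos ht0 _).le
    _ = ∏ i : Fin m, ∑ v ∈ ({1, -1} : Finset ℤ), t ^ (((1 - v : ℤ) : ℝ) / 2) :=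
        (Finset.prod_univ_sum (fun _ : Fin m => ({1, -1} : Finset ℤ))
          (fun _ v => t ^ (((1 - v : ℤ) : ℝ) / 2))).symm
    _ = (1 + t) ^ m := by
        rw [Finset.prod_const, Finset.card_univ, Fintype.card_fin]
        congr 1
        rw [Finset.sum_pair (by norm_num)]
        norm_num

lemma kappa_eq {δ : ℝ} (h0 : 0 < δ) (h1 : δ < 1) :
    (1 + δ / (1 - δ)) / (δ / (1 - δ)) ^ δ = Real.exp (Real.binEntropy δ) := by
  have h2 : 0 < 1 - δ := by linarith
  have e1 : 1 + δ / (1 - δ) = Real.exp (-Real.log (1 - δ)) := by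
    rw [Real.exp_neg, Real.exp_log h2]
    field_simp
    ring
  rw [e1, Real.rpow_def_of_pos (by positivity), ← Real.exp_sub, Real.binEntropy,
    Real.log_div h0.ne' h2.ne', Real.log_inv, Real.log_inv]
  congr 1
  ring

lemma sum_step (x : ℝ) (M : ℕ) :
    ∑ i ∈ Finset.Ico 0 M, ((1 - step x i : ℤ) : ℝ) / 2 = (M - walk x M) / 2 := by
  rw [← Finset.sum_div, ← Int.cast_sum, Finset.sum_sub_distrib, ← Finset.range_eq_Ico]
  simp [walk]

variable {x : ℝ} {q N : ℕ}

theorem Esc.freq (h : Esc x q N) {δ : ℝ} (hδ0 : 0 ≤ δ) (hδ1 : δ ≤ 1 / 2)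
    (hH : Real.binEntropy δ < Real.log 2 / 2) :
    ∃ N' : ℕ, ∀ n : ℕ, N' ≤ n → (walk x n : ℝ) ≤ (1 - 2 * δ) * n := by
  classical
  have hlog : 0 < Real.log 2 := Real.log_pos (by norm_num)
  have hδ2 : δ < 1 / 2 := by
    refine lt_of_le_of_ne hδ1 fun he => ?_
    rw [he, one_div, Real.binEntropy_two_inv] at hH
    linarith
  obtain ⟨d, ⟨hd1, hd2⟩, hd3⟩ : ∃ d : ℝ, (Real.binEntropy d < Real.log 2 / 2 ∧ d < 1 / 2) ∧
      δ < d := by
    have e1 : ∀ᶠ y in 𝓝 δ, Real.binEntropy y < Real.log 2 / 2 :=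
      Real.binEntropy_continuous.continuousAt.eventually_lt_const hH
    have e2 : ∀ᶠ y in 𝓝 δ, y < 1 / 2 := eventually_lt_nhds hδ2
    have e3 : ∀ᶠ y in 𝓝[>] δ, Real.binEntropy y < Real.log 2 / 2 ∧ y < 1 / 2 :=
      (e1.and e2).filter_mono nhdsWithin_le_nhds
    exact (e3.and self_mem_nhdsWithin).exists
  have hd0 : 0 < d := by linarith
  set κ := Real.exp (Real.binEntropy d) with hκ
  have hκ1 : 1 ≤ κ := by
    rw [hκ]
    exact Real.one_le_exp (Real.binEntropy_nonneg hd0.le (by linarith))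
  have hκ2 : κ ^ 2 < 2 := by
    rw [hκ, ← Real.exp_nat_mul]
    have : ((2 : ℕ) : ℝ) * Real.binEntropy d < Real.log 2 := by push_cast; linarith
    calc Real.exp (((2 : ℕ) : ℝ) * Real.binEntropy d) < Real.exp (Real.log 2) :=
          Real.exp_lt_exp.2 this
      _ = 2 := Real.exp_log (by norm_num)
  obtain ⟨ε, hε⟩ : ∃ ε : ℝ, ε = (1 - δ / d) / 2 := ⟨_, rfl⟩
  have hε0 : 0 < ε := by
    have : δ / d < 1 := (div_lt_one hd0).2 hd3
    rw [hε]
    linarith
  obtain ⟨M₀, hM₀⟩ := h.master hκ1 hκ2 (C := 1) (by norm_num) 0 hε0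
  obtain ⟨M₁, hM₁⟩ := exists_nat_gt (1 / ε ^ 2)
  refine ⟨max M₀ M₁, fun M hM => ?_⟩
  by_contra hlt
  push Not at hlt
  have hMa : M₀ ≤ M := (le_max_left _ _).trans hM
  have hMb : (1 / ε ^ 2 : ℝ) < M := hM₁.trans_le (by exact_mod_cast (le_max_right _ _).trans hM)
  have hMpos : (0 : ℝ) < M := lt_trans (by positivity) hMb
  set f : ℕ → ℝ := fun i => ((1 - step x i : ℤ) : ℝ) / 2 with hf
  have hf0 : ∀ i, 0 ≤ f i := by
    intro i
    have := step_mem x i
    simp only [Finset.mem_insert, Finset.mem_singleton] at this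
    rcases this with h | h <;> simp [hf, h]
  set B := (Finset.range M).filter fun n =>
    ∃ m : ℕ, 1 ≤ m ∧ n + m ≤ M ∧ d * m < ∑ i ∈ Finset.Ico n (n + m), f i with hB
  have hBcard : d * (B.card : ℝ) ≤ ∑ i ∈ Finset.Ico 0 M, f i := by
    have h1 := rising_sun f hf0 hd0.le M B (by
      intro n hn
      rw [hB, Finset.mem_filter, Finset.mem_range] at hn
      exact hn) M 0 (by omega)
    have h2 : B.filter (fun n => 0 ≤ n) = B := Finset.filter_true_of_mem fun _ _ => Nat.zero_le _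
    rwa [h2] at h1
  have hsum : ∑ i ∈ Finset.Ico 0 M, f i = (M - walk x M) / 2 := sum_step x M
  rw [hsum] at hBcard
  have hBcard' : (B.card : ℝ) ≤ δ / d * M := by
    rw [div_mul_eq_mul_div, le_div_iff₀ hd0]
    linarith
  set b := Nat.sqrt M with hb
  have hb2 : b ^ 2 ≤ M := Nat.sqrt_le' M
  have hbM : b ≤ M := Nat.sqrt_le_self M
  set W := Finset.range (M - b) \ B with hW
  have hWcard : (M : ℝ) - b - δ / d * M ≤ W.card := by
    have h1 : (Finset.range (M - b)).card ≤ W.card + B.card := by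
      rw [hW]
      exact Finset.card_le_card_sdiff_add_card
    rw [Finset.card_range] at h1
    have h2 : ((M - b : ℕ) : ℝ) ≤ W.card + B.card := by exact_mod_cast h1
    rw [Nat.cast_sub hbM] at h2
    linarith
  have hWle := hM₀ M hMa W (by
    intro n hn
    rw [hW, Finset.mem_sdiff, Finset.mem_range] at hn
    omega) (by
    intro m _ hm
    have hmb : m ≤ b := Nat.le_sqrt'.2 hm
    rw [one_mul, hκ, ← kappa_eq hd0 (by linarith)]
    refine card_sparse_le (by
      have : 0 < 1 - d := by linarith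
      positivity) (by
      rw [div_le_one (by linarith)]
      linarith) m _ ?_ ?_
    · intro w hw
      rw [Finset.mem_image] at hw
      obtain ⟨n, _, rfl⟩ := hw
      exact word_mem x m n
    · intro w hw
      rw [Finset.mem_image] at hw
      obtain ⟨n, hn, rfl⟩ := hw
      rw [hW, Finset.mem_sdiff, Finset.mem_range, hB, Finset.mem_filter, Finset.mem_range] at hn
      have e1 : ∑ i : Fin m, ((1 - word x m n i : ℤ) : ℝ) / 2
          = ∑ i ∈ Finset.Ico n (n + m), f i := by
        rw [Finset.sum_Ico_eq_sum_range, Nat.add_sub_cancel_left, ← Fin.sum_univ_eq_sum_range]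
        rfl
      rw [e1]
      rcases Nat.eq_zero_or_pos m with h0 | h0
      · subst h0
        simp
      · by_contra hlt'
        push Not at hlt'
        exact hn.2 ⟨by omega, m, h0, by omega, hlt'⟩)
  have h1 : ε * M ≤ b := by
    have : δ / d = 1 - 2 * ε := by rw [hε]; ring
    rw [this] at hWcard
    linarith
  have h2 : (ε * M) ^ 2 ≤ M := by
    have e1 := pow_le_pow_left₀ (by positivity) h1 2
    have e2 : (b : ℝ) ^ 2 ≤ M := by exact_mod_cast hb2
    linarith
  have h3 : ε ^ 2 * M ≤ 1 := by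
    have e1 : ε ^ 2 * M * M ≤ 1 * M := by nlinarith
    exact le_of_mul_le_mul_right e1 hMpos
  rw [div_lt_iff₀ (by positivity)] at hMb
  linarith

/-- The entropy of `11/100`. -/
lemma binEntropy_lt : Real.binEntropy (11 / 100) < Real.log 2 / 2 := by
  have h1 : Real.binEntropy (11 / 100) =
      11 / 100 * Real.log (100 / 11) + 89 / 100 * Real.log (100 / 89) := by
    rw [Real.binEntropy]
    norm_num
  have h2 : ((100 / 11 : ℝ)) ^ 11 * (100 / 89) ^ 89 < 2 ^ 50 := by norm_num
  have h3 := Real.log_lt_log (by positivity) h2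
  rw [Real.log_mul (by positivity) (by positivity), Real.log_pow, Real.log_pow, Real.log_pow] at h3
  push_cast at h3
  rw [h1]
  linarith

end Pool.Agent.Work.MP_df9865_an
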