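import Pool.Agent.Work.MP_df9865_an.Equiv

open Set Filter Topology

namespace Pool.Agent.Work.MP_df9865_an

/-- While the walk stays strictly above a level `k ≥ 2`, no state `(g, g)` occurs. -/
lemma no_diag {x : ℝ} (hirr : Irrational x) {n k : ℕ} (hk2 : 2 ≤ k)
    (hgt : ∀ m, n ≤ m → (k : ℤ) < walk x m) : ht x n ≠ walk x n := by
  intro heq
  have key : ∀ i : ℕ, (i : ℤ) ≤ walk x n - k →
      walk x (n + i) = walk x n - i ∧ ht x (n + i) = walk x n - i := by
    intro i
    induction i with
    | zero => intro _; simp [heq]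
    | succ i ih =>
      intro hi
      push_cast at hi
      obtain ⟨h1, h2⟩ := ih (by omega)
      obtain ⟨g, hg⟩ := Int.eq_ofNat_of_zero_le (show 0 ≤ walk x (n + i) by omega)
      have hg3 : 3 ≤ g := by omega
      have hti := irrational_tl hirr (n + i)
      have hge : 1 / 2 ≤ tl x (n + i) := by
        by_contra hlt
        push Not at hlt
        have h3 := tk_left_le g (tl_nonneg x (n + i)) hlt.le
        have h4 : tk g (tl x (n + i)) = g := by
          have : ht x (n + i) = tk g (tl x (n + i)) := by unfold ht; rw [hg]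
          rw [← this, h2, ← Int.cast_natCast (R := ℝ) g, ← hg, h1]
          push_cast
          ring
        rw [h4] at h3
        have h5 : (1 / 2 : ℝ) ^ (g + 1) ≤ 1 := pow_le_one₀ (by norm_num) (by norm_num)
        have h6 : (3 : ℝ) ≤ g := by exact_mod_cast hg3
        linarith
      have h7 := walk_succ x (n + i)
      rw [step_of_ge hge] at h7
      have h8 := ht_succ_of_ge hge
      rw [← add_assoc, h7, h8, h1, h2]
      push_cast
      constructor <;> ring
  have h1 := hgt n le_rfl
  obtain ⟨i, hi⟩ := Int.eq_ofNat_of_zero_le (show 0 ≤ walk x n - k by omega)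
  have h2 := (key i (by omega)).1
  have h3 := hgt (n + i) (by omega)
  omega

/-- General rigidity: while the walk stays strictly above a high level, the tail is the only
solution in `[0,1)` at its state. -/
lemma rigid_gen {x : ℝ} (hx0 : 0 ≤ x) (hx1 : x < 1) (hirr : Irrational x) {q : ℕ} (hq : 0 < q)
    {p : ℤ} (hp : q * takagi x = p) {n k : ℕ} (hk2 : 2 ≤ k) (hkq : q < 3 * 2 ^ k)
    (hgt : ∀ m, n ≤ m → (k : ℤ) < walk x m)
    {v : ℝ} (hv0 : 0 ≤ v) (hv1 : v < 1) (hv : tk (walk x n) v = ht x n) : v = tl x n := by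
  have hdesc : ∀ m, n ≤ m → ht x m ≠ walk x m := fun m hm =>
    no_diag hirr hk2 fun m' hm' => hgt m' (hm.trans hm')
  apply eq_of_floor_eq (N := 0)
  intro j hj
  clear hj
  have hz0 := tl_nonneg x n
  have hz1 := tl_lt_one x n
  induction j with
  | zero =>
    have e1 : ⌊v⌋ = 0 := Int.floor_eq_iff.mpr ⟨by simpa using hv0, by simpa using hv1⟩
    have e2 : ⌊tl x n⌋ = 0 := Int.floor_eq_iff.mpr ⟨by simpa using hz0, by simpa using hz1⟩
    rw [pow_zero, one_mul, one_mul, e1, e2]
  | succ j ih =>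
    have h1 := tk_splice (walk x n) (tl x n) j (tl_nonneg v j) (tl_lt_one v j).le
    rw [splice_of_floor_eq ih, hv] at h1
    have h2 : walk x n + walk (tl x n) j = walk x (n + j) := by rw [walk_tl]
    rw [h2, tl_tl] at h1
    have h3 : tk (walk x n) (tl x n) = ht x n := rfl
    rw [h3, sub_self] at h1
    have h4 : tk (walk x (n + j)) (tl v j) = ht x (n + j) := by
      have h5 : (2 : ℝ) ^ j ≠ 0 := by positivity
      have h6 := (div_eq_zero_iff.mp h1.symm).resolve_right h5
      unfold ht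
      linarith
    have hE := hgt (n + j) (by omega)
    obtain ⟨e, he⟩ := Int.eq_ofNat_of_zero_le (show 0 ≤ walk x (n + j) by omega)
    have hek : k ≤ e := by omega
    obtain ⟨Y, hY⟩ := ht_int hx0 hx1 hp (n + j)
    have hti := irrational_tl hirr (n + j)
    have h7 : ht x (n + j) = tk e (tl x (n + j)) := by unfold ht; rw [he]
    have h8 : tk e (tl v j) = ht x (n + j) := by rw [← h4, he]
    have hqe : ¬ 3 * 2 ^ e ≤ q := by
      have : 2 ^ k ≤ 2 ^ e := Nat.pow_le_pow_right (by norm_num) hek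
      omega
    rcases lt_or_ge (tl x (n + j)) (1 / 2) with ha | ha
    · rcases lt_or_ge (tl v j) (1 / 2) with hb | hb
      · rw [floor_succ_of_lt hb, floor_succ_of_lt (by rw [tl_tl]; exact ha), ih]
      · exfalso
        have h9 := tk_left_le e (tl_nonneg x (n + j)) ha.le
        rw [← h7] at h9
        have h10 := tk_right_ge e (by omega) hb (tl_lt_one v j).le
        rw [h8] at h10
        rcases h10.lt_or_eq with h11 | h11
        · exact hqe (q_bound hq hY h11 h9)
        · apply hdesc (n + j + 1) (by omega)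
          rw [ht_succ_of_lt ha, walk_succ, step_of_lt ha, he]
          push_cast
          linarith
    · rcases lt_or_ge (tl v j) (1 / 2) with hb | hb
      · exfalso
        have h9 := tk_left_le e (tl_nonneg v j) hb.le
        rw [h8] at h9
        have h10 := tk_right_gt e (by omega) (lt_of_le_of_ne ha (irrational_ne_half hti).symm)
          (tl_lt_one x (n + j))
        rw [← h7] at h10
        exact hqe (q_bound hq hY h10 h9)
      · rw [floor_succ_of_ge hb, floor_succ_of_ge (by rw [tl_tl]; exact ha), ih]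

lemma rational_of_tl_eq {x : ℝ} {n m : ℕ} (hnm : n < m) (h : tl x n = tl x m) : ¬ Irrational x := by
  intro hirr
  apply hirr
  have h1 := floor_add_tl x n
  have h2 := floor_add_tl x m
  have h3 : (2 : ℝ) ^ n < 2 ^ m := pow_lt_pow_right₀ (by norm_num) hnm
  refine ⟨(⌊2 ^ m * x⌋ - ⌊2 ^ n * x⌋) / (2 ^ m - 2 ^ n), ?_⟩
  push_cast
  rw [div_eq_iff (by linarith)]
  rw [h] at h1
  linarith

/-- States do not repeat while the walk stays above a high level. -/
lemma states_inj {x : ℝ} (hx0 : 0 ≤ x) (hx1 : x < 1) (hirr : Irrational x) {q : ℕ} (hq : 0 < q)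
    {p : ℤ} (hp : q * takagi x = p) {N k : ℕ} (hk2 : 2 ≤ k) (hkq : q < 3 * 2 ^ k)
    (hgt : ∀ m, N ≤ m → (k : ℤ) < walk x m) {n m : ℕ} (hn : N ≤ n) (hm : N ≤ m)
    (hD : walk x n = walk x m) (hy : ht x n = ht x m) : n = m := by
  by_contra hne
  wlog hlt : n < m generalizing n m
  · exact this hm hn hD.symm hy.symm (Ne.symm hne) (by omega)
  have h1 : tk (walk x n) (tl x m) = ht x n := by rw [hD, hy]; rfl
  have h2 := rigid_gen hx0 hx1 hirr hq hp hk2 hkq (fun m' hm' => hgt m' (hn.trans hm'))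
    (tl_nonneg x m) (tl_lt_one x m) h1
  exact rational_of_tl_eq hlt h2.symm hirr

lemma pos_growth {x : ℝ} (hx0 : 0 ≤ x) (hx1 : x < 1) (hirr : Irrational x) {q : ℕ} (hq : 0 < q)
    {p : ℤ} (hp : q * takagi x = p) (hdiv : Tendsto (fun n => walk x n) atTop atTop) :
    ∃ C : ℕ, ∀ K : ℕ, {n | |walk x n| ≤ (K : ℤ)}.Finite ∧
      2 * {n | |walk x n| ≤ (K : ℤ)}.ncard ≤ q * (K + 1) ^ 2 + C := by
  classical
  set k := q + 2 with hk
  have hkq : q < 3 * 2 ^ k := by
    have h1 : k < 2 ^ k := Nat.lt_two_pow_self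
    omega
  have h1 := hdiv.eventually_gt_atTop (k : ℤ)
  rw [eventually_atTop] at h1
  obtain ⟨N, hN⟩ := h1
  choose Y hY using ht_int hx0 hx1 hp
  have hqr : (0 : ℝ) < q := by exact_mod_cast hq
  refine ⟨2 * N, fun K => ?_⟩
  -- the injection
  let S : Finset (Σ _ : ℕ, ℕ) := (Finset.Icc 1 K).sigma fun D => Finset.Icc 1 (q * D + q / 2)
  let f : ℕ → (Σ _ : ℕ, ℕ) := fun n => ⟨(walk x n).toNat, (Y n).toNat⟩
  let B : Set ℕ := {n | N ≤ n ∧ |walk x n| ≤ (K : ℤ)}
  have hYpos : ∀ n, N ≤ n → 0 < Y n ∧ (2 * Y n : ℤ) ≤ q * (2 * walk x n + 1) := by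
    intro n hn
    have hw := hN n hn
    obtain ⟨e, he⟩ := Int.eq_ofNat_of_zero_le (show 0 ≤ walk x n by omega)
    have hti := irrational_tl hirr n
    have h2 : ht x n = tk e (tl x n) := by unfold ht; rw [he]
    have h3 := tk_pos e (irrational_pos hti (tl_nonneg _ _)) (tl_lt_one x n)
    have h4 := tk_le e (tl_nonneg x n) (tl_lt_one x n).le
    rw [← h2] at h3 h4
    have he1 : 1 ≤ e := by omega
    have h5 : (1 / 2 : ℝ) ^ e ≤ (1 / 2) ^ 1 :=
      pow_le_pow_of_le_one (by norm_num) (by norm_num) he1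
    constructor
    · have : (0 : ℝ) < Y n := by
        rw [← hY n]
        exact mul_pos hqr h3
      exact_mod_cast this
    · have : ((2 * Y n : ℤ) : ℝ) ≤ ((q * (2 * walk x n + 1) : ℤ) : ℝ) := by
        rw [he]
        push_cast
        rw [← hY n]
        have := mul_le_mul_of_nonneg_left (show 2 * ht x n ≤ 2 * e + 1 by linarith) hqr.le
        linarith
      exact_mod_cast this
  have hmaps : ∀ n ∈ B, f n ∈ (S : Set (Σ _ : ℕ, ℕ)) := by
    rintro n ⟨hn, hnK⟩
    have hw := hN n hn
    rw [abs_of_nonneg (by omega)] at hnK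
    obtain ⟨hY0, hY1⟩ := hYpos n hn
    obtain ⟨e, he⟩ := Int.eq_ofNat_of_zero_le (show 0 ≤ walk x n by omega)
    obtain ⟨z, hz⟩ := Int.eq_ofNat_of_zero_le hY0.le
    simp only [S, f, Finset.coe_sigma, Set.mem_sigma_iff, Finset.coe_Icc, Set.mem_Icc]
    rw [he] at hw hnK hY1 ⊢
    rw [hz] at hY0 hY1 ⊢
    simp only [Int.toNat_natCast]
    refine ⟨⟨by omega, by omega⟩, by omega, ?_⟩
    have h6 : 2 * z ≤ q * (2 * e + 1) := by exact_mod_cast hY1
    have h7 : q * (2 * e + 1) = 2 * (q * e) + q := by ring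
    omega
  have hinj : Set.InjOn f B := by
    rintro n ⟨hn, _⟩ m ⟨hm, _⟩ h
    have hwn := hN n hn
    have hwm := hN m hm
    obtain ⟨hY0, _⟩ := hYpos n hn
    obtain ⟨hY0', _⟩ := hYpos m hm
    simp only [f, Sigma.mk.injEq] at h
    have hW : walk x n = walk x m := by
      have := h.1
      omega
    have hYY : Y n = Y m := by
      have := eq_of_heq h.2
      omega
    apply states_inj hx0 hx1 hirr hq hp (by omega) hkq (fun m hm => hN m hm) hn hm hW
    have h8 : (q : ℝ) * ht x n = q * ht x m := by rw [hY, hY, hYY]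
    exact mul_left_cancel₀ hqr.ne' h8
  have hBfin : B.Finite := Set.Finite.of_finite_image ((S.finite_toSet).subset (by
    rintro _ ⟨n, hn, rfl⟩
    exact hmaps n hn)) hinj
  have hBcard : B.ncard ≤ S.card := by
    rw [← Set.ncard_coe_finset S]
    exact Set.ncard_le_ncard_of_injOn f hmaps hinj S.finite_toSet
  have hScard : 2 * S.card ≤ q * (K + 1) ^ 2 := by
    simp only [S, Finset.card_sigma, Nat.card_Icc, Nat.add_sub_cancel]
    have hsum : ∀ K : ℕ, 2 * ∑ D ∈ Finset.Icc 1 K, (q * D + q / 2) ≤ q * (K + 1) ^ 2 := by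
      intro K
      induction K with
      | zero => simp
      | succ K ih =>
        rw [Finset.sum_Icc_succ_top (by omega)]
        have e : q * (K + 1 + 1) ^ 2 = q * (K + 1) ^ 2 + (2 * (q * (K + 1)) + q) := by ring
        omega
    exact hsum K
  have hsub : {n | |walk x n| ≤ (K : ℤ)} ⊆ Set.Iio N ∪ B := by
    intro n hn
    rcases Nat.lt_or_ge n N with h | h
    · exact Or.inl h
    · exact Or.inr ⟨h, hn⟩
  have hfin : (Set.Iio N ∪ B).Finite := (Set.finite_Iio N).union hBfin
  refine ⟨hfin.subset hsub, ?_⟩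
  have h9 := Set.ncard_le_ncard hsub hfin
  have h10 := Set.ncard_union_le (Set.Iio N) B
  have h11 : (Set.Iio N).ncard = N := by
    rw [← Finset.coe_range]
    simp
  omega

theorem growth {x : ℝ} (hx : x ∈ Set.Icc (0 : ℝ) 1) (hirr : Irrational x) {q : ℕ} (hq : 0 < q)
    {p : ℤ} (hp : q * takagi x = p) (hcount : (levelSet (takagi x)).Countable) :
    ∃ C : ℕ, ∀ K : ℕ, {n | |walk x n| ≤ (K : ℤ)}.Finite ∧
      2 * {n | |walk x n| ≤ (K : ℤ)}.ncard ≤ q * (K + 1) ^ 2 + C := by
  have hx1 := irrational_lt_one hirr hx.2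
  have hx0 := irrational_pos hirr hx.1
  have hdiv : Tendsto (fun n => |walk x n|) atTop atTop := by
    by_contra h
    obtain ⟨K, hK⟩ := bounded_of_not_diverges h
    exact uncountable_of_bounded hx.1 hx1 hirr hq hp hK hcount
  rcases diverges_cases hdiv with h | h
  · exact pos_growth hx.1 hx1 hirr hq hp h
  · have hirr' : Irrational (1 - x) := by
      have := hirr.ratCast_sub 1
      push_cast at this
      exact this
    have h' : Tendsto (fun n => walk (1 - x) n) atTop atTop := by
      apply h.congr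
      intro n
      rw [walk_one_sub hirr]
    obtain ⟨C, hC⟩ := pos_growth (x := 1 - x) (by linarith) (by linarith) hirr' hq (p := p)
      (by rw [takagi_one_sub, hp]) h'
    refine ⟨C, fun K => ?_⟩
    have e : {n | |walk (1 - x) n| ≤ (K : ℤ)} = {n | |walk x n| ≤ (K : ℤ)} := by
      ext n
      simp only [Set.mem_ofPred_eq]
      rw [walk_one_sub hirr, abs_neg]
    have := hC K
    rwa [e] at this

end Pool.Agent.Work.MP_df9865_an
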