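import Pool.Agent.Work.MP_df9865_an.Growth

open Set Filter Topology

namespace Pool.Agent.Work.MP_df9865_an

/-- The height after `n` digits is `2^n T(x)` minus an integer. -/
lemma ht_form {x : ℝ} (h0 : 0 ≤ x) (h1 : x < 1) (n : ℕ) :
    ∃ c : ℤ, ht x n = 2 ^ n * takagi x - c := by
  induction n with
  | zero => exact ⟨0, by rw [ht_zero h0 h1]; simp⟩
  | succ n ih =>
    obtain ⟨c, hc⟩ := ih
    rcases lt_or_ge (tl x n) (1 / 2) with h | h
    · refine ⟨2 * c, ?_⟩
      rw [ht_succ_of_lt h, hc, pow_succ]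
      push_cast
      ring
    · refine ⟨2 * c + (walk x n + 1), ?_⟩
      rw [ht_succ_of_ge h, hc, pow_succ]
      push_cast
      ring

/-- Height of a purely periodic point. -/
lemma periodic_int {r : ℝ} (h0 : 0 ≤ r) (h1 : r < 1) {l : ℕ} (hper : tl r l = r)
    (D : ℤ) : ∃ c : ℤ, (2 ^ l - 1) ^ 2 * tk D r = c := by
  obtain ⟨c, hc⟩ := ht_form h0 h1 l
  have h2 : ht r l = takagi r + walk r l * r := by
    unfold ht
    rw [hper]
    rfl
  have h3 := floor_add_tl r l
  rw [hper] at h3
  have h4 : (2 ^ l - 1) * takagi r = c + walk r l * r := by linarith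
  have h5 : (2 ^ l - 1) * r = ⌊2 ^ l * r⌋ := by linarith
  refine ⟨(2 ^ l - 1) * c + walk r l * ⌊2 ^ l * r⌋ + D * ((2 ^ l - 1) * ⌊2 ^ l * r⌋), ?_⟩
  unfold tk
  push_cast
  have e : ((2 : ℝ) ^ l - 1) ^ 2 * (takagi r + D * r) =
      (2 ^ l - 1) * ((2 ^ l - 1) * takagi r) + D * ((2 ^ l - 1) * ((2 ^ l - 1) * r)) := by ring
  rw [e, h4, h5, mul_add]
  have e2 : ((2 : ℝ) ^ l - 1) * (walk r l * r) = walk r l * ((2 ^ l - 1) * r) := by ring
  rw [e2, h5]

lemma floor_eq_of_step_eq {u r : ℝ} (hu0 : 0 ≤ u) (hu1 : u < 1) (hr0 : 0 ≤ r) (hr1 : r < 1)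
    {m : ℕ} (h : ∀ i < m, step u i = step r i) : ⌊2 ^ m * r⌋ = ⌊2 ^ m * u⌋ := by
  induction m with
  | zero =>
    have e1 : ⌊u⌋ = 0 := Int.floor_eq_iff.mpr ⟨by simpa using hu0, by simpa using hu1⟩
    have e2 : ⌊r⌋ = 0 := Int.floor_eq_iff.mpr ⟨by simpa using hr0, by simpa using hr1⟩
    rw [pow_zero, one_mul, one_mul, e1, e2]
  | succ m ih =>
    have h1 := ih fun i hi => h i (by omega)
    have h2 := h m (by omega)
    rcases lt_or_ge (tl u m) (1 / 2) with ha | ha
    · rcases lt_or_ge (tl r m) (1 / 2) with hb | hb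
      · rw [floor_succ_of_lt ha, floor_succ_of_lt hb, h1]
      · rw [step_of_lt ha, step_of_ge hb] at h2
        omega
    · rcases lt_or_ge (tl r m) (1 / 2) with hb | hb
      · rw [step_of_ge ha, step_of_lt hb] at h2
        omega
      · rw [floor_succ_of_ge ha, floor_succ_of_ge hb, h1]

lemma step_eq_of_floor_eq {u r : ℝ} {m : ℕ} (h : ⌊2 ^ m * r⌋ = ⌊2 ^ m * u⌋) :
    ∀ i < m, step u i = step r i := by
  induction m with
  | zero => intro i hi; omega
  | succ m ih =>
    rcases lt_or_ge (tl u m) (1 / 2) with ha | ha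
    · rcases lt_or_ge (tl r m) (1 / 2) with hb | hb
      · rw [floor_succ_of_lt ha, floor_succ_of_lt hb] at h
        intro i hi
        rcases Nat.lt_or_ge i m with h' | h'
        · exact ih (by omega) i h'
        · obtain rfl : i = m := by omega
          rw [step_of_lt ha, step_of_lt hb]
      · rw [floor_succ_of_lt ha, floor_succ_of_ge hb] at h
        omega
    · rcases lt_or_ge (tl r m) (1 / 2) with hb | hb
      · rw [floor_succ_of_ge ha, floor_succ_of_lt hb] at h
        omega
      · rw [floor_succ_of_ge ha, floor_succ_of_ge hb] at h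
        intro i hi
        rcases Nat.lt_or_ge i m with h' | h'
        · exact ih (by omega) i h'
        · obtain rfl : i = m := by omega
          rw [step_of_ge ha, step_of_ge hb]

lemma abs_walk_le (x : ℝ) (n : ℕ) : |walk x n| ≤ n := by
  induction n with
  | zero => simp [walk_zero]
  | succ n ih =>
    rw [walk_succ]
    have h1 := abs_add_le (walk x n) (step x n)
    have h2 : |step x n| = 1 := by rcases step_eq x n with h | h <;> rw [h] <;> rfl
    push_cast
    omega

/-- The oscillation of the tilted Takagi function. -/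
lemma abs_tk_sub_le (E : ℤ) {a b : ℝ} (ha0 : 0 ≤ a) (ha1 : a ≤ 1) (hb0 : 0 ≤ b) (hb1 : b ≤ 1) :
    |tk E a - tk E b| ≤ |(E : ℝ)| + 1 := by
  have e : tk E a - tk E b = (takagi a - takagi b) + E * (a - b) := by unfold tk; ring
  rw [e]
  have h1 := abs_add_le (takagi a - takagi b) (E * (a - b))
  have h2 : |takagi a - takagi b| ≤ 1 := by
    rw [abs_le]
    have := takagi_nonneg a
    have := takagi_nonneg b
    have := takagi_le_one a
    have := takagi_le_one b
    constructor <;> linarith
  have h3 : |(E : ℝ) * (a - b)| ≤ |(E : ℝ)| := by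
    rw [abs_mul]
    have h4 : |a - b| ≤ 1 := by
      rw [abs_le]
      constructor <;> linarith
    nlinarith [abs_nonneg (E : ℝ)]
  linarith

/-- Core of the repetition argument: no long repetitions at a high level. -/
lemma no_repetition {x : ℝ} (hx0 : 0 ≤ x) (hx1 : x < 1) (hirr : Irrational x) {q : ℕ} (hq : 0 < q)
    {p : ℤ} (hp : q * takagi x = p) {n k : ℕ} (hk2 : 2 ≤ k) (hkq : q < 3 * 2 ^ k)
    (hgt : ∀ m, n ≤ m → (k : ℤ) < walk x m) {l m : ℕ} (hl : 0 < l)
    (hrep : ∀ i, n ≤ i → i + l < n + m → step x i = step x (i + l)) :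
    (2 : ℝ) ^ m ≤ q * 4 ^ l * (|(walk x n : ℝ)| + m + 1) := by
  set u := tl x n with hu
  have hu0 : 0 ≤ u := tl_nonneg x n
  have hu1 : u < 1 := tl_lt_one x n
  have hmem := fixpt_mem x n hl
  set r : ℝ := (fixpt x n l : ℝ) with hr
  have hqr : (0 : ℝ) < q := by exact_mod_cast hq
  have h2l : (1 : ℝ) < 2 ^ l := one_lt_pow₀ (by norm_num) (by omega)
  obtain ⟨Y, hY⟩ := ht_int hx0 hx1 hp n
  -- the common part: closeness and integrality give a contradiction
  have finish : ∀ (v : ℝ), 0 ≤ v → v ≤ 1 → r = splice u m v →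
      (∃ c : ℤ, (2 ^ l - 1) ^ 2 * tk (walk x n) r = c) → tk (walk x n) r ≠ ht x n →
      (2 : ℝ) ^ m ≤ q * 4 ^ l * (|(walk x n : ℝ)| + m + 1) := by
    rintro v hv0 hv1 hv ⟨c, hc⟩ hne
    have h1 := tk_splice (walk x n) u m hv0 hv1
    rw [← hv] at h1
    have h2 := abs_tk_sub_le (walk x n + walk u m) hv0 hv1 (tl_nonneg u m) (tl_lt_one u m).le
    have h3 : |((walk x n + walk u m : ℤ) : ℝ)| ≤ |(walk x n : ℝ)| + m := by
      have h4 := abs_add_le (walk x n : ℝ) (walk u m : ℝ)
      have h5 : |(walk u m : ℝ)| ≤ m := by exact_mod_cast abs_walk_le u m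
      push_cast
      linarith
    have h6 : |tk (walk x n) r - ht x n| * 2 ^ m ≤ |(walk x n : ℝ)| + m + 1 := by
      have h7 : tk (walk x n) r - ht x n = (tk (walk x n + walk u m) v -
          tk (walk x n + walk u m) (tl u m)) / 2 ^ m := h1
      rw [h7, abs_div, abs_of_pos (show (0 : ℝ) < 2 ^ m by positivity)]
      rw [div_mul_cancel₀ _ (by positivity)]
      linarith
    have h8 : (1 : ℝ) ≤ |q * (2 ^ l - 1) ^ 2 * (tk (walk x n) r - ht x n)| := by
      have h9 : q * (2 ^ l - 1) ^ 2 * (tk (walk x n) r - ht x n) =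
          ((q * c - (2 ^ l - 1) ^ 2 * Y : ℤ) : ℝ) := by
        push_cast
        rw [← hc, ← hY]
        ring
      have h10 : q * (2 ^ l - 1) ^ 2 * (tk (walk x n) r - ht x n) ≠ 0 := by
        apply mul_ne_zero
        · have : ((2 : ℝ) ^ l - 1) ≠ 0 := by linarith
          positivity
        · exact sub_ne_zero.mpr hne
      rw [h9] at h10 ⊢
      have h11 : (q * c - (2 ^ l - 1) ^ 2 * Y : ℤ) ≠ 0 := by exact_mod_cast h10
      have h12 : (1 : ℤ) ≤ |(q * c - (2 ^ l - 1) ^ 2 * Y : ℤ)| := Int.one_le_abs h11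
      exact_mod_cast h12
    rw [abs_mul, abs_of_pos (show (0 : ℝ) < q * (2 ^ l - 1) ^ 2 by
      have : (0 : ℝ) < 2 ^ l - 1 := by linarith
      positivity)] at h8
    have h13 : ((2 : ℝ) ^ l - 1) ^ 2 ≤ 4 ^ l := by
      have h14 : (4 : ℝ) ^ l = (2 ^ l) ^ 2 := by
        rw [← pow_mul, mul_comm l 2, pow_mul]
        norm_num
      rw [h14]
      apply pow_le_pow_left₀ (by linarith)
      linarith
    have h15 : (2 : ℝ) ^ m ≤ q * (2 ^ l - 1) ^ 2 * (|tk (walk x n) r - ht x n| * 2 ^ m) := by
      have h16 := mul_le_mul_of_nonneg_right h8 (show (0 : ℝ) ≤ 2 ^ m by positivity)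
      linarith
    have h17 : q * ((2 : ℝ) ^ l - 1) ^ 2 * (|tk (walk x n) r - ht x n| * 2 ^ m) ≤
        q * 4 ^ l * (|(walk x n : ℝ)| + m + 1) := by
      apply mul_le_mul _ h6 (by positivity) (by positivity)
      exact mul_le_mul_of_nonneg_left h13 hqr.le
    linarith
  have hfl : (⌊2 ^ l * u⌋ : ℝ) = (2 ^ l - 1) * r := by
    have hne : (2 : ℝ) ^ l - 1 ≠ 0 := by linarith
    rw [hr]
    unfold fixpt
    push_cast
    rw [← hu]
    field_simp
  have hrepu : ∀ i, i + l < m → step u i = step u (i + l) := by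
    intro i hi
    rw [hu, step_tl, step_tl, ← add_assoc]
    exact hrep (n + i) (by omega) (by omega)
  rcases hmem.2.lt_or_eq with hr1 | hr1
  · -- `r < 1`
    have hflr : ⌊2 ^ l * r⌋ = ⌊2 ^ l * u⌋ := by
      rw [Int.floor_eq_iff]
      rw [hfl]
      constructor <;> linarith [hmem.1]
    have hper : tl r l = r := by
      have h1 := floor_add_tl r l
      rw [hflr, hfl] at h1
      linarith
    have hsteps : ∀ i < m, step u i = step r i := by
      intro i
      induction i using Nat.strong_induction_on with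
      | _ i ih =>
        intro hi
        rcases Nat.lt_or_ge i l with h | h
        · exact step_eq_of_floor_eq hflr i h
        · obtain ⟨j, rfl⟩ : ∃ j, i = j + l := ⟨i - l, by omega⟩
          rw [← hrepu j hi, ih j (by omega) (by omega), add_comm j l, ← step_tl, hper]
    have hflm := floor_eq_of_step_eq hu0 hu1 hmem.1 hr1 hsteps
    apply finish (tl r m) (tl_nonneg _ _) (tl_lt_one _ _).le (splice_of_floor_eq hflm).symm
      (periodic_int hmem.1 hr1 hper _)
    intro heq
    have h1 := rigid_gen hx0 hx1 hirr hq hp hk2 hkq hgt hmem.1 hr1 heq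
    exact (irrational_tl hirr n) ⟨fixpt x n l, h1⟩
  · -- `r = 1`
    have hones : ∀ i < m, step u i = -1 := by
      intro i
      induction i using Nat.strong_induction_on with
      | _ i ih =>
        intro hi
        rcases Nat.lt_or_ge i l with h | h
        · -- the first `l` digits are ones
          have hb : ⌊2 ^ l * u⌋ = 2 ^ l - 1 := by
            have : (⌊2 ^ l * u⌋ : ℝ) = ((2 ^ l - 1 : ℤ) : ℝ) := by
              rw [hfl, hr1]
              push_cast
              ring
            exact_mod_cast this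
          have key : ∀ l : ℕ, ⌊2 ^ l * u⌋ = 2 ^ l - 1 → ∀ i < l, step u i = -1 := by
            intro l
            induction l with
            | zero => intro _ i hi; omega
            | succ l ihl =>
              intro hfl i hi
              rw [pow_succ (2 : ℤ)] at hfl
              rcases lt_or_ge (tl u l) (1 / 2) with ha | ha
              · rw [floor_succ_of_lt ha] at hfl
                omega
              · rw [floor_succ_of_ge ha] at hfl
                rcases Nat.lt_or_ge i l with h' | h'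
                · exact ihl (by omega) i h'
                · obtain rfl : i = l := by omega
                  exact step_of_ge ha
          exact key l hb i h
        · obtain ⟨j, rfl⟩ : ∃ j, i = j + l := ⟨i - l, by omega⟩
          rw [← hrepu j hi, ih j (by omega) (by omega)]
    have hflm : ∀ m', m' ≤ m → ⌊2 ^ m' * u⌋ = 2 ^ m' - 1 := by
      intro m'
      induction m' with
      | zero =>
        intro _
        have e1 : ⌊u⌋ = 0 := Int.floor_eq_iff.mpr ⟨by simpa using hu0, by simpa using hu1⟩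
        simp [e1]
      | succ m' ih =>
        intro hm'
        have h1 := hones m' (by omega)
        rcases lt_or_ge (tl u m') (1 / 2) with ha | ha
        · rw [step_of_lt ha] at h1
          omega
        · rw [floor_succ_of_ge ha, ih (by omega), pow_succ]
          ring
    have hsp : r = splice u m 1 := by
      have h1 : r = 1 := hr1
      rw [h1]
      unfold splice
      rw [hflm m le_rfl]
      push_cast
      field_simp
      ring
    have htk1 : tk (walk x n) 1 = walk x n := by
      unfold tk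
      have : takagi 1 = 0 := by
        have h1 := takagi_one_sub 1
        rw [sub_self, takagi_zero] at h1
        exact h1.symm
      rw [this]
      ring
    have hr1' : r = 1 := hr1
    apply finish 1 zero_le_one le_rfl hsp
    · refine ⟨(2 ^ l - 1) ^ 2 * walk x n, ?_⟩
      rw [hr1', htk1]
      push_cast
      ring
    · rw [hr1', htk1]
      exact fun h => no_diag hirr hk2 hgt h.symm

/-- `x` has long repetitions in its binary expansion. -/
def Stammers (x : ℝ) : Prop :=
  ∀ C : ℕ, ∃ n l m : ℕ, 0 < l ∧ (∀ i, n ≤ i → i + l < n + m → step x i = step x (i + l)) ∧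
    (C : ℤ) * 4 ^ l * (|walk x n| + m + 1) < 2 ^ m

lemma step_one_sub {x : ℝ} (hirr : Irrational x) (n : ℕ) : step (1 - x) n = - step x n := by
  have h1 := walk_one_sub hirr (n + 1)
  rw [walk_succ, walk_succ, walk_one_sub hirr n] at h1
  linarith

lemma Stammers.one_sub {x : ℝ} (hirr : Irrational x) (h : Stammers x) : Stammers (1 - x) := by
  intro C
  obtain ⟨n, l, m, hl, hrep, hC⟩ := h C
  refine ⟨n, l, m, hl, ?_, ?_⟩
  · intro i hi1 hi2
    rw [step_one_sub hirr, step_one_sub hirr, hrep i hi1 hi2]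
  · rw [walk_one_sub hirr, abs_neg]
    exact hC

lemma not_stammers_of_pos {x : ℝ} (hx0 : 0 ≤ x) (hx1 : x < 1) (hirr : Irrational x) {q : ℕ}
    (hq : 0 < q) {p : ℤ} (hp : q * takagi x = p)
    (hdiv : Tendsto (fun n => walk x n) atTop atTop) : ¬ Stammers x := by
  intro hst
  set k := q + 2 with hk
  have hkq : q < 3 * 2 ^ k := by
    have h1 : k < 2 ^ k := Nat.lt_two_pow_self
    omega
  have h1 := hdiv.eventually_gt_atTop (k : ℤ)
  rw [eventually_atTop] at h1
  obtain ⟨N, hN⟩ := h1
  obtain ⟨n, l, m, hl, hrep, hC⟩ := hst (q * 2 ^ N)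
  -- shift the block
  obtain ⟨s, hs⟩ : ∃ s, max n N = n + s := ⟨max n N - n, by omega⟩
  have hsN : s ≤ N := by omega
  have hC' : ((q : ℝ) * 2 ^ N) * 4 ^ l * (|(walk x n : ℝ)| + m + 1) < 2 ^ m := by exact_mod_cast hC
  have hqr : (1 : ℝ) ≤ q := by exact_mod_cast hq
  have h4l : (1 : ℝ) ≤ 4 ^ l := one_le_pow₀ (by norm_num)
  have hNm : N < m := by
    by_contra hcon
    push Not at hcon
    have h2 : (2 : ℝ) ^ m ≤ 2 ^ N := pow_le_pow_right₀ (by norm_num) hcon
    have h3 : (1 : ℝ) ≤ |(walk x n : ℝ)| + m + 1 := by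
      have := abs_nonneg (walk x n : ℝ)
      have : (0 : ℝ) ≤ m := by positivity
      linarith
    have h4 : (2 : ℝ) ^ N ≤ ((q : ℝ) * 2 ^ N) * 4 ^ l * (|(walk x n : ℝ)| + m + 1) := by
      have h5 : (2 : ℝ) ^ N ≤ (q : ℝ) * 2 ^ N := by
        have : (0 : ℝ) < 2 ^ N := by positivity
        nlinarith
      have h6 : (q : ℝ) * 2 ^ N ≤ ((q : ℝ) * 2 ^ N) * 4 ^ l := by
        have : (0 : ℝ) < (q : ℝ) * 2 ^ N := by positivity
        nlinarith
      have h7 : ((q : ℝ) * 2 ^ N) * 4 ^ l ≤ ((q : ℝ) * 2 ^ N) * 4 ^ l * (|(walk x n : ℝ)| + m + 1) := by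
        have : (0 : ℝ) < ((q : ℝ) * 2 ^ N) * 4 ^ l := by positivity
        nlinarith
      linarith
    linarith
  obtain ⟨m', hm'⟩ : ∃ m', m = s + m' := ⟨m - s, by omega⟩
  have hmain := no_repetition hx0 hx1 hirr hq hp (n := n + s) (by omega) hkq
    (fun j hj => hN j (by omega)) hl (m := m') (fun i hi1 hi2 => hrep i (by omega) (by omega))
  have hw : |(walk x (n + s) : ℝ)| ≤ |(walk x n : ℝ)| + s := by
    rw [walk_tl]
    push_cast
    have h2 := abs_add_le (walk x n : ℝ) (walk (tl x n) s : ℝ)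
    have h3 : |(walk (tl x n) s : ℝ)| ≤ s := by exact_mod_cast abs_walk_le (tl x n) s
    linarith
  have h8 : (2 : ℝ) ^ m ≤ ((q : ℝ) * 2 ^ N) * 4 ^ l * (|(walk x n : ℝ)| + m + 1) := by
    have e1 : (2 : ℝ) ^ m = 2 ^ s * 2 ^ m' := by rw [hm', pow_add]
    have h9 : (2 : ℝ) ^ s ≤ 2 ^ N := pow_le_pow_right₀ (by norm_num) hsN
    have h10 : (2 : ℝ) ^ m' ≤ q * 4 ^ l * (|(walk x n : ℝ)| + m + 1) := by
      apply hmain.trans
      apply mul_le_mul_of_nonneg_left _ (by positivity)
      rw [hm']
      push_cast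
      linarith
    rw [e1]
    calc (2 : ℝ) ^ s * 2 ^ m' ≤ 2 ^ N * (q * 4 ^ l * (|(walk x n : ℝ)| + m + 1)) :=
          mul_le_mul h9 h10 (by positivity) (by positivity)
      _ = _ := by ring
  linarith

theorem stammer_uncountable {x : ℝ} (hx : x ∈ Set.Icc (0 : ℝ) 1) (hirr : Irrational x)
    (hst : Stammers x) (hrat : ∃ y : ℚ, takagi x = y) : ¬ (levelSet (takagi x)).Countable := by
  intro hcount
  obtain ⟨y, hy⟩ := hrat
  have hx1 := irrational_lt_one hirr hx.2
  have hx0 := irrational_pos hirr hx.1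
  have hdiv : Tendsto (fun n => |walk x n|) atTop atTop := by
    by_contra h
    obtain ⟨K, hK⟩ := bounded_of_not_diverges h
    exact uncountable_of_bounded hx.1 hx1 hirr y.den_pos (rat_form hy) hK hcount
  rcases diverges_cases hdiv with h | h
  · exact not_stammers_of_pos hx.1 hx1 hirr y.den_pos (rat_form hy) h hst
  · have hirr' : Irrational (1 - x) := by
      have := hirr.ratCast_sub 1
      push_cast at this
      exact this
    have h' : Tendsto (fun n => walk (1 - x) n) atTop atTop := by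
      apply h.congr
      intro n
      rw [walk_one_sub hirr]
    exact not_stammers_of_pos (x := 1 - x) (by linarith) (by linarith) hirr' y.den_pos
      (p := y.num) (by rw [takagi_one_sub]; exact rat_form hy) h' (hst.one_sub hirr)

end Pool.Agent.Work.MP_df9865_an
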