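import Pool.Agent.Work.MP_df9865_an.Growth
import Pool.Agent.Work.MP_df9865_an.Stammer

/-!
# Repeated blocks of an escaping orbit lie on lines
-/

open Set Filter Topology

namespace Pool.Agent.Work.MP_df9865_an

/-- An irrational point with rational height whose walk is large from the time `N` on. -/
structure Esc (x : ℝ) (q N : ℕ) : Prop where
  hx0 : 0 ≤ x
  hx1 : x < 1
  irr : Irrational x
  hq : 0 < q
  rat : ∃ p : ℤ, (q : ℝ) * takagi x = p
  hgt : ∃ k : ℕ, 2 ≤ k ∧ q < 3 * 2 ^ k ∧ ∀ m, N ≤ m → (k : ℤ) < walk x m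

lemma takagi_mod (j : ℕ) : ∀ a b : ℝ, |takagi a - takagi b| ≤ j * |a - b| + (1 / 2) ^ j := by
  induction j with
  | zero =>
    intro a b
    have h1 := takagi_nonneg a
    have h2 := takagi_nonneg b
    have h3 := takagi_le_one a
    have h4 := takagi_le_one b
    simp only [Nat.cast_zero, zero_mul, pow_zero, zero_add, abs_le]
    constructor <;> linarith
  | succ j ih =>
    intro a b
    have h1 := ih (2 * a) (2 * b)
    have h2 := phi_lipschitz a b
    have e1 : takagi a - takagi b = (phi a - phi b) + (takagi (2 * a) - takagi (2 * b)) / 2 := by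
      rw [takagi_rec a, takagi_rec b]
      ring
    have e2 : |2 * a - 2 * b| = 2 * |a - b| := by
      rw [← mul_sub, abs_mul, abs_of_pos (by norm_num : (0 : ℝ) < 2)]
    rw [e2] at h1
    rw [e1]
    have h3 := abs_add_le (phi a - phi b) ((takagi (2 * a) - takagi (2 * b)) / 2)
    rw [abs_div, abs_of_pos (by norm_num : (0 : ℝ) < 2)] at h3
    rw [pow_succ]
    push_cast
    linarith

/-- The code of the block of length `L` at position `n`. -/
noncomputable def blk (x : ℝ) (L n : ℕ) : ℤ := ⌊2 ^ L * tl x n⌋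

lemma close_of_blk {x : ℝ} {L n m : ℕ} (h : blk x L n = blk x L m) :
    |tl x n - tl x m| ≤ (1 / 2) ^ L := by
  have h1 := Int.abs_sub_lt_one_of_floor_eq_floor h
  rw [← mul_sub, abs_mul, abs_of_pos (by positivity : (0 : ℝ) < 2 ^ L)] at h1
  rw [one_div_pow, le_div_iff₀ (by positivity)]
  linarith

lemma ht_close {x : ℝ} {L n m : ℕ} (h : blk x L n = blk x L m) :
    |ht x m - ht x n - (walk x m - walk x n) * tl x n| ≤ (|(walk x m : ℝ)| + L + 1) / 2 ^ L := by
  have h1 : splice (tl x n) L (tl (tl x m) L) = tl x m := splice_of_floor_eq h.symm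
  have h2 := tk_splice (walk x m) (tl x n) L (tl_nonneg (tl x m) L) (tl_lt_one (tl x m) L).le
  rw [h1] at h2
  have h3 := abs_tk_sub_le (walk x m + walk (tl x n) L) (tl_nonneg (tl x m) L)
    (tl_lt_one (tl x m) L).le (tl_nonneg (tl x n) L) (tl_lt_one (tl x n) L).le
  have h4 : |((walk x m + walk (tl x n) L : ℤ) : ℝ)| ≤ |(walk x m : ℝ)| + L := by
    push_cast
    have h5 := abs_add_le (walk x m : ℝ) (walk (tl x n) L : ℝ)
    have h6 : |(walk (tl x n) L : ℝ)| ≤ L := by exact_mod_cast abs_walk_le (tl x n) L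
    linarith
  have e1 : ht x m - ht x n - (walk x m - walk x n) * tl x n
      = tk (walk x m) (tl x m) - tk (walk x m) (tl x n) := by
    unfold ht tk
    ring
  rw [e1, h2, abs_div, abs_of_pos (by positivity : (0 : ℝ) < 2 ^ L)]
  exact div_le_div_of_nonneg_right (by linarith) (by positivity)

section

variable {x : ℝ} {q N : ℕ}

lemma Esc.inj (h : Esc x q N) {n m : ℕ} (hn : N ≤ n) (hm : N ≤ m)
    (hD : walk x n = walk x m) (hy : ht x n = ht x m) : n = m := by
  obtain ⟨k, hk2, hkq, hgt⟩ := h.hgt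
  obtain ⟨p, hp⟩ := h.rat
  exact states_inj h.hx0 h.hx1 h.irr h.hq hp hk2 hkq hgt hn hm hD hy

lemma Esc.int (h : Esc x q N) (n : ℕ) : ∃ Y : ℤ, (q : ℝ) * ht x n = Y := by
  obtain ⟨p, hp⟩ := h.rat
  exact ht_int h.hx0 h.hx1 hp n

lemma Esc.pos (h : Esc x q N) {n : ℕ} (hn : N ≤ n) : 0 < walk x n := by
  obtain ⟨k, hk2, hkq, hgt⟩ := h.hgt
  have := hgt n hn
  omega

/-- Two positions with the same block. -/
lemma Esc.pair (h : Esc x q N) {L n m : ℕ} (hn : N ≤ n) (hm : N ≤ m) (hne : n ≠ m) {K : ℝ}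
    (hKm : (walk x m : ℝ) ≤ K) (hb : blk x L n = blk x L m)
    (hL : q * (K + L + 1) < 2 ^ L) :
    ∃ A : ℚ, (A.den : ℤ) ∣ walk x m - walk x n ∧ walk x m - walk x n ≠ 0 ∧
      |(q : ℝ) * tl x n - A| * A.den ≤ q * (K + L + 1) / 2 ^ L := by
  obtain ⟨Yn, hYn⟩ := h.int n
  obtain ⟨Ym, hYm⟩ := h.int m
  have hq : (0 : ℝ) < q := by exact_mod_cast h.hq
  have h2L : (0 : ℝ) < 2 ^ L := by positivity
  have hpos := h.pos hm
  have habs : |(walk x m : ℝ)| = walk x m := abs_of_pos (by exact_mod_cast hpos)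
  have h1 := ht_close hb
  rw [habs] at h1
  have h2 : |(Ym : ℝ) - Yn - (walk x m - walk x n) * (q * tl x n)| ≤
      q * (K + L + 1) / 2 ^ L := by
    have e : (Ym : ℝ) - Yn - (walk x m - walk x n) * (q * tl x n)
        = q * (ht x m - ht x n - (walk x m - walk x n) * tl x n) := by
      rw [← hYm, ← hYn]
      ring
    rw [e, abs_mul, abs_of_pos hq, mul_div_assoc]
    refine mul_le_mul_of_nonneg_left (h1.trans ?_) hq.le
    exact div_le_div_of_nonneg_right (by linarith) h2L.le
  have hlt : q * (K + L + 1) / 2 ^ L < 1 := by rwa [div_lt_one h2L]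
  have hD : walk x m - walk x n ≠ 0 := by
    intro hD
    have hD' : (walk x m : ℝ) - walk x n = 0 := by exact_mod_cast hD
    rw [hD', zero_mul, sub_zero] at h2
    have h3 : |((Ym - Yn : ℤ) : ℝ)| < 1 := by
      push_cast
      linarith
    have h4 : |Ym - Yn| < 1 := by exact_mod_cast h3
    have h5 : Ym = Yn := by
      have := Int.abs_lt_one_iff.1 h4
      omega
    have h6 : ht x n = ht x m := by
      have : (q : ℝ) * ht x n = q * ht x m := by rw [hYn, hYm, h5]
      exact mul_left_cancel₀ hq.ne' this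
    exact hne (h.inj hn hm (by omega) h6)
  refine ⟨(Ym - Yn : ℚ) / (walk x m - walk x n : ℤ), ?_, hD, ?_⟩
  · have e : ((Ym : ℚ) - Yn) / ((walk x m - walk x n : ℤ) : ℚ)
        = ((Ym - Yn : ℤ) : ℚ) / ((walk x m - walk x n : ℤ) : ℚ) := by push_cast; rfl
    rw [e, ← Rat.divInt_eq_div]
    exact Rat.den_dvd _ _
  · set A : ℚ := (Ym - Yn : ℚ) / (walk x m - walk x n : ℤ) with hA
    have hDr : ((walk x m - walk x n : ℤ) : ℝ) ≠ 0 := by exact_mod_cast hD
    have hdvd : (A.den : ℤ) ∣ walk x m - walk x n := by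
      have e : A = ((Ym - Yn : ℤ) : ℚ) / ((walk x m - walk x n : ℤ) : ℚ) := by
        rw [hA]; push_cast; rfl
      rw [e, ← Rat.divInt_eq_div]
      exact Rat.den_dvd _ _
    have hle : (A.den : ℝ) ≤ |((walk x m - walk x n : ℤ) : ℝ)| := by
      have := Int.le_of_dvd (abs_pos.2 hD) ((dvd_abs _ _).2 hdvd)
      exact_mod_cast this
    have hAr : (A : ℝ) = ((Ym : ℝ) - Yn) / ((walk x m - walk x n : ℤ) : ℝ) := by
      rw [hA]; push_cast; rfl
    have e2 : |(q : ℝ) * tl x n - A| * |((walk x m - walk x n : ℤ) : ℝ)|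
        = |(Ym : ℝ) - Yn - (walk x m - walk x n) * (q * tl x n)| := by
      rw [← abs_mul, hAr, sub_mul, div_mul_cancel₀ _ hDr, ← abs_neg]
      congr 1
      push_cast
      ring
    calc |(q : ℝ) * tl x n - A| * A.den ≤ |(q : ℝ) * tl x n - A| *
          |((walk x m - walk x n : ℤ) : ℝ)| := mul_le_mul_of_nonneg_left hle (abs_nonneg _)
      _ ≤ _ := by rw [e2]; exact h2

/-- Positions with the same rational number lie on a line. -/
lemma Esc.line (h : Esc x q N) {L n m : ℕ} (hn : N ≤ n) (hm : N ≤ m) {K : ℝ}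
    (hKn : (walk x n : ℝ) ≤ K) (hKm : (walk x m : ℝ) ≤ K) {A : ℚ} (hAK : (A.den : ℝ) ≤ K)
    (h1 : |(q : ℝ) * tl x n - A| * A.den ≤ q * (K + L + 1) / 2 ^ L)
    (h2 : |(q : ℝ) * tl x m - A| * A.den ≤ q * (K + L + 1) / 2 ^ L)
    (hL : 16 * q * (K + L + 1) ^ 2 ≤ 2 ^ L) {Yn Ym : ℤ} (hYn : (q : ℝ) * ht x n = Yn)
    (hYm : (q : ℝ) * ht x m = Ym) :
    (A.den : ℤ) * (Yn - Ym) = A.num * (walk x n - walk x m) := by
  have hq : (0 : ℝ) < q := by exact_mod_cast h.hq
  have h2L : (0 : ℝ) < 2 ^ L := by positivity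
  have hb : (0 : ℝ) < A.den := by exact_mod_cast A.den_pos
  have hb1 : (1 : ℝ) ≤ A.den := by exact_mod_cast A.den_pos
  have hK0 : 0 < K := by linarith
  have hL0 : (0 : ℝ) ≤ L := by positivity
  set S : ℝ := K + L + 1 with hS
  set Δ : ℝ := q * S / 2 ^ L with hΔ
  have hpn : (0 : ℝ) < walk x n := by exact_mod_cast h.pos hn
  have hpm : (0 : ℝ) < walk x m := by exact_mod_cast h.pos hm
  set en := (q : ℝ) * tl x n - A with hen
  set em := (q : ℝ) * tl x m - A with hem
  set Z : ℤ := (A.den : ℤ) * (Yn - Ym) - A.num * (walk x n - walk x m) with hZ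
  have hnum : (A.num : ℝ) = A * A.den := by
    have := Rat.mul_den_eq_num A
    exact_mod_cast this.symm
  have hZr : (Z : ℝ) = A.den * q * (takagi (tl x n) - takagi (tl x m))
      + A.den * (walk x n * en) - A.den * (walk x m * em) := by
    rw [hZ]
    push_cast
    rw [hnum, ← hYn, ← hYm, hen, hem]
    unfold ht tk
    ring
  have hT := takagi_mod L (tl x n) (tl x m)
  have hdist : A.den * (q * |tl x n - tl x m|) ≤ 2 * Δ := by
    have e1 : q * |tl x n - tl x m| = |en - em| := by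
      rw [hen, hem]
      rw [show (q : ℝ) * tl x n - A - (q * tl x m - A) = q * (tl x n - tl x m) by ring, abs_mul,
        abs_of_pos hq]
    rw [e1]
    have e2 := abs_sub en em
    have e3 := mul_le_mul_of_nonneg_left e2 hb.le
    linarith
  have hΔ0 : 0 ≤ Δ := by positivity
  have t1 : |A.den * q * (takagi (tl x n) - takagi (tl x m))| ≤ 2 * L * Δ + K * q / 2 ^ L := by
    rw [abs_mul, abs_of_pos (by positivity : (0 : ℝ) < A.den * q)]
    have e1 := mul_le_mul_of_nonneg_left hT (by positivity : (0 : ℝ) ≤ A.den * q)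
    have e2 : (L : ℝ) * (A.den * (q * |tl x n - tl x m|)) ≤ L * (2 * Δ) :=
      mul_le_mul_of_nonneg_left hdist hL0
    have e3 : (A.den : ℝ) * q * (1 / 2) ^ L ≤ K * q / 2 ^ L := by
      rw [one_div_pow, mul_one_div]
      exact div_le_div_of_nonneg_right (mul_le_mul_of_nonneg_right hAK hq.le) h2L.le
    calc (A.den : ℝ) * q * |takagi (tl x n) - takagi (tl x m)|
        ≤ A.den * q * (L * |tl x n - tl x m| + (1 / 2) ^ L) := e1
      _ = L * (A.den * (q * |tl x n - tl x m|)) + A.den * q * (1 / 2) ^ L := by ring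
      _ ≤ _ := by linarith
  have t2 : |A.den * (walk x n * en)| ≤ K * Δ := by
    rw [abs_mul, abs_mul, abs_of_pos hb, abs_of_pos hpn]
    calc (A.den : ℝ) * (walk x n * |en|) = walk x n * (|en| * A.den) := by ring
      _ ≤ K * Δ := mul_le_mul hKn h1 (by positivity) hK0.le
  have t3 : |A.den * (walk x m * em)| ≤ K * Δ := by
    rw [abs_mul, abs_mul, abs_of_pos hb, abs_of_pos hpm]
    calc (A.den : ℝ) * (walk x m * |em|) = walk x m * (|em| * A.den) := by ring
      _ ≤ K * Δ := mul_le_mul hKm h2 (by positivity) hK0.le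
  have hZabs : |(Z : ℝ)| < 1 := by
    rw [hZr]
    have e1 := abs_sub (A.den * q * (takagi (tl x n) - takagi (tl x m))
      + A.den * (walk x n * en)) (A.den * (walk x m * em))
    have e2 := abs_add_le (A.den * q * (takagi (tl x n) - takagi (tl x m)))
      (A.den * (walk x n * en))
    have e3 : 2 * L * Δ + K * q / 2 ^ L + K * Δ + K * Δ ≤ 3 * (q * S ^ 2) / 2 ^ L := by
      have : 2 * L * Δ + K * q / 2 ^ L + K * Δ + K * Δ = (q * (2 * (K + L) * S + K)) / 2 ^ L := by
        rw [hΔ]; ring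
      rw [this]
      refine div_le_div_of_nonneg_right ?_ h2L.le
      have : 2 * (K + L) * S + K ≤ 3 * S ^ 2 := by
        rw [hS]
        nlinarith
      calc (q : ℝ) * (2 * (K + L) * S + K) ≤ q * (3 * S ^ 2) :=
            mul_le_mul_of_nonneg_left this hq.le
        _ = _ := by ring
    have e4 : 3 * (q * S ^ 2) / 2 ^ L < 1 := by
      rw [div_lt_one h2L]
      have : 0 < (q : ℝ) * S ^ 2 := by positivity
      linarith
    linarith
  have hZ0 : Z = 0 := by
    have : |Z| < 1 := by exact_mod_cast hZabs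
    exact Int.abs_lt_one_iff.1 this
  omega

/-- A small denominator is impossible (one rational). -/
lemma Esc.small_one (h : Esc x q N) (A : ℚ) : ∃ δ : ℝ, 0 < δ ∧ ∀ n, N ≤ n →
    |(q : ℝ) * tl x n - A| * (walk x n + 1) < δ → False := by
  have hq : (0 : ℝ) < q := by exact_mod_cast h.hq
  have hw : ∀ n, N ≤ n → (1 : ℝ) ≤ walk x n + 1 := by
    intro n hn
    have : (0 : ℝ) < walk x n := by exact_mod_cast h.pos hn
    linarith
  rcases lt_or_ge (A : ℝ) 0 with hA0 | hA0
  · refine ⟨-A, by linarith, fun n hn hlt => ?_⟩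
    have h1 := tl_nonneg x n
    have h2 : -(A : ℝ) ≤ |(q : ℝ) * tl x n - A| := by
      have := le_abs_self ((q : ℝ) * tl x n - A)
      have h3 : 0 ≤ (q : ℝ) * tl x n := by positivity
      linarith
    have h3 := mul_le_mul h2 (hw n hn) zero_le_one (abs_nonneg _)
    linarith
  rcases lt_or_ge (q : ℝ) A with hA1 | hA1
  · refine ⟨A - q, by linarith, fun n hn hlt => ?_⟩
    have h1 := (tl_lt_one x n).le
    have h2 : (A : ℝ) - q ≤ |(q : ℝ) * tl x n - A| := by
      have := neg_le_abs ((q : ℝ) * tl x n - A)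
      have h3 : (q : ℝ) * tl x n ≤ q * 1 := mul_le_mul_of_nonneg_left h1 hq.le
      linarith
    have h3 := mul_le_mul h2 (hw n hn) zero_le_one (abs_nonneg _)
    linarith
  set α : ℝ := A / q with hα
  have hα0 : 0 ≤ α := by positivity
  have hα1 : α ≤ 1 := by rw [hα, div_le_one hq]; exact hA1
  have hAα : (A : ℝ) = q * α := by rw [hα]; field_simp
  obtain ⟨b, hb⟩ : ∃ b : ℝ, b = ((A.den : ℕ) : ℝ) := ⟨_, rfl⟩
  have hb0 : 0 < b := by rw [hb]; exact_mod_cast A.den_pos
  set z : ℝ := b * q * takagi α with hz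
  have hnum : (A.num : ℝ) = A * b := by
    have := Rat.mul_den_eq_num A
    rw [hb]
    exact_mod_cast this.symm
  -- the gap
  obtain ⟨ρ, hρ0, hρ⟩ : ∃ ρ : ℝ, 0 < ρ ∧ ∀ Z : ℤ, |(Z : ℝ) - z| < ρ → (Z : ℝ) = z := by
    by_cases hzi : ∃ Z₀ : ℤ, (Z₀ : ℝ) = z
    · obtain ⟨Z₀, hZ₀⟩ := hzi
      refine ⟨1, one_pos, fun Z hZ => ?_⟩
      rw [← hZ₀] at hZ ⊢
      have : |Z - Z₀| < 1 := by exact_mod_cast hZ
      have := Int.abs_lt_one_iff.1 this
      have : Z = Z₀ := by omega
      rw [this]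
    · refine ⟨|z - round z|, ?_, fun Z hZ => ?_⟩
      · rw [abs_pos, sub_ne_zero]
        exact fun hh => hzi ⟨round z, hh.symm⟩
      · exfalso
        have := round_le z Z
        rw [abs_sub_comm] at hZ
        linarith
  -- continuity
  have hcont := takagi_continuous.continuousAt (x := α)
  rw [Metric.continuousAt_iff] at hcont
  obtain ⟨δ₁, hδ₁, hc⟩ := hcont (ρ / (2 * b * q)) (by positivity)
  refine ⟨min (q * δ₁) (ρ / (2 * b)), lt_min (by positivity) (by positivity),
    fun n hn hlt => ?_⟩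
  have hlt1 := hlt.trans_le (min_le_left _ _)
  have hlt2 := hlt.trans_le (min_le_right _ _)
  set e := (q : ℝ) * tl x n - A with he
  have hpn : (0 : ℝ) < walk x n := by exact_mod_cast h.pos hn
  have he1 : |e| ≤ |e| * (walk x n + 1) := le_mul_of_one_le_right (abs_nonneg _) (hw n hn)
  have he2 : |e| * walk x n ≤ |e| * (walk x n + 1) :=
    mul_le_mul_of_nonneg_left (by linarith) (abs_nonneg _)
  have hclose : |tl x n - α| < δ₁ := by
    have e1 : q * |tl x n - α| = |e| := by
      rw [he, hAα, ← mul_sub, abs_mul, abs_of_pos hq]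
    have : q * |tl x n - α| < q * δ₁ := by linarith
    exact lt_of_mul_lt_mul_left this hq.le
  have hT : |takagi (tl x n) - takagi α| < ρ / (2 * b * q) := by
    have := hc (x := tl x n) (by rw [Real.dist_eq]; exact hclose)
    rwa [Real.dist_eq] at this
  obtain ⟨Y, hY⟩ := h.int n
  set Z : ℤ := (A.den : ℤ) * Y - A.num * walk x n with hZ
  have hZr : (Z : ℝ) - z = b * q * (takagi (tl x n) - takagi α) + b * (walk x n * e) := by
    rw [hZ, hz]
    push_cast
    rw [hnum, ← hY, he, ← hb]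
    unfold ht tk
    ring
  have hZlt : |(Z : ℝ) - z| < ρ := by
    rw [hZr]
    have e1 := abs_add_le (b * q * (takagi (tl x n) - takagi α)) (b * (walk x n * e))
    have e2 : |b * q * (takagi (tl x n) - takagi α)| < ρ / 2 := by
      rw [abs_mul, abs_of_pos (by positivity : 0 < b * q)]
      calc b * q * |takagi (tl x n) - takagi α| < b * q * (ρ / (2 * b * q)) :=
            mul_lt_mul_of_pos_left hT (by positivity)
        _ = ρ / 2 := by field_simp
    have e3 : |b * (walk x n * e)| < ρ / 2 := by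
      rw [abs_mul, abs_mul, abs_of_pos hb0, abs_of_pos hpn]
      calc b * (walk x n * |e|) ≤ b * (|e| * (walk x n + 1)) := by
            refine mul_le_mul_of_nonneg_left ?_ hb0.le
            linarith
        _ < b * (ρ / (2 * b)) := mul_lt_mul_of_pos_left hlt2 hb0
        _ = ρ / 2 := by field_simp
    linarith
  have hZz := hρ Z hZlt
  -- the exact solution
  have hex : tk (walk x n) α = ht x n := by
    have e1 : (Z : ℝ) = b * (q * ht x n) - A * b * walk x n := by
      rw [hZ]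
      push_cast
      rw [hnum, ← hY, ← hb]
    have e2 : b * q * ht x n = b * q * (takagi α + walk x n * α) := by
      have : b * q * (walk x n * α) = A * b * walk x n := by rw [hAα]; ring
      rw [mul_add, this, ← hz, ← hZz, e1]
      ring
    have e3 := mul_left_cancel₀ (by positivity : b * q ≠ 0) e2
    unfold tk
    rw [e3]
  obtain ⟨k, hk2, hkq, hgt⟩ := h.hgt
  obtain ⟨p, hp⟩ := h.rat
  have hgt' : ∀ m, n ≤ m → (k : ℤ) < walk x m := fun m hm => hgt m (hn.trans hm)
  rcases hα1.lt_or_eq with hlt' | heq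
  · have h3 := rigid_gen h.hx0 h.hx1 h.irr h.hq hp hk2 hkq hgt' hα0 hlt' hex
    apply irrational_tl h.irr n
    exact ⟨A / q, by rw [← h3, hα]; push_cast; rfl⟩
  · rw [heq] at hex
    have h1 : takagi 1 = 0 := by
      have h1 := takagi_one_sub 1
      rw [sub_self, takagi_zero] at h1
      exact h1.symm
    apply no_diag h.irr hk2 hgt'
    rw [← hex]
    unfold tk
    rw [h1]
    ring

/-- Small denominators are impossible. -/
lemma Esc.small (h : Esc x q N) (B : ℕ) : ∃ δ : ℝ, 0 < δ ∧ ∀ n, N ≤ n → ∀ A : ℚ, A.den < B →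
    |(q : ℝ) * tl x n - A| * (walk x n + 1) < δ → False := by
  classical
  have hfin : ∀ s : Finset ℚ, ∃ δ : ℝ, 0 < δ ∧ ∀ n, N ≤ n → ∀ A ∈ s,
      |(q : ℝ) * tl x n - A| * (walk x n + 1) < δ → False := by
    intro s
    induction s using Finset.induction_on with
    | empty => exact ⟨1, one_pos, fun n _ A hA => by simp at hA⟩
    | insert A s _ ih =>
      obtain ⟨δ₁, h1, h1'⟩ := ih
      obtain ⟨δ₂, h2, h2'⟩ := h.small_one A
      refine ⟨min δ₁ δ₂, lt_min h1 h2, fun n hn A' hA' hlt => ?_⟩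
      rw [Finset.mem_insert] at hA'
      rcases hA' with rfl | hA'
      · exact h2' n hn (hlt.trans_le (min_le_right _ _))
      · exact h1' n hn A' hA' (hlt.trans_le (min_le_left _ _))
  have hfs : {A : ℚ | A.den < B ∧ |A| ≤ q + 1}.Finite := by
    have h1 := Finset.finite_toSet ((Finset.Icc (-((q + 1) * B : ℤ)) ((q + 1) * B)) ×ˢ
      (Finset.range B) : Finset (ℤ × ℕ))
    refine (h1.image fun z : ℤ × ℕ => (z.1 : ℚ) / z.2).subset ?_
    rintro A ⟨hd, ha⟩
    refine ⟨(A.num, A.den), ?_, Rat.num_div_den A⟩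
    simp only [Finset.coe_product, Set.mem_prod, Finset.mem_coe, Finset.mem_Icc,
      Finset.mem_range]
    have hb0 : (0 : ℚ) < A.den := by exact_mod_cast A.den_pos
    have hnum : (A.num : ℚ) = A * A.den := (Rat.mul_den_eq_num A).symm
    have h2 : |(A.num : ℚ)| ≤ (q + 1) * B := by
      rw [hnum, abs_mul, abs_of_pos hb0]
      have hdB : (A.den : ℚ) ≤ B := by exact_mod_cast hd.le
      exact mul_le_mul ha hdB hb0.le (by positivity)
    have h3 : |A.num| ≤ ((q + 1) * B : ℤ) := by exact_mod_cast h2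
    rw [abs_le] at h3
    exact ⟨h3, hd⟩
  obtain ⟨δ, hδ, hδ'⟩ := hfin hfs.toFinset
  refine ⟨min δ 1, lt_min hδ one_pos, fun n hn A hA hlt => ?_⟩
  by_cases hAq : |A| ≤ q + 1
  · exact hδ' n hn A (by rw [Set.Finite.mem_toFinset]; exact ⟨hA, hAq⟩)
      (hlt.trans_le (min_le_left _ _))
  · push Not at hAq
    have hAq' : (q : ℝ) + 1 < |(A : ℝ)| := by exact_mod_cast hAq
    have hq : (0 : ℝ) < q := by exact_mod_cast h.hq
    have h1 := (tl_lt_one x n).le
    have h0 := tl_nonneg x n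
    have h2 : |(q : ℝ) * tl x n| ≤ q := by
      rw [abs_mul, abs_of_pos hq, abs_of_nonneg h0]
      calc (q : ℝ) * tl x n ≤ q * 1 := mul_le_mul_of_nonneg_left h1 hq.le
        _ = q := mul_one _
    have h3 : 1 ≤ |(q : ℝ) * tl x n - A| := by
      have := abs_sub_abs_le_abs_sub (A : ℝ) ((q : ℝ) * tl x n)
      rw [abs_sub_comm] at this
      linarith
    have h4 : (1 : ℝ) ≤ walk x n + 1 := by
      have : (0 : ℝ) < walk x n := by exact_mod_cast h.pos hn
      linarith
    have h5 := mul_le_mul h3 h4 zero_le_one (abs_nonneg _)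
    have h6 := hlt.trans_le (min_le_right _ _)
    linarith

end

end Pool.Agent.Work.MP_df9865_an
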