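import Pool.Agent.Work.MP_df9865_an.Splice

open Set Filter Topology

namespace Pool.Agent.Work.MP_df9865_an

/-- A rational point of a level set from a repeated state. -/
lemma rational_of_repeat {x : ℝ} (hx0 : 0 ≤ x) (hx1 : x < 1) {n l : ℕ} (hl : 0 < l)
    (hD : walk x (n + l) = walk x n) (hy : ht x (n + l) = ht x n) :
    ∃ r : ℚ, (r : ℝ) ∈ levelSet (takagi x) := by
  have hloop := loop_of_repeat hl hD hy
  have hfix := hloop.fix hl
  refine ⟨(⌊2 ^ n * x⌋ + fixpt x n l) / 2 ^ n, ?_⟩
  have e : (((⌊2 ^ n * x⌋ + fixpt x n l) / 2 ^ n : ℚ) : ℝ) = splice x n (fixpt x n l) := by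
    unfold splice
    push_cast
    ring
  rw [e]
  exact ⟨splice_mem hx0 hx1 n hloop.1.1 hloop.1.2, takagi_splice_eq hloop.1.1 hloop.1.2 hfix⟩

/-- Two loops at the same state with distinct fixed points give uncountably many points. -/
lemma two_loops {D : ℤ} {y a b : ℝ} {la lb : ℕ} (hla : 0 < la) (hlb : 0 < lb)
    (ha : Loop D y a la) (hb : Loop D y b lb) (hab : a ≠ b) :
    ∃ g : (ℕ → Bool) → ℝ, Function.Injective g ∧ ∀ σ, g σ ∈ Set.Icc (0 : ℝ) 1 ∧ tk D (g σ) = y := by
  -- common length
  have hA : Loop D y a (2 * (la * lb)) := by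
    have := ha.mul (lb * 2)
    have e : la * (lb * 2) = 2 * (la * lb) := by ring
    rwa [e] at this
  have hB : Loop D y b (2 * (la * lb)) := by
    have := hb.mul (la * 2)
    have e : lb * (la * 2) = 2 * (la * lb) := by ring
    rwa [e] at this
  set L := 2 * (la * lb) with hL
  have hLpos : 2 ≤ L := by
    have : 0 < la * lb := Nat.mul_pos hla hlb
    omega
  set r : ℝ := 1 / 2 ^ L with hr
  have hr0 : 0 < r := by positivity
  have hr4 : r ≤ 1 / 4 := by
    rw [hr]
    have : (2 : ℝ) ^ 2 ≤ 2 ^ L := pow_le_pow_right₀ (by norm_num) hLpos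
    apply one_div_le_one_div_of_le (by norm_num)
    linarith
  set cf := Cardinal.cantorFunction r with hcf
  have hcf_succ : ∀ σ : ℕ → Bool, cf σ = cond (σ 0) 1 0 + r * cf (fun n => σ (n + 1)) := by
    intro σ
    exact Cardinal.cantorFunction_succ σ hr0.le (by linarith)
  have hcf_nonneg : ∀ σ, 0 ≤ cf σ := fun σ => tsum_nonneg fun n => by
    unfold Cardinal.cantorFunctionAux
    cases σ n <;> simp
    positivity
  have hcf_le : ∀ σ, cf σ ≤ 1 / (1 - r) := by
    intro σ
    have h1 : cf σ ≤ ∑' n : ℕ, r ^ n := by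
      apply Summable.tsum_le_tsum
      · intro n
        unfold Cardinal.cantorFunctionAux
        cases σ n <;> simp
        positivity
      · exact Cardinal.summable_cantor_function σ hr0.le (by linarith)
      · exact summable_geometric_of_lt_one hr0.le (by linarith)
    rw [tsum_geometric_of_lt_one hr0.le (by linarith)] at h1
    rw [one_div]
    exact h1
  let g : (ℕ → Bool) → ℝ := fun σ => a + (b - a) * ((1 - r) * cf σ)
  have hgmem : ∀ σ, g σ ∈ Set.Icc (0 : ℝ) 1 := by
    intro σ
    have h1 : 0 ≤ (1 - r) * cf σ := mul_nonneg (by linarith) (hcf_nonneg σ)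
    have h2 : (1 - r) * cf σ ≤ 1 := by
      have := mul_le_mul_of_nonneg_left (hcf_le σ) (show 0 ≤ 1 - r by linarith)
      rwa [mul_one_div_cancel (by linarith)] at this
    have e : g σ = (1 - (1 - r) * cf σ) * a + ((1 - r) * cf σ) * b := by
      simp only [g]
      ring
    rw [e]
    exact (convex_Icc (0 : ℝ) 1) ha.1 hb.1 (by linarith) h1 (by ring)
  have hgstep : ∀ σ, tk D (g σ) - y = r * (tk D (g fun n => σ (n + 1)) - y) := by
    intro σ
    rcases hσ : σ 0 with _ | _
    · have e : g σ = a + (g (fun n => σ (n + 1)) - a) / 2 ^ L := by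
        simp only [g]
        rw [hcf_succ σ, hσ]
        simp only [cond_false]
        rw [hr]
        ring
      rw [e, hA.2 _ (hgmem _), hr]
      ring
    · have e : g σ = b + (g (fun n => σ (n + 1)) - b) / 2 ^ L := by
        simp only [g]
        rw [hcf_succ σ, hσ]
        simp only [cond_true]
        rw [hr]
        ring
      rw [e, hB.2 _ (hgmem _), hr]
      ring
  have hgn : ∀ n : ℕ, ∀ σ, |tk D (g σ) - y| ≤ r ^ n * (|(D : ℝ)| + 1 + |y|) := by
    intro n
    induction n with
    | zero =>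
      intro σ
      rw [pow_zero, one_mul]
      have h1 := abs_tk_le D (hgmem σ).1 (hgmem σ).2
      have h2 := abs_sub (tk D (g σ)) y
      linarith
    | succ n ih =>
      intro σ
      rw [hgstep σ, abs_mul, abs_of_pos hr0, pow_succ']
      have := mul_le_mul_of_nonneg_left (ih fun n => σ (n + 1)) hr0.le
      linarith
  refine ⟨g, ?_, ?_⟩
  · intro σ τ h
    have h1 : (b - a) * ((1 - r) * cf σ) = (b - a) * ((1 - r) * cf τ) := by
      have : a + (b - a) * ((1 - r) * cf σ) = a + (b - a) * ((1 - r) * cf τ) := h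
      linarith
    have h2 : (1 - r) * cf σ = (1 - r) * cf τ :=
      mul_left_cancel₀ (sub_ne_zero.mpr (Ne.symm hab)) h1
    have h3 : cf σ = cf τ := mul_left_cancel₀ (by linarith) h2
    exact Cardinal.cantorFunction_injective hr0 (by linarith) h3
  · intro σ
    refine ⟨hgmem σ, ?_⟩
    have hlim : Tendsto (fun n : ℕ => r ^ n * (|(D : ℝ)| + 1 + |y|)) atTop
        (𝓝 (0 * (|(D : ℝ)| + 1 + |y|))) :=
      (tendsto_pow_atTop_nhds_zero_of_lt_one hr0.le (by linarith)).mul_const _
    rw [zero_mul] at hlim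
    have h1 : |tk D (g σ) - y| ≤ 0 := ge_of_tendsto' hlim fun n => hgn n σ
    have h2 : tk D (g σ) - y = 0 := abs_nonpos_iff.mp h1
    linarith

lemma uncountable_seq : Uncountable (ℕ → Bool) := by
  have hcard : Cardinal.mk (ℕ → Bool) = Cardinal.continuum := by simp
  rw [← Cardinal.aleph0_lt_mk_iff, hcard]
  exact Cardinal.aleph0_lt_continuum

/-- An irrational point which visits a state infinitely often has an uncountable level set. -/
lemma uncountable_of_state {x : ℝ} (hx0 : 0 ≤ x) (hx1 : x < 1) (hirr : Irrational x)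
    {D : ℤ} {y : ℝ} (hV : {n | walk x n = D ∧ ht x n = y}.Infinite) :
    ¬ (levelSet (takagi x)).Countable := by
  obtain ⟨n, hnD, hny⟩ := hV.nonempty
  -- all the loops based at time `n`
  have hloops : ∀ m, m ∈ {n | walk x n = D ∧ ht x n = y} → n < m →
      Loop D y (fixpt x n (m - n)) (m - n) := by
    rintro m ⟨hm1, hm2⟩ hnm
    have h1 := loop_of_repeat (x := x) (n := n) (l := m - n) (by omega)
      (by rw [Nat.add_sub_cancel' hnm.le, hm1, hnD]) (by rw [Nat.add_sub_cancel' hnm.le, hm2, hny])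
    rwa [hnD, hny] at h1
  obtain ⟨m, hmV, hnm⟩ := hV.exists_gt n
  -- find another loop with another fixed point
  by_cases hall : ∀ m' ∈ {n | walk x n = D ∧ ht x n = y}, n < m' →
      fixpt x n (m' - n) = fixpt x n (m - n)
  · exfalso
    set z := fixpt x n (m - n) with hz
    have hzmem : ((z : ℚ) : ℝ) ∈ Set.Icc (0 : ℝ) 1 := (hloops m hmV hnm).1
    have key : ∀ k : ℕ, |tl x n - z| ≤ (1 / 2 : ℝ) ^ k := by
      intro k
      obtain ⟨m', hm'V, hm'⟩ := hV.exists_gt (n + k)
      have h1 := fixpt_spec x n (l := m' - n) (by omega) (tl (tl x n) (m' - n))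
      rw [splice_self, hall m' hm'V (by omega), tl_tl] at h1
      have h2 : tl x n - z = (tl x (n + (m' - n)) - z) / 2 ^ (m' - n) := by linarith
      rw [h2, abs_div, abs_of_pos (show (0 : ℝ) < 2 ^ (m' - n) by positivity)]
      have h3 : |tl x (n + (m' - n)) - z| ≤ 1 := by
        rw [abs_le]
        have h4 := tl_nonneg x (n + (m' - n))
        have h5 := tl_lt_one x (n + (m' - n))
        constructor <;> linarith [hzmem.1, hzmem.2]
      rw [one_div_pow]
      have h6 : (2 : ℝ) ^ k ≤ 2 ^ (m' - n) := pow_le_pow_right₀ (by norm_num) (by omega)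
      apply div_le_div₀ (by norm_num) h3 (by positivity) h6
    have hlim := tendsto_pow_atTop_nhds_zero_of_lt_one (r := (1 / 2 : ℝ)) (by norm_num) (by norm_num)
    have h7 : |tl x n - z| ≤ 0 := ge_of_tendsto' hlim key
    have h8 : tl x n = z := by
      have := abs_nonpos_iff.mp h7
      linarith
    have h9 : x = (((⌊2 ^ n * x⌋ + z) / 2 ^ n : ℚ) : ℝ) := by
      conv_lhs => rw [← splice_self x n]
      unfold splice
      rw [h8]
      push_cast
      ring
    exact hirr ⟨_, h9.symm⟩
  · push Not at hall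
    obtain ⟨m', hm'V, hm', hne⟩ := hall
    have hne' : ((fixpt x n (m' - n) : ℚ) : ℝ) ≠ ((fixpt x n (m - n) : ℚ) : ℝ) := by
      exact_mod_cast hne
    obtain ⟨g, hg1, hg2⟩ := two_loops (by omega) (by omega) (hloops m' hm'V hm')
      (hloops m hmV hnm) hne'
    intro hcount
    have hinj : Function.Injective fun σ => splice x n (g σ) := (splice_injective x n).comp hg1
    have hsub : Set.range (fun σ => splice x n (g σ)) ⊆ levelSet (takagi x) := by
      rintro _ ⟨σ, rfl⟩
      obtain ⟨h1, h2⟩ := hg2 σ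
      refine ⟨splice_mem hx0 hx1 n h1.1 h1.2, takagi_splice_eq h1.1 h1.2 ?_⟩
      rw [hnD, h2, hny]
    have hc2 : (Set.range (fun σ => splice x n (g σ))).Countable := hcount.mono hsub
    rw [← Set.image_univ] at hc2
    have hc3 := (Set.countable_of_injective_of_countable_image hinj.injOn hc2)
    have hc4 : Countable (ℕ → Bool) := Set.countable_univ_iff.mp hc3
    have hunc := uncountable_seq
    exact (not_countable (α := (ℕ → Bool))) hc4

/-- If the walk is bounded by `K` in absolute value at infinitely many times and `T(x)` is rational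
then some state is visited infinitely often. -/
lemma exists_state {x : ℝ} (hx0 : 0 ≤ x) (hx1 : x < 1) {q : ℕ} (hq : 0 < q) {p : ℤ}
    (hp : q * takagi x = p) {K : ℤ} (hK : {n | |walk x n| ≤ K}.Infinite) :
    ∃ D y, {n | walk x n = D ∧ ht x n = y}.Infinite := by
  classical
  -- the map to states
  choose Y hY using ht_int hx0 hx1 hp
  have hmaps : Set.MapsTo (fun n => (walk x n, Y n)) {n | |walk x n| ≤ K}
      (Set.Icc (-K) K ×ˢ Set.Icc (-(q * (K + 1))) (q * (K + 1))) := by
    intro n hn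
    simp only [Set.mem_ofPred_eq] at hn
    refine ⟨abs_le.mp hn, ?_⟩
    have h1 := abs_ht_le x n
    have h2 : |(walk x n : ℝ)| ≤ K := by exact_mod_cast hn
    have hq' : (0 : ℝ) < q := by exact_mod_cast hq
    have h3 : |(Y n : ℝ)| ≤ q * (K + 1) := by
      rw [← hY n, abs_mul, abs_of_pos hq']
      apply mul_le_mul_of_nonneg_left _ hq'.le
      linarith
    have h4 : |Y n| ≤ q * (K + 1) := by exact_mod_cast h3
    exact abs_le.mp h4
  have hfin : (Set.Icc (-K) K ×ˢ Set.Icc (-(q * (K + 1))) (q * (K + 1))).Finite :=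
    (Set.finite_Icc _ _).prod (Set.finite_Icc _ _)
  by_contra hcon
  push Not at hcon
  apply hK
  have hcov : {n | |walk x n| ≤ K} ⊆
      ⋃ s ∈ (Set.Icc (-K) K ×ˢ Set.Icc (-(q * (K + 1))) (q * (K + 1))),
        {n | walk x n = s.1 ∧ ht x n = (s.2 : ℝ) / q} := by
    intro n hn
    simp only [Set.mem_iUnion, exists_prop]
    refine ⟨(walk x n, Y n), hmaps hn, rfl, ?_⟩
    have hq' : (q : ℝ) ≠ 0 := by exact_mod_cast hq.ne'
    rw [eq_div_iff hq', ← hY n, mul_comm]
  apply Set.Finite.subset _ hcov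
  apply hfin.biUnion
  intro s _
  exact hcon _ _

/-- If `T(x)` is rational, `x` irrational and the walk does not diverge, the level set is
uncountable. -/
lemma uncountable_of_bounded {x : ℝ} (hx0 : 0 ≤ x) (hx1 : x < 1) (hirr : Irrational x)
    {q : ℕ} (hq : 0 < q) {p : ℤ} (hp : q * takagi x = p) {K : ℤ}
    (hK : {n | |walk x n| ≤ K}.Infinite) : ¬ (levelSet (takagi x)).Countable := by
  obtain ⟨D, y, h⟩ := exists_state hx0 hx1 hq hp hK
  exact uncountable_of_state hx0 hx1 hirr h

lemma rational_of_bounded {x : ℝ} (hx0 : 0 ≤ x) (hx1 : x < 1)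
    {q : ℕ} (hq : 0 < q) {p : ℤ} (hp : q * takagi x = p) {K : ℤ}
    (hK : {n | |walk x n| ≤ K}.Infinite) : ∃ r : ℚ, (r : ℝ) ∈ levelSet (takagi x) := by
  obtain ⟨D, y, h⟩ := exists_state hx0 hx1 hq hp hK
  obtain ⟨n, hn1, hn2⟩ := h.nonempty
  obtain ⟨m, ⟨hm1, hm2⟩, hnm⟩ := h.exists_gt n
  apply rational_of_repeat hx0 hx1 (n := n) (l := m - n) (by omega)
  · rw [Nat.add_sub_cancel' hnm.le, hm1, hn1]
  · rw [Nat.add_sub_cancel' hnm.le, hm2, hn2]

end Pool.Agent.Work.MP_df9865_an
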