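import Pool.Agent.Work.MP_df9865_an.Count

/-!
# The counting lemma in asymptotic form
-/

open Set Filter Topology

namespace Pool.Agent.Work.MP_df9865_an

lemma exists_scale (a : ℝ) : ∃ c₀ : ℕ, ∀ c : ℕ, c₀ ≤ c → a * ((c : ℝ) + 4) ^ 2 ≤ 2 ^ c := by
  have h1 := tendsto_pow_const_mul_const_pow_of_abs_lt_one 2 (by norm_num [abs_lt] : |(1 / 2 : ℝ)| < 1)
  have h2 := h1.comp (tendsto_add_atTop_nat 4)
  have h3 : (0 : ℝ) < 1 / (16 * (|a| + 1)) := by positivity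
  have h4 := h2.eventually_lt_const h3
  rw [eventually_atTop] at h4
  obtain ⟨c₀, hc⟩ := h4
  refine ⟨c₀, fun c hcc => ?_⟩
  have h5 := hc c hcc
  simp only [Function.comp_apply, Nat.cast_add, Nat.cast_ofNat] at h5
  rw [one_div_pow, pow_add, mul_one_div, div_lt_div_iff₀ (by positivity) (by positivity)] at h5
  have h6 : a * ((c : ℝ) + 4) ^ 2 ≤ (|a| + 1) * ((c : ℝ) + 4) ^ 2 := by
    refine mul_le_mul_of_nonneg_right ?_ (by positivity)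
    have := le_abs_self a
    linarith
  linarith

lemma scale_le (J c : ℕ) : (2 : ℝ) ^ J + ((2 * J + c : ℕ) : ℝ) + 1 ≤ (c + 4) * 2 ^ J := by
  have h1 : (J : ℝ) ≤ 2 ^ J := by exact_mod_cast (Nat.lt_two_pow_self (n := J)).le
  have h2 : (1 : ℝ) ≤ 2 ^ J := one_le_pow₀ (by norm_num)
  have h3 : (c : ℝ) * 1 ≤ c * 2 ^ J := mul_le_mul_of_nonneg_left h2 (by positivity)
  push_cast
  linarith

variable {x : ℝ} {q N : ℕ}

lemma scale_cond (J c : ℕ) {b A : ℝ} (hb : 0 ≤ b) (h : b * ((c : ℝ) + 4) ^ 2 ≤ A * 2 ^ c) :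
    b * ((2 : ℝ) ^ J + ((2 * J + c : ℕ) : ℝ) + 1) ^ 2 ≤ A * 2 ^ (2 * J + c) := by
  have h1 := scale_le J c
  have h2 : (0 : ℝ) ≤ (2 : ℝ) ^ J + ((2 * J + c : ℕ) : ℝ) + 1 := by positivity
  have h3 := pow_le_pow_left₀ h2 h1 2
  calc b * ((2 : ℝ) ^ J + ((2 * J + c : ℕ) : ℝ) + 1) ^ 2 ≤ b * (((c : ℝ) + 4) * 2 ^ J) ^ 2 :=
        mul_le_mul_of_nonneg_left h3 hb
    _ = b * ((c : ℝ) + 4) ^ 2 * (2 ^ J) ^ 2 := by ring
    _ ≤ A * 2 ^ c * (2 ^ J) ^ 2 := mul_le_mul_of_nonneg_right h (by positivity)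
    _ = A * 2 ^ (2 * J + c) := by rw [pow_add, mul_comm 2 J, pow_mul]; ring

/-- The rough form of the counting lemma. -/
theorem Esc.rough (h : Esc x q N) {κ C a : ℝ} (hκ1 : 1 ≤ κ) (hC : 0 ≤ C) (ha2 : 2 ≤ a)
    (hκa : κ ^ 2 ≤ a) (m₀ : ℕ) :
    ∃ (C' : ℝ) (c : ℕ), 0 ≤ C' ∧ ∀ (J : ℕ) (W : Finset ℕ),
      (∀ n ∈ W, N ≤ n ∧ walk x n ≤ 2 ^ J) →
      (∀ m, m₀ ≤ m → m ≤ 2 * J + c → ((W.image (blk x m)).card : ℝ) ≤ C * κ ^ m) →
      (W.card : ℝ) ≤ C' * (J + 1) * a ^ J := by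
  have hq : (0 : ℝ) < q := by exact_mod_cast h.hq
  obtain ⟨c₁, hc₁⟩ := exists_scale (16 * q)
  set c := max c₁ m₀ with hc
  have hcc := hc₁ c (le_max_left _ _)
  have hcm : m₀ ≤ c := le_max_right _ _
  have hc8 : (8 : ℝ) * q ≤ 2 ^ c := by
    have h1 : (1 : ℝ) ≤ ((c : ℝ) + 4) ^ 2 := one_le_pow₀ (by
      have : (0 : ℝ) ≤ c := by positivity
      linarith)
    have h2 : 16 * (q : ℝ) * 1 ≤ 16 * q * ((c : ℝ) + 4) ^ 2 :=
      mul_le_mul_of_nonneg_left h1 (by positivity)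
    linarith
  refine ⟨2 * C * κ ^ c, c, by positivity, fun J W hW hB => ?_⟩
  have hκ0 : 0 < κ := by linarith
  have ha0 : 0 < a := by linarith
  have hL : 16 * q * ((2 : ℝ) ^ J + ((2 * J + c : ℕ) : ℝ) + 1) ^ 2 ≤ 2 ^ (2 * J + c) := by
    have := scale_cond J c (b := 16 * q) (A := 1) (by positivity) (by linarith)
    linarith
  have hS : (0 : ℝ) < (2 : ℝ) ^ J + ((2 * J + c : ℕ) : ℝ) + 1 := by positivity
  have hδ : q * ((2 : ℝ) ^ J + ((2 * J + c : ℕ) : ℝ) + 1) ^ 2 < 1 * 2 ^ (2 * J + c) := by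
    have : 0 < (q : ℝ) * ((2 : ℝ) ^ J + ((2 * J + c : ℕ) : ℝ) + 1) ^ 2 := by positivity
    linarith
  have hcount := h.count J (2 * J + c) c 0 W hW hL hc8 (δ := 1) (fun n _ A hA => by
    have := A.den_pos
    rw [pow_zero] at hA
    omega) hδ
  have hcount' : (W.card : ℝ) ≤ ((W.image (blk x (2 * J + c))).card : ℝ) +
      ∑ j ∈ Finset.Ico 0 J, ((W.image (blk x (2 * j + c))).card : ℝ) * (2 ^ (J - j) + 1) := by
    exact_mod_cast hcount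
  have hpow : ∀ j, κ ^ (2 * j + c) ≤ κ ^ c * a ^ j := by
    intro j
    rw [pow_add, pow_mul, mul_comm]
    exact mul_le_mul_of_nonneg_left (pow_le_pow_left₀ (by positivity) hκa j) (by positivity)
  have h1 : ((W.image (blk x (2 * J + c))).card : ℝ) ≤ C * κ ^ c * a ^ J := by
    refine (hB _ (by omega) le_rfl).trans ?_
    rw [mul_assoc]
    exact mul_le_mul_of_nonneg_left (hpow J) hC
  have h2 : ∀ j ∈ Finset.Ico 0 J,
      ((W.image (blk x (2 * j + c))).card : ℝ) * (2 ^ (J - j) + 1) ≤ 2 * (C * κ ^ c * a ^ J) := by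
    intro j hj
    rw [Finset.mem_Ico] at hj
    have e1 : ((W.image (blk x (2 * j + c))).card : ℝ) ≤ C * κ ^ c * a ^ j := by
      refine (hB _ (by omega) (by omega)).trans ?_
      rw [mul_assoc]
      exact mul_le_mul_of_nonneg_left (hpow j) hC
    have e2 : (2 : ℝ) ^ (J - j) + 1 ≤ 2 * a ^ (J - j) := by
      have t1 : (1 : ℝ) ≤ 2 ^ (J - j) := one_le_pow₀ (by norm_num)
      have t2 : (2 : ℝ) ^ (J - j) ≤ a ^ (J - j) := pow_le_pow_left₀ (by norm_num) ha2 _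
      linarith
    have e3 := mul_le_mul e1 e2 (by positivity) (by positivity)
    refine e3.trans (le_of_eq ?_)
    have e4 : a ^ J = a ^ j * a ^ (J - j) := by rw [← pow_add]; congr 1; omega
    rw [e4]
    ring
  have h3 := Finset.sum_le_sum h2
  rw [Finset.sum_const, Nat.card_Ico, nsmul_eq_mul, Nat.sub_zero] at h3
  have h4 : 0 ≤ C * κ ^ c * a ^ J := by positivity
  calc (W.card : ℝ) ≤ C * κ ^ c * a ^ J + J * (2 * (C * κ ^ c * a ^ J)) := by linarith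
    _ ≤ 2 * C * κ ^ c * (J + 1) * a ^ J := by
      have : 2 * C * κ ^ c * (J + 1) * a ^ J = 2 * (C * κ ^ c * a ^ J) +
        J * (2 * (C * κ ^ c * a ^ J)) := by ring
      linarith

/-- The fine form of the counting lemma. -/
theorem Esc.fine (h : Esc x q N) {κ C : ℝ} (hκ1 : 1 ≤ κ) (hκ : κ ^ 2 < 2) (hC : 0 ≤ C) (m₀ : ℕ)
    {ε : ℝ} (hε : 0 < ε) :
    ∃ J₀ c : ℕ, ∀ J : ℕ, J₀ ≤ J → ∀ W : Finset ℕ, (∀ n ∈ W, N ≤ n ∧ walk x n ≤ 2 ^ J) →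
      (∀ m, m₀ ≤ m → m ≤ 2 * J + c → ((W.image (blk x m)).card : ℝ) ≤ C * κ ^ m) →
      (W.card : ℝ) ≤ ε * 2 ^ J := by
  have hq : (0 : ℝ) < q := by exact_mod_cast h.hq
  have hκ0 : 0 < κ := by linarith
  obtain ⟨θ, hθ⟩ : ∃ θ : ℝ, θ = κ ^ 2 := ⟨_, rfl⟩
  have hθ1 : 1 ≤ θ := by rw [hθ]; exact one_le_pow₀ hκ1
  have hθ2 : θ < 2 := by rw [hθ]; exact hκ
  obtain ⟨ρ, hρ⟩ : ∃ ρ : ℝ, ρ = θ / 2 := ⟨_, rfl⟩
  have hρ0 : 0 < ρ := by rw [hρ]; positivity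
  have hρ1 : ρ < 1 := by rw [hρ]; linarith
  have hθρ : θ = 2 * ρ := by rw [hρ]; ring
  -- the first constant
  obtain ⟨c₁, hc₁⟩ := exists_scale (16 * q)
  obtain ⟨c₀, hc₀⟩ : ∃ c₀, c₀ = max c₁ m₀ := ⟨_, rfl⟩
  have hcc := hc₁ c₀ (by rw [hc₀]; exact le_max_left _ _)
  have hcm : m₀ ≤ c₀ := by rw [hc₀]; exact le_max_right _ _
  have hc8 : (8 : ℝ) * q ≤ 2 ^ c₀ := by
    have h1 : (1 : ℝ) ≤ ((c₀ : ℝ) + 4) ^ 2 := one_le_pow₀ (by
      have : (0 : ℝ) ≤ c₀ := by positivity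
      linarith)
    have h2 : 16 * (q : ℝ) * 1 ≤ 16 * q * ((c₀ : ℝ) + 4) ^ 2 :=
      mul_le_mul_of_nonneg_left h1 (by positivity)
    linarith
  obtain ⟨G, hG⟩ : ∃ G : ℝ, G = C * κ ^ c₀ := ⟨_, rfl⟩
  have hG0 : 0 ≤ G := by rw [hG]; positivity
  obtain ⟨j₀, hj₀⟩ : ∃ j₀ : ℕ, G * (ρ ^ j₀ / (1 - ρ)) ≤ ε / 3 := by
    have h1 : Tendsto (fun j : ℕ => G * (ρ ^ j / (1 - ρ))) atTop (𝓝 (G * (0 / (1 - ρ)))) :=
      ((tendsto_pow_atTop_nhds_zero_of_lt_one hρ0.le hρ1).div_const _).const_mul G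
    rw [zero_div, mul_zero] at h1
    obtain ⟨j, hj⟩ := (h1.eventually_lt_const (by positivity : 0 < ε / 3)).exists
    exact ⟨j, hj.le⟩
  obtain ⟨δ, hδ0, hδ⟩ := h.small (2 ^ j₀)
  obtain ⟨c₂, hc₂⟩ := exists_scale (2 * q / δ)
  obtain ⟨c', hc'⟩ : ∃ c', c' = max c₀ (max c₁ c₂) := ⟨_, rfl⟩
  have hc'1 := hc₁ c' (by rw [hc']; exact (le_max_left _ _).trans (le_max_right _ _))
  have hc'2 := hc₂ c' (by rw [hc']; exact (le_max_right _ _).trans (le_max_right _ _))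
  have hc'0 : c₀ ≤ c' := by rw [hc']; exact le_max_left _ _
  obtain ⟨G', hG'⟩ : ∃ G' : ℝ, G' = C * κ ^ c' := ⟨_, rfl⟩
  have hG'0 : 0 ≤ G' := by rw [hG']; positivity
  obtain ⟨J₀, hJ₀⟩ : ∃ J₀ : ℕ, ∀ J, J₀ ≤ J → G' * ρ ^ J ≤ ε / 3 ∧ G * (J * ρ ^ J) ≤ ε / 3 := by
    have h1 : Tendsto (fun j : ℕ => G' * ρ ^ j) atTop (𝓝 (G' * 0)) :=
      (tendsto_pow_atTop_nhds_zero_of_lt_one hρ0.le hρ1).const_mul G'
    have h2 : Tendsto (fun j : ℕ => G * ((j : ℝ) * ρ ^ j)) atTop (𝓝 (G * 0)) :=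
      (tendsto_self_mul_const_pow_of_lt_one hρ0.le hρ1).const_mul G
    rw [mul_zero] at h1 h2
    have h3 := (h1.eventually_lt_const (by positivity : 0 < ε / 3)).and
      (h2.eventually_lt_const (by positivity : 0 < ε / 3))
    rw [eventually_atTop] at h3
    obtain ⟨J₀, h3⟩ := h3
    exact ⟨J₀, fun J hJ => ⟨(h3 J hJ).1.le, (h3 J hJ).2.le⟩⟩
  refine ⟨J₀, c', fun J hJ W hW hB => ?_⟩
  obtain ⟨hJ1, hJ2⟩ := hJ₀ J hJ
  have hL : 16 * q * ((2 : ℝ) ^ J + ((2 * J + c' : ℕ) : ℝ) + 1) ^ 2 ≤ 2 ^ (2 * J + c') := by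
    have := scale_cond J c' (b := 16 * q) (A := 1) (by positivity) (by linarith)
    linarith
  have hS : (0 : ℝ) < (2 : ℝ) ^ J + ((2 * J + c' : ℕ) : ℝ) + 1 := by positivity
  have hδ' : q * ((2 : ℝ) ^ J + ((2 * J + c' : ℕ) : ℝ) + 1) ^ 2 < δ * 2 ^ (2 * J + c') := by
    have h1 : 2 * (q : ℝ) * ((c' : ℝ) + 4) ^ 2 ≤ δ * 2 ^ c' := by
      rw [div_mul_eq_mul_div, div_le_iff₀ hδ0] at hc'2
      linarith
    have h2 := scale_cond J c' (b := 2 * q) (A := δ) (by positivity) h1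
    have : 0 < (q : ℝ) * ((2 : ℝ) ^ J + ((2 * J + c' : ℕ) : ℝ) + 1) ^ 2 := by positivity
    linarith
  have hcount := h.count J (2 * J + c') c₀ j₀ W hW hL hc8 (δ := δ) (fun n hn A hA =>
    hδ n hn A hA) hδ'
  have hcount' : (W.card : ℝ) ≤ ((W.image (blk x (2 * J + c'))).card : ℝ) +
      ∑ j ∈ Finset.Ico j₀ J, ((W.image (blk x (2 * j + c₀))).card : ℝ) * (2 ^ (J - j) + 1) := by
    exact_mod_cast hcount
  have h2J : (0 : ℝ) < 2 ^ J := by positivity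
  have hθJ : ∀ j, θ ^ j = 2 ^ j * ρ ^ j := by
    intro j
    rw [hθρ, mul_pow]
  have h1 : ((W.image (blk x (2 * J + c'))).card : ℝ) ≤ 2 ^ J * (G' * ρ ^ J) := by
    refine (hB _ (by omega) le_rfl).trans (le_of_eq ?_)
    rw [pow_add, pow_mul, ← hθ, hθJ, hG']
    ring
  have h2 : ∀ j ∈ Finset.Ico j₀ J,
      ((W.image (blk x (2 * j + c₀))).card : ℝ) * (2 ^ (J - j) + 1) ≤
        2 ^ J * G * ρ ^ j + 2 ^ J * (G * ρ ^ J) := by
    intro j hj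
    rw [Finset.mem_Ico] at hj
    have e1 : ((W.image (blk x (2 * j + c₀))).card : ℝ) ≤ G * θ ^ j := by
      refine (hB _ (by omega) (by omega)).trans (le_of_eq ?_)
      rw [pow_add, pow_mul, ← hθ, hG]
      ring
    have e2 : (0 : ℝ) ≤ 2 ^ (J - j) + 1 := by positivity
    have e3 := mul_le_mul_of_nonneg_right e1 e2
    refine e3.trans ?_
    have e4 : (2 : ℝ) ^ J = 2 ^ j * 2 ^ (J - j) := by rw [← pow_add]; congr 1; omega
    have e5 : G * θ ^ j ≤ G * θ ^ J :=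
      mul_le_mul_of_nonneg_left (pow_le_pow_right₀ hθ1 hj.2.le) hG0
    have e6 : G * θ ^ j * (2 ^ (J - j) + 1) = G * θ ^ j * 2 ^ (J - j) + G * θ ^ j := by ring
    have e7 : G * θ ^ j * 2 ^ (J - j) = 2 ^ J * G * ρ ^ j := by
      rw [hθJ j, e4]
      ring
    have e8 : G * θ ^ J = 2 ^ J * (G * ρ ^ J) := by
      rw [hθJ J]
      ring
    rw [e6, e7, ← e8]
    linarith
  have h3 := Finset.sum_le_sum h2
  rw [Finset.sum_add_distrib, ← Finset.mul_sum, Finset.sum_const, Nat.card_Ico,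
    nsmul_eq_mul] at h3
  have h4 := geom_sum_Ico_le_of_lt_one (m := j₀) (n := J) hρ0.le hρ1
  have h5 : 2 ^ J * G * ∑ i ∈ Finset.Ico j₀ J, ρ ^ i ≤ 2 ^ J * (ε / 3) := by
    rw [mul_assoc]
    refine mul_le_mul_of_nonneg_left ?_ h2J.le
    exact (mul_le_mul_of_nonneg_left h4 hG0).trans hj₀
  have h6 : ((J - j₀ : ℕ) : ℝ) * (2 ^ J * (G * ρ ^ J)) ≤ 2 ^ J * (ε / 3) := by
    have e1 : ((J - j₀ : ℕ) : ℝ) ≤ J := by exact_mod_cast Nat.sub_le _ _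
    have e2 : (0 : ℝ) ≤ 2 ^ J * (G * ρ ^ J) := by positivity
    have e3 := mul_le_mul_of_nonneg_right e1 e2
    refine e3.trans ?_
    have e4 : (J : ℝ) * (2 ^ J * (G * ρ ^ J)) = 2 ^ J * (G * (J * ρ ^ J)) := by ring
    rw [e4]
    exact mul_le_mul_of_nonneg_left hJ2 h2J.le
  have h7 : 2 ^ J * (G' * ρ ^ J) ≤ 2 ^ J * (ε / 3) := mul_le_mul_of_nonneg_left hJ1 h2J.le
  linarith

end Pool.Agent.Work.MP_df9865_an
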