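import Pool.Agent.Work.MP_df9865_an.Freq

/-!
# Slowly growing walks have normal digits
-/

open Set Filter Topology

namespace Pool.Agent.Work.MP_df9865_an

lemma card_exp_le {A : Type*} [DecidableEq A] (S : Finset A) (e : A → ℝ) {lam θ : ℝ}
    (hl : 0 ≤ lam) (m : ℕ) (T : Finset (Fin m → A)) (hT : T ⊆ Fintype.piFinset fun _ => S)
    (hs : ∀ u ∈ T, θ * m ≤ ∑ j, e (u j)) :
    (T.card : ℝ) ≤ ((∑ v ∈ S, Real.exp (lam * e v)) * Real.exp (-(lam * θ))) ^ m := by
  have h0 : 0 < Real.exp (lam * θ) := Real.exp_pos _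
  rw [Real.exp_neg, ← div_eq_mul_inv, div_pow, le_div_iff₀ (by positivity)]
  have h1 : ∀ u ∈ T, (Real.exp (lam * θ)) ^ m ≤ ∏ j, Real.exp (lam * e (u j)) := by
    intro u hu
    rw [← Real.exp_sum, ← Finset.mul_sum, ← Real.exp_nat_mul]
    refine Real.exp_le_exp.2 ?_
    have := mul_le_mul_of_nonneg_left (hs u hu) hl
    linarith
  calc (T.card : ℝ) * Real.exp (lam * θ) ^ m = ∑ u ∈ T, Real.exp (lam * θ) ^ m := by
        rw [Finset.sum_const, nsmul_eq_mul]
    _ ≤ ∑ u ∈ T, ∏ j, Real.exp (lam * e (u j)) := Finset.sum_le_sum h1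
    _ ≤ ∑ u ∈ Fintype.piFinset (fun _ : Fin m => S), ∏ j, Real.exp (lam * e (u j)) :=
        Finset.sum_le_sum_of_subset_of_nonneg hT fun u _ _ =>
          Finset.prod_nonneg fun j _ => (Real.exp_pos _).le
    _ = ∏ j : Fin m, ∑ v ∈ S, Real.exp (lam * e v) :=
        (Finset.prod_univ_sum (fun _ : Fin m => S) (fun _ v => Real.exp (lam * e v))).symm
    _ = (∑ v ∈ S, Real.exp (lam * e v)) ^ m := by
        rw [Finset.prod_const, Finset.card_univ, Fintype.card_fin]

/-- Words with too many prescribed letters are exponentially rare. -/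
lemma exists_rare {A : Type*} [DecidableEq A] (S : Finset A) (w : A) (hw : w ∈ S) {η : ℝ}
    (hη : 0 < η) (hη1 : η ≤ 1) : ∃ κ₀ : ℝ, 0 < κ₀ ∧ κ₀ < S.card ∧ ∀ (m : ℕ)
      (T : Finset (Fin m → A)), T ⊆ Fintype.piFinset (fun _ => S) →
      (∀ u ∈ T, (1 / S.card + η) * m ≤ ∑ j, if u j = w then (1 : ℝ) else 0) →
      (T.card : ℝ) ≤ κ₀ ^ m := by
  have hS : 0 < S.card := Finset.card_pos.2 ⟨w, hw⟩
  have hSr : (0 : ℝ) < S.card := by exact_mod_cast hS
  have hS1 : (1 : ℝ) ≤ S.card := by exact_mod_cast hS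
  obtain ⟨p, hp⟩ : ∃ p : ℝ, p = 1 / S.card := ⟨_, rfl⟩
  have hp0 : 0 < p := by rw [hp]; positivity
  have hp1 : p ≤ 1 := by rw [hp, div_le_one hSr]; exact hS1
  have hSp : (S.card : ℝ) * p = 1 := by rw [hp]; field_simp
  obtain ⟨lam, hlam⟩ : ∃ lam : ℝ, lam = η / 2 := ⟨_, rfl⟩
  have hl0 : 0 < lam := by rw [hlam]; positivity
  have hl1 : lam ≤ 1 := by rw [hlam]; linarith
  refine ⟨(∑ v ∈ S, Real.exp (lam * if v = w then (1 : ℝ) else 0)) *
    Real.exp (-(lam * (1 / S.card + η))), ?_, ?_, fun m T hT hs => card_exp_le S _ hl0.le m T hT hs⟩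
  · refine mul_pos ?_ (Real.exp_pos _)
    exact Finset.sum_pos (fun v _ => Real.exp_pos _) ⟨w, hw⟩
  · have e1 : ∑ v ∈ S, Real.exp (lam * if v = w then (1 : ℝ) else 0)
        = S.card + (Real.exp lam - 1) := by
      have e2 : ∀ v ∈ S, Real.exp (lam * if v = w then (1 : ℝ) else 0)
          = 1 + if v = w then Real.exp lam - 1 else 0 := by
        intro v _
        split_ifs <;> simp
      rw [Finset.sum_congr rfl e2, Finset.sum_add_distrib, Finset.sum_ite_eq' S w, if_pos hw]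
      simp
    rw [e1, ← hp]
    have h1 : Real.exp lam - 1 ≤ lam + lam ^ 2 := by
      have := Real.abs_exp_sub_one_sub_id_le (x := lam) (by rw [abs_of_pos hl0]; exact hl1)
      have := le_of_abs_le this
      linarith
    have h2 : (S.card : ℝ) + (Real.exp lam - 1) ≤ S.card * Real.exp (p * (lam + lam ^ 2)) := by
      have h3 := Real.add_one_le_exp (p * (lam + lam ^ 2))
      have h4 := mul_le_mul_of_nonneg_left h3 hSr.le
      have h5 : (S.card : ℝ) * (p * (lam + lam ^ 2) + 1) = lam + lam ^ 2 + S.card := by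
        rw [mul_add, ← mul_assoc, hSp]
        ring
      linarith
    calc ((S.card : ℝ) + (Real.exp lam - 1)) * Real.exp (-(lam * (p + η)))
        ≤ S.card * Real.exp (p * (lam + lam ^ 2)) * Real.exp (-(lam * (p + η))) :=
          mul_le_mul_of_nonneg_right h2 (Real.exp_pos _).le
      _ = S.card * Real.exp (lam * (p * lam - η)) := by
          rw [mul_assoc, ← Real.exp_add]
          congr 2
          ring
      _ < S.card * 1 := by
          refine mul_lt_mul_of_pos_left ?_ hSr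
          rw [← Real.exp_zero]
          refine Real.exp_lt_exp.2 ?_
          have : p * lam ≤ 1 * lam := mul_le_mul_of_nonneg_right hp1 hl0.le
          have h6 : p * lam - η < 0 := by linarith
          exact mul_neg_of_pos_of_neg hl0 h6
      _ = S.card := mul_one _

lemma card_signs (k : ℕ) : (signs k).card = 2 ^ k := by
  unfold signs
  rw [Fintype.card_piFinset, Finset.prod_const, Finset.card_univ, Fintype.card_fin,
    Finset.card_pair (by norm_num)]

/-- The number of blocks of length `m` through the blocks of length `k`. -/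
lemma card_word_le (x : ℝ) {k : ℕ} (hk : 0 < k) (m : ℕ) (W : Finset ℕ) :
    (W.image (word x m)).card ≤
      (W.image fun a => fun i : Fin (m / k) => word x k (a + k * i)).card * 2 ^ k := by
  classical
  have h1 := card_image_le_of_factor W
    (fun a => ((fun i : Fin (m / k) => word x k (a + k * i)), word x k (a + k * (m / k))))
    (word x m) (by
      intro a _ b _ hab
      rw [Prod.mk.injEq] at hab
      obtain ⟨hab1, hab2⟩ := hab
      funext i
      have hi := i.2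
      have e : k * ((i : ℕ) / k) + (i : ℕ) % k = i := Nat.div_add_mod _ _
      rcases Nat.lt_or_ge ((i : ℕ) / k) (m / k) with hlt | hge
      · have h2 := congrFun (congrFun hab1 ⟨(i : ℕ) / k, hlt⟩) ⟨(i : ℕ) % k, Nat.mod_lt _ hk⟩
        simp only [word] at h2 ⊢
        rw [add_assoc, add_assoc, e] at h2
        exact h2
      · have hle : (i : ℕ) / k ≤ m / k := Nat.div_le_div_right hi.le
        have heq : (i : ℕ) / k = m / k := le_antisymm hle hge
        have h2 := congrFun hab2 ⟨(i : ℕ) % k, Nat.mod_lt _ hk⟩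
        simp only [word] at h2 ⊢
        rw [← heq, add_assoc, add_assoc, e] at h2
        exact h2)
  refine h1.trans ?_
  have h2 : (W.image fun a => ((fun i : Fin (m / k) => word x k (a + k * i)),
      word x k (a + k * (m / k)))) ⊆
      (W.image fun a => fun i : Fin (m / k) => word x k (a + k * i)) ×ˢ signs k := by
    intro z hz
    rw [Finset.mem_image] at hz
    obtain ⟨a, ha, rfl⟩ := hz
    rw [Finset.mem_product]
    exact ⟨Finset.mem_image_of_mem _ ha, word_mem x k _⟩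
  refine (Finset.card_le_card h2).trans (le_of_eq ?_)
  rw [Finset.card_product, card_signs]

lemma log_le_sqrt (k c : ℕ) (hk : 0 < k) : ∃ M₀ : ℕ, ∀ M : ℕ, M₀ ≤ M →
    2 * Nat.log 2 (k * (M + 1)) + c ≤ Nat.sqrt M := by
  obtain ⟨J₁, hJ₁⟩ := exists_scale (2 * k * ((c : ℝ) + 2) ^ 2)
  refine ⟨2 ^ J₁, fun M hM => ?_⟩
  have hM1 : 1 ≤ M := Nat.one_le_two_pow.trans hM
  set J := Nat.log 2 (k * (M + 1)) with hJ
  have hJJ : J₁ ≤ J := by
    refine Nat.le_log_of_pow_le (by norm_num) (hM.trans ?_)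
    calc M ≤ 1 * (M + 1) := by omega
      _ ≤ k * (M + 1) := Nat.mul_le_mul_right _ hk
  have h1 : 2 ^ J ≤ k * (M + 1) := Nat.pow_log_le_self 2 (by positivity)
  have h2 : (2 : ℝ) ^ J ≤ 2 * k * M := by
    have e1 : (2 : ℝ) ^ J ≤ k * (M + 1) := by exact_mod_cast h1
    have e2 : (k : ℝ) * (M + 1) ≤ k * (2 * M) := by
      refine mul_le_mul_of_nonneg_left ?_ (by positivity)
      have : (1 : ℝ) ≤ M := by exact_mod_cast hM1
      linarith
    linarith
  have h3 := hJ₁ J hJJ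
  have h4 : ((2 * J + c : ℕ) : ℝ) ≤ ((c : ℝ) + 2) * (J + 4) := by
    push_cast
    have e0 : (0 : ℝ) ≤ c * J := by positivity
    have e1 : (0 : ℝ) ≤ c := by positivity
    nlinarith
  have h5 := pow_le_pow_left₀ (by positivity) h4 2
  have hkr : (0 : ℝ) < 2 * k := by positivity
  have h6 : (((2 * J + c : ℕ) : ℝ)) ^ 2 ≤ M := by
    have e1 : 2 * (k : ℝ) * (((2 * J + c : ℕ) : ℝ)) ^ 2 ≤ 2 * k * M := by
      calc 2 * (k : ℝ) * (((2 * J + c : ℕ) : ℝ)) ^ 2
          ≤ 2 * k * (((c : ℝ) + 2) * (J + 4)) ^ 2 := mul_le_mul_of_nonneg_left h5 hkr.le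
        _ = 2 * k * ((c : ℝ) + 2) ^ 2 * (J + 4) ^ 2 := by ring
        _ ≤ 2 * k * M := by linarith
    exact le_of_mul_le_mul_left e1 hkr
  exact Nat.le_sqrt'.2 (by exact_mod_cast h6)

lemma exists_exponents {κ : ℝ} (hκ0 : 0 < κ) (hκ : κ < 2) : ∃ s σ : ℝ, 1 < s ∧ κ ^ 2 < 2 ^ s ∧
    1 / 2 < σ ∧ σ < 1 ∧ σ * s < 1 := by
  obtain ⟨l, hl⟩ : ∃ l : ℝ, l = max 1 (Real.logb 2 (κ ^ 2)) := ⟨_, rfl⟩
  have h1 : (1 : ℝ) ≤ l := by rw [hl]; exact le_max_left _ _
  have h2 : Real.logb 2 (κ ^ 2) ≤ l := by rw [hl]; exact le_max_right _ _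
  have h3 : l < 2 := by
    rw [hl]
    refine max_lt (by norm_num) ?_
    rw [Real.logb_lt_iff_lt_rpow (by norm_num) (by positivity)]
    norm_num
    nlinarith
  obtain ⟨s, hs⟩ : ∃ s : ℝ, s = (l + 2) / 2 := ⟨_, rfl⟩
  have hs1 : 1 < s := by linarith
  have hs2 : s < 2 := by linarith
  have hs0 : 0 < s := by linarith
  refine ⟨s, (1 / 2 + 1 / s) / 2, hs1, ?_, ?_, ?_, ?_⟩
  · rw [← Real.logb_lt_iff_lt_rpow (by norm_num) (by positivity)]
    linarith
  · have : 1 / 2 < 1 / s := one_div_lt_one_div_of_lt hs0 hs2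
    linarith
  · have : 1 / s < 1 := by rw [div_lt_one hs0]; exact hs1
    linarith
  · have : (1 / 2 + 1 / s) / 2 * s = (s / 2 + 1) / 2 := by field_simp
    rw [this]
    linarith

lemma eventually_small {C' s σ η : ℝ} (hs : 0 < s) (hσs : σ * s < 1) (hσ : 0 < σ) (hσ1 : σ < 1)
    (hC' : 0 ≤ C') (hη : 0 < η) {k : ℕ} (hk : 0 < k) (N' : ℕ) :
    ∃ M₀ : ℕ, ∀ M : ℕ, M₀ ≤ M → 1 ≤ M ∧
      (N' : ℝ) + C' * ((⌈((k * (M + 1) : ℕ) : ℝ) ^ σ⌉₊ : ℕ) : ℝ) ^ s + (Nat.sqrt M : ℕ) < η * M := by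
  have hkr : (0 : ℝ) < k := by exact_mod_cast hk
  have t1 : Tendsto (fun M : ℕ => ((k * (M + 1) : ℕ) : ℝ)) atTop atTop := by
    have : Tendsto (fun M : ℕ => k * (M + 1)) atTop atTop :=
      (tendsto_id.const_mul_atTop' hk).comp (tendsto_add_atTop_nat 1)
    exact tendsto_natCast_atTop_atTop.comp this
  have t2 : Tendsto (fun M : ℕ => C' * 2 ^ s * ((k * (M + 1) : ℕ) : ℝ) ^ (-(1 - σ * s))) atTop
      (𝓝 (C' * 2 ^ s * 0)) :=
    ((tendsto_rpow_neg_atTop (by linarith)).comp t1).const_mul _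
  rw [mul_zero] at t2
  have t3 := t2.eventually_lt_const (show 0 < η / (8 * k) by positivity)
  obtain ⟨M₁, hM₁⟩ := eventually_atTop.1 t3
  obtain ⟨M₂, hM₂⟩ := exists_nat_gt (8 * N' / η)
  obtain ⟨M₃, hM₃⟩ := exists_nat_gt (16 / η ^ 2)
  refine ⟨max (max M₁ M₂) (max M₃ 1), fun M hM => ?_⟩
  have hMa : M₁ ≤ M := ((le_max_left _ _).trans (le_max_left _ _)).trans hM
  have hMb : M₂ ≤ M := ((le_max_right _ _).trans (le_max_left _ _)).trans hM
  have hMc : M₃ ≤ M := ((le_max_left _ _).trans (le_max_right _ _)).trans hM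
  have hMd : 1 ≤ M := ((le_max_right _ _).trans (le_max_right _ _)).trans hM
  refine ⟨hMd, ?_⟩
  have hMr : (1 : ℝ) ≤ M := by exact_mod_cast hMd
  obtain ⟨y, hy⟩ : ∃ y : ℝ, y = ((k * (M + 1) : ℕ) : ℝ) := ⟨_, rfl⟩
  have hy1 : 1 ≤ y := by
    rw [hy]
    exact_mod_cast Nat.succ_le_of_lt (by positivity : 0 < k * (M + 1))
  have hy0 : 0 < y := by linarith
  have h1 := hM₁ M hMa
  rw [← hy] at h1 ⊢
  have hyσ : 1 ≤ y ^ σ := Real.one_le_rpow hy1 hσ.le
  have h2 : ((⌈y ^ σ⌉₊ : ℕ) : ℝ) ≤ 2 * y ^ σ := by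
    have := Nat.ceil_lt_add_one (show 0 ≤ y ^ σ by positivity)
    linarith
  have h3 : ((⌈y ^ σ⌉₊ : ℕ) : ℝ) ^ s ≤ 2 ^ s * y ^ (σ * s) := by
    refine (Real.rpow_le_rpow (by positivity) h2 hs.le).trans (le_of_eq ?_)
    rw [Real.mul_rpow (by norm_num) (by positivity), ← Real.rpow_mul hy0.le]
  have h4 : y ^ (σ * s) = y ^ (-(1 - σ * s)) * y := by
    rw [← Real.rpow_add_one hy0.ne']
    congr 1
    ring
  have h5 : C' * ((⌈y ^ σ⌉₊ : ℕ) : ℝ) ^ s ≤ η / (8 * k) * y := by
    calc C' * ((⌈y ^ σ⌉₊ : ℕ) : ℝ) ^ s ≤ C' * (2 ^ s * y ^ (σ * s)) :=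
          mul_le_mul_of_nonneg_left h3 hC'
      _ = C' * 2 ^ s * y ^ (-(1 - σ * s)) * y := by rw [h4]; ring
      _ ≤ η / (8 * k) * y := mul_le_mul_of_nonneg_right h1.le hy0.le
  have h6 : η / (8 * k) * y ≤ η / 4 * M := by
    have e1 : η / (8 * k) * y = η / 8 * (M + 1) := by
      rw [hy]
      push_cast
      field_simp
    rw [e1]
    have : η / 8 * 1 ≤ η / 8 * M := mul_le_mul_of_nonneg_left hMr (by positivity)
    linarith
  have h7 : (N' : ℝ) ≤ η / 8 * M := by
    have e1 : (8 * N' / η : ℝ) < M := hM₂.trans_le (by exact_mod_cast hMb)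
    rw [div_lt_iff₀ hη] at e1
    linarith
  have h8 : ((Nat.sqrt M : ℕ) : ℝ) ≤ η / 4 * M := by
    have e1 : (16 / η ^ 2 : ℝ) < M := hM₃.trans_le (by exact_mod_cast hMc)
    rw [div_lt_iff₀ (by positivity)] at e1
    have e2 : ((Nat.sqrt M : ℕ) : ℝ) ^ 2 ≤ M := by exact_mod_cast Nat.sqrt_le' M
    have e3 : ((Nat.sqrt M : ℕ) : ℝ) ^ 2 ≤ (η / 4 * M) ^ 2 := by
      have : (η / 4 * M) ^ 2 = (M * η ^ 2) / 16 * M := by ring
      rw [this]
      nlinarith
    exact le_of_sq_le_sq e3 (by positivity)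
  have h9 : 0 < η * M := by positivity
  linarith

variable {x : ℝ} {q N : ℕ}

theorem Esc.upper_freq (h : Esc x q N)
    (hslow : ∀ σ : ℝ, 1 / 2 < σ → ∀ᶠ n : ℕ in atTop, (walk x n : ℝ) ≤ (n : ℝ) ^ σ)
    {k : ℕ} (hk : 0 < k) (w : Fin k → ℤ) (hw : w ∈ signs k) {r : ℕ} (hr : r < k) {η : ℝ}
    (hη : 0 < η) (hη1 : η ≤ 1) :
    ∃ M₀ : ℕ, ∀ M : ℕ, M₀ ≤ M →
      (((Finset.range M).filter fun j => word x k (r + k * j) = w).card : ℝ) ≤
        (1 / 2 ^ k + η) * M := by
  classical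
  have hkr : (0 : ℝ) < k := by exact_mod_cast hk
  obtain ⟨p, hp⟩ : ∃ p : ℝ, p = 1 / 2 ^ k := ⟨_, rfl⟩
  have hp0 : 0 < p := by rw [hp]; positivity
  rw [← hp]
  obtain ⟨e, he⟩ : ∃ e : ℝ, e = η / 2 := ⟨_, rfl⟩
  have he0 : 0 < e := by rw [he]; positivity
  obtain ⟨κ₀, hκ₀, hκ₀2, hrare⟩ := exists_rare (signs k) w hw he0 (by linarith)
  have hSc : ((signs k).card : ℝ) = 2 ^ k := by rw [card_signs]; push_cast; rfl
  rw [hSc] at hκ₀2 hrare
  rw [← hp] at hrare
  obtain ⟨κ₁, hκ₁⟩ : ∃ κ₁ : ℝ, κ₁ = κ₀ ^ ((k : ℝ)⁻¹) := ⟨_, rfl⟩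
  have hκ₁0 : 0 < κ₁ := by rw [hκ₁]; exact Real.rpow_pos_of_pos hκ₀ _
  have hκ₁k : κ₁ ^ k = κ₀ := by rw [hκ₁]; exact Real.rpow_inv_natCast_pow hκ₀.le hk.ne'
  have hκ₁2 : κ₁ < 2 := lt_of_pow_lt_pow_left₀ k (by norm_num) (by rw [hκ₁k]; exact hκ₀2)
  obtain ⟨κ, hκ⟩ : ∃ κ : ℝ, κ = max 1 κ₁ := ⟨_, rfl⟩
  have hκ1 : 1 ≤ κ := by rw [hκ]; exact le_max_left _ _
  have hκκ : κ₁ ≤ κ := by rw [hκ]; exact le_max_right _ _
  have hκ2 : κ < 2 := by rw [hκ]; exact max_lt (by norm_num) hκ₁2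
  have hpow : ∀ m : ℕ, κ₀ ^ (m / k) ≤ κ ^ m := by
    intro m
    have e1 : κ₀ ≤ κ ^ k := by rw [← hκ₁k]; exact pow_le_pow_left₀ hκ₁0.le hκκ k
    calc κ₀ ^ (m / k) ≤ (κ ^ k) ^ (m / k) := pow_le_pow_left₀ hκ₀.le e1 _
      _ = κ ^ (k * (m / k)) := (pow_mul _ _ _).symm
      _ ≤ κ ^ m := pow_le_pow_right₀ hκ1 (Nat.mul_div_le m k)
  obtain ⟨s, σ, hs1, hκs, hσ2, hσ1, hσs⟩ := exists_exponents (by linarith : 0 < κ) hκ2
  obtain ⟨C', c, hC', hrate⟩ := h.rate hκ1 (C := 2 ^ k) (by positivity) hs1 hκs 0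
  obtain ⟨N₂, hN₂⟩ := eventually_atTop.1 (hslow σ hσ2)
  obtain ⟨N', hN'⟩ : ∃ N', N' = max N N₂ := ⟨_, rfl⟩
  obtain ⟨M₁, hM₁⟩ := log_le_sqrt k c hk
  obtain ⟨M₂, hM₂⟩ := eventually_small (C' := C') (by linarith : 0 < s) hσs (by linarith) hσ1 hC'
    he0 hk N'
  refine ⟨max M₁ M₂, fun M hM => ?_⟩
  have hMa := hM₁ M ((le_max_left _ _).trans hM)
  obtain ⟨hM1, hMb⟩ := hM₂ M ((le_max_right _ _).trans hM)
  have hMr : (1 : ℝ) ≤ M := by exact_mod_cast hM1
  by_contra hcon
  push Not at hcon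
  set f : ℕ → ℝ := fun j => if word x k (r + k * j) = w then 0 else 1 with hf
  have hf0 : ∀ i, 0 ≤ f i := by
    intro i
    simp only [hf]
    split_ifs <;> norm_num
  have hf1 : ∀ i, (if word x k (r + k * i) = w then (1 : ℝ) else 0) = 1 - f i := by
    intro i
    simp only [hf]
    split_ifs <;> norm_num
  have hcount : (((Finset.range M).filter fun j => word x k (r + k * j) = w).card : ℝ)
      = M - ∑ i ∈ Finset.Ico 0 M, f i := by
    rw [Finset.card_filter, Nat.cast_sum, ← Finset.range_eq_Ico]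
    have : ∀ i ∈ Finset.range M, ((if word x k (r + k * i) = w then 1 else 0 : ℕ) : ℝ)
        = 1 - f i := by
      intro i _
      rw [← hf1 i]
      split_ifs <;> norm_num
    rw [Finset.sum_congr rfl this, Finset.sum_sub_distrib]
    simp
  rw [hcount] at hcon
  obtain ⟨d, hd⟩ : ∃ d : ℝ, d = 1 - p - e := ⟨_, rfl⟩
  have hS0 : 0 ≤ ∑ i ∈ Finset.Ico 0 M, f i := Finset.sum_nonneg fun i _ => hf0 i
  have hSd : ∑ i ∈ Finset.Ico 0 M, f i < (d - e) * M := by
    rw [hd, he]
    linarith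
  have hde : e < d := by
    by_contra hle
    push Not at hle
    have : (d - e) * M ≤ 0 := mul_nonpos_of_nonpos_of_nonneg (by linarith) (by linarith)
    linarith
  have hd0 : 0 < d := by linarith
  have hd1 : d ≤ 1 := by linarith
  set B := (Finset.range M).filter fun n =>
    ∃ m : ℕ, 1 ≤ m ∧ n + m ≤ M ∧ d * m < ∑ i ∈ Finset.Ico n (n + m), f i with hB
  have hBcard : d * (B.card : ℝ) ≤ ∑ i ∈ Finset.Ico 0 M, f i := by
    have h1 := rising_sun f hf0 hd0.le M B (by
      intro n hn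
      rw [hB, Finset.mem_filter, Finset.mem_range] at hn
      exact hn) M 0 (by omega)
    have h2 : B.filter (fun n => 0 ≤ n) = B := Finset.filter_true_of_mem fun _ _ => Nat.zero_le _
    rwa [h2] at h1
  have hBcard' : (B.card : ℝ) ≤ (1 - e) * M := by
    have h1 : d * (B.card : ℝ) ≤ d * ((1 - e) * M) := by
      have h2 : d * e ≤ 1 * e := mul_le_mul_of_nonneg_right hd1 he0.le
      have h3 : (d - e) * M ≤ (d - d * e) * M :=
        mul_le_mul_of_nonneg_right (by linarith) (by linarith)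
      calc d * (B.card : ℝ) ≤ (d - e) * M := by linarith
        _ ≤ (d - d * e) * M := h3
        _ = _ := by ring
    exact le_of_mul_le_mul_left h1 hd0
  set b := Nat.sqrt M with hb
  have hbM : b ≤ M := Nat.sqrt_le_self M
  set G := Finset.range (M - b) \ B with hG
  have hGcard : e * M - b ≤ G.card := by
    have h1 : (Finset.range (M - b)).card ≤ G.card + B.card := by
      rw [hG]
      exact Finset.card_le_card_sdiff_add_card
    rw [Finset.card_range] at h1
    have h2 : ((M - b : ℕ) : ℝ) ≤ G.card + B.card := by exact_mod_cast h1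
    rw [Nat.cast_sub hbM] at h2
    linarith
  set W₀ := G.image (fun j => r + k * j) with hW₀
  have hW₀card : W₀.card = G.card := by
    refine Finset.card_image_of_injective _ ?_
    intro i j hij
    have : k * i = k * j := by simpa using hij
    exact Nat.eq_of_mul_eq_mul_left hk this
  set W := W₀.filter fun n => N' ≤ n with hW
  have hWsub : W ⊆ W₀ := Finset.filter_subset _ _
  have hWcard : (W₀.card : ℝ) ≤ N' + W.card := by
    have e1 : W₀ ⊆ Finset.range N' ∪ W := by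
      intro n hn
      rw [Finset.mem_union, Finset.mem_range, hW, Finset.mem_filter]
      rcases Nat.lt_or_ge n N' with h | h
      · exact Or.inl h
      · exact Or.inr ⟨hn, h⟩
    have e2 := (Finset.card_le_card e1).trans (Finset.card_union_le _ _)
    rw [Finset.card_range] at e2
    exact_mod_cast e2
  obtain ⟨y, hy⟩ : ∃ y : ℕ, y = k * (M + 1) := ⟨_, rfl⟩
  have hy1 : 1 ≤ y := by rw [hy]; exact Nat.succ_le_of_lt (by positivity)
  have hyr : (1 : ℝ) ≤ y := by exact_mod_cast hy1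
  rw [← hy] at hMa hMb
  set K := ⌈(y : ℝ) ^ σ⌉₊ with hK
  have hσ0 : 0 ≤ σ := by linarith
  have hyσ : 1 ≤ (y : ℝ) ^ σ := Real.one_le_rpow hyr hσ0
  have hKge : (y : ℝ) ^ σ ≤ K := Nat.le_ceil _
  have hK1 : 1 ≤ K := by
    have : (1 : ℝ) ≤ K := hyσ.trans hKge
    exact_mod_cast this
  have hKy : K ≤ y := by
    rw [hK, Nat.ceil_le]
    calc (y : ℝ) ^ σ ≤ (y : ℝ) ^ (1 : ℝ) := Real.rpow_le_rpow_of_exponent_le hyr hσ1.le
      _ = y := Real.rpow_one _
  have hmem : ∀ n ∈ W₀, ∃ j, j ∈ G ∧ n = r + k * j ∧ n ≤ y := by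
    intro n hn
    rw [hW₀, Finset.mem_image] at hn
    obtain ⟨j, hj, rfl⟩ := hn
    refine ⟨j, hj, rfl, ?_⟩
    rw [hG, Finset.mem_sdiff, Finset.mem_range] at hj
    have : k * j ≤ k * M := Nat.mul_le_mul_left _ (by omega)
    rw [hy, Nat.mul_add]
    omega
  have hmain := hrate K hK1 W (by
    intro n hn
    rw [hW, Finset.mem_filter] at hn
    obtain ⟨hn0, hn1⟩ := hn
    obtain ⟨j, _, _, hny⟩ := hmem n hn0
    refine ⟨(by rw [hN'] at hn1; exact (le_max_left _ _).trans hn1), ?_⟩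
    have h1 := hN₂ n (by rw [hN'] at hn1; exact (le_max_right _ _).trans hn1)
    have h2 : (n : ℝ) ^ σ ≤ (y : ℝ) ^ σ :=
      Real.rpow_le_rpow (by positivity) (by exact_mod_cast hny) hσ0
    have h3 : (walk x n : ℝ) ≤ K := by linarith
    exact_mod_cast h3) (by
    intro m _ hm
    have hmb : m ≤ b := by
      have : Nat.log 2 K ≤ Nat.log 2 y := Nat.log_mono_right hKy
      omega
    have h1 : (W.image (blk x m)).card ≤
        (W.image fun a => fun i : Fin (m / k) => word x k (a + k * i)).card * 2 ^ k :=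
      (card_blk_le_word x m W).trans (card_word_le x hk m W)
    have h2 : ((W.image fun a => fun i : Fin (m / k) => word x k (a + k * i)).card : ℝ) ≤
        κ₀ ^ (m / k) := by
      refine hrare (m / k) _ ?_ ?_
      · intro u hu
        rw [Finset.mem_image] at hu
        obtain ⟨a, _, rfl⟩ := hu
        rw [Fintype.mem_piFinset]
        exact fun i => word_mem x k _
      · intro u hu
        rw [Finset.mem_image] at hu
        obtain ⟨a, ha, rfl⟩ := hu
        obtain ⟨j, hj, haj, _⟩ := hmem a (hWsub ha)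
        rw [hG, Finset.mem_sdiff, Finset.mem_range, hB, Finset.mem_filter,
          Finset.mem_range] at hj
        have hmk : m / k ≤ b := (Nat.div_le_self _ _).trans hmb
        have e1 : ∑ i : Fin (m / k), (if word x k (a + k * i) = w then (1 : ℝ) else 0)
            = (m / k : ℕ) - ∑ i ∈ Finset.Ico j (j + m / k), f i := by
          have e2 : ∀ i : Fin (m / k), (if word x k (a + k * i) = w then (1 : ℝ) else 0)
              = 1 - f (j + i) := by
            intro i
            have e3 : a + k * (i : ℕ) = r + k * (j + i) := by rw [haj]; ring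
            rw [e3]
            exact hf1 (j + i)
          rw [Finset.sum_congr rfl fun i _ => e2 i, Finset.sum_sub_distrib,
            Fin.sum_univ_eq_sum_range (fun i => f (j + i)) (m / k),
            Finset.sum_Ico_eq_sum_range, Nat.add_sub_cancel_left]
          simp
        rw [e1]
        have e4 : ∑ i ∈ Finset.Ico j (j + m / k), f i ≤ d * (m / k : ℕ) := by
          rcases Nat.eq_zero_or_pos (m / k) with h0 | h0
          · rw [h0]
            simp
          · by_contra hlt'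
            push Not at hlt'
            exact hj.2 ⟨by omega, m / k, h0, by omega, hlt'⟩
        have e5 : (p + e) * ((m / k : ℕ) : ℝ) = (m / k : ℕ) - d * (m / k : ℕ) := by
          rw [hd]
          ring
        rw [e5]
        linarith
    have h3 : ((W.image (blk x m)).card : ℝ) ≤
        ((W.image fun a => fun i : Fin (m / k) => word x k (a + k * i)).card : ℝ) * 2 ^ k := by
      exact_mod_cast h1
    calc ((W.image (blk x m)).card : ℝ) ≤ κ₀ ^ (m / k) * 2 ^ k :=
          h3.trans (mul_le_mul_of_nonneg_right h2 (by positivity))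
      _ ≤ κ ^ m * 2 ^ k := mul_le_mul_of_nonneg_right (hpow m) (by positivity)
      _ = 2 ^ k * κ ^ m := mul_comm _ _)
  rw [hW₀card] at hWcard
  linarith

theorem Esc.upper_count (h : Esc x q N)
    (hslow : ∀ σ : ℝ, 1 / 2 < σ → ∀ᶠ n : ℕ in atTop, (walk x n : ℝ) ≤ (n : ℝ) ^ σ)
    {k : ℕ} (hk : 0 < k) (w : Fin k → ℤ) (hw : w ∈ signs k) {η : ℝ} (hη : 0 < η) :
    ∃ M₀ : ℕ, ∀ M : ℕ, M₀ ≤ M →
      (((Finset.range M).filter fun n => word x k n = w).card : ℝ) ≤ (1 / 2 ^ k + η) * M := by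
  classical
  have hkr : (0 : ℝ) < k := by exact_mod_cast hk
  obtain ⟨p, hp⟩ : ∃ p : ℝ, p = 1 / 2 ^ k := ⟨_, rfl⟩
  have hp0 : 0 < p := by rw [hp]; positivity
  have hp1 : p ≤ 1 := by
    rw [hp, div_le_one (by positivity)]
    exact one_le_pow₀ (by norm_num)
  obtain ⟨e, he⟩ : ∃ e : ℝ, e = min (η / 2) 1 := ⟨_, rfl⟩
  have he0 : 0 < e := by rw [he]; exact lt_min (by positivity) one_pos
  have he1 : e ≤ 1 := by rw [he]; exact min_le_right _ _
  have heη : e ≤ η / 2 := by rw [he]; exact min_le_left _ _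
  have hF : ∀ r, r < k → ∃ M₀ : ℕ, ∀ M : ℕ, M₀ ≤ M →
      (((Finset.range M).filter fun j => word x k (r + k * j) = w).card : ℝ) ≤
        (1 / 2 ^ k + e) * M := fun r hr => h.upper_freq hslow hk w hw hr he0 he1
  choose! F hF using hF
  obtain ⟨M₁, hM₁⟩ := exists_nat_gt (4 * k / η)
  refine ⟨max (k * ∑ r ∈ Finset.range k, F r) M₁, fun M hM => ?_⟩
  have hMa : k * ∑ r ∈ Finset.range k, F r ≤ M := (le_max_left _ _).trans hM
  have hMb : (4 * k / η : ℝ) < M := hM₁.trans_le (by exact_mod_cast (le_max_right _ _).trans hM)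
  have hdiv : ∑ r ∈ Finset.range k, F r ≤ M / k := by
    rw [Nat.le_div_iff_mul_le hk, mul_comm]
    exact hMa
  have hsub : ((Finset.range M).filter fun n => word x k n = w) ⊆
      (Finset.range k).biUnion fun r =>
        ((Finset.range (M / k + 1)).filter fun j => word x k (r + k * j) = w).image
          fun j => r + k * j := by
    intro n hn
    rw [Finset.mem_filter, Finset.mem_range] at hn
    rw [Finset.mem_biUnion]
    refine ⟨n % k, Finset.mem_range.2 (Nat.mod_lt _ hk), ?_⟩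
    rw [Finset.mem_image]
    have e1 : n % k + k * (n / k) = n := by
      rw [add_comm]
      exact Nat.div_add_mod n k
    refine ⟨n / k, ?_, e1⟩
    rw [Finset.mem_filter, Finset.mem_range, e1]
    refine ⟨?_, hn.2⟩
    have := Nat.div_le_div_right (c := k) hn.1.le
    omega
  have h1 := (Finset.card_le_card hsub).trans Finset.card_biUnion_le
  have h2 : (((Finset.range M).filter fun n => word x k n = w).card : ℝ) ≤
      ∑ r ∈ Finset.range k, (((Finset.range (M / k + 1)).filter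
        fun j => word x k (r + k * j) = w).card : ℝ) := by
    have h3 : ((Finset.range M).filter fun n => word x k n = w).card ≤
        ∑ r ∈ Finset.range k, ((Finset.range (M / k + 1)).filter
          fun j => word x k (r + k * j) = w).card :=
      h1.trans (Finset.sum_le_sum fun r _ => Finset.card_image_le)
    exact_mod_cast h3
  have h3 : ∑ r ∈ Finset.range k, (((Finset.range (M / k + 1)).filter
      fun j => word x k (r + k * j) = w).card : ℝ) ≤
      ∑ _r ∈ Finset.range k, (p + e) * ((M / k + 1 : ℕ) : ℝ) := by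
    refine Finset.sum_le_sum fun r hr => ?_
    rw [hp]
    refine hF r (Finset.mem_range.1 hr) _ ?_
    have : F r ≤ ∑ r ∈ Finset.range k, F r :=
      Finset.single_le_sum (f := F) (fun _ _ => Nat.zero_le _) hr
    omega
  rw [Finset.sum_const, Finset.card_range, nsmul_eq_mul] at h3
  have h4 : (k : ℝ) * ((M / k + 1 : ℕ) : ℝ) ≤ M + k := by
    have : k * (M / k + 1) ≤ M + k := by
      rw [Nat.mul_add, Nat.mul_one]
      have := Nat.mul_div_le M k
      omega
    exact_mod_cast this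
  have h5 : (k : ℝ) * ((p + e) * ((M / k + 1 : ℕ) : ℝ)) ≤ (p + e) * (M + k) := by
    have := mul_le_mul_of_nonneg_left h4 (by positivity : 0 ≤ p + e)
    linarith
  have h6 : (p + e) * (M + k) ≤ (p + η) * M := by
    have e1 : (p + e) * k ≤ 2 * k := mul_le_mul_of_nonneg_right (by linarith) hkr.le
    have e2 : 2 * (k : ℝ) ≤ η / 2 * M := by
      rw [div_lt_iff₀ hη] at hMb
      linarith
    have hM0 : (0 : ℝ) ≤ M := by positivity
    have e3 : e * M ≤ η / 2 * M := mul_le_mul_of_nonneg_right heη hM0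
    linarith
  rw [← hp]
  linarith

/-- Slowly growing walks have normal digits. -/
theorem Esc.normal (h : Esc x q N)
    (hslow : ∀ σ : ℝ, 1 / 2 < σ → ∀ᶠ n : ℕ in atTop, (walk x n : ℝ) ≤ (n : ℝ) ^ σ)
    {k : ℕ} (hk : 0 < k) (w : Fin k → ℤ) (hw : w ∈ signs k) :
    Tendsto (fun M : ℕ => (((Finset.range M).filter fun n => word x k n = w).card : ℝ) / M) atTop
      (𝓝 (1 / 2 ^ k)) := by
  classical
  have h2k : (0 : ℝ) < 2 ^ k := by positivity
  rw [Metric.tendsto_atTop]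
  intro ε hε
  obtain ⟨η, hη⟩ : ∃ η : ℝ, η = ε / (2 * 2 ^ k) := ⟨_, rfl⟩
  have hη0 : 0 < η := by rw [hη]; positivity
  have hF : ∀ v, v ∈ signs k → ∃ M₀ : ℕ, ∀ M : ℕ, M₀ ≤ M →
      (((Finset.range M).filter fun n => word x k n = v).card : ℝ) ≤ (1 / 2 ^ k + η) * M :=
    fun v hv => h.upper_count hslow hk v hv hη0
  choose! F hF using hF
  refine ⟨∑ v ∈ signs k, F v + 1, fun M hM => ?_⟩
  have hM1 : (0 : ℝ) < M := by
    have : 0 < M := by omega
    exact_mod_cast this
  have hup : ∀ v ∈ signs k, (((Finset.range M).filter fun n => word x k n = v).card : ℝ) ≤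
      (1 / 2 ^ k + η) * M := by
    intro v hv
    refine hF v hv M ?_
    have : F v ≤ ∑ v ∈ signs k, F v :=
      Finset.single_le_sum (f := F) (fun _ _ => Nat.zero_le _) hv
    omega
  have hsum : (M : ℝ) = ∑ v ∈ signs k,
      (((Finset.range M).filter fun n => word x k n = v).card : ℝ) := by
    have h1 : (Finset.range M).card =
        ∑ v ∈ signs k, ((Finset.range M).filter fun n => word x k n = v).card :=
      Finset.card_eq_sum_card_fiberwise (f := word x k) fun n _ => word_mem x k n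
    rw [Finset.card_range] at h1
    exact_mod_cast h1
  rw [← Finset.add_sum_erase _ _ hw] at hsum
  have hrest : ∑ v ∈ (signs k).erase w,
      (((Finset.range M).filter fun n => word x k n = v).card : ℝ) ≤
      (2 ^ k - 1) * ((1 / 2 ^ k + η) * M) := by
    have h1 := Finset.sum_le_sum (s := (signs k).erase w) fun v hv =>
      hup v (Finset.mem_of_mem_erase hv)
    rw [Finset.sum_const, Finset.card_erase_of_mem hw, card_signs, nsmul_eq_mul,
      Nat.cast_sub (Nat.one_le_two_pow)] at h1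
    push_cast at h1
    exact h1
  have hlow : (1 / 2 ^ k - (2 ^ k - 1) * η) * M ≤
      (((Finset.range M).filter fun n => word x k n = w).card : ℝ) := by
    have e1 : (1 / 2 ^ k - (2 ^ k - 1) * η) * M = M - (2 ^ k - 1) * ((1 / 2 ^ k + η) * M) := by
      field_simp
      ring
    rw [e1]
    linarith
  have hupw := hup w hw
  have hηε : 2 ^ k * η = ε / 2 := by
    rw [hη]
    field_simp
  have h2k1 : (1 : ℝ) ≤ 2 ^ k := one_le_pow₀ (by norm_num)
  have hη2 : η ≤ ε / 2 := by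
    rw [← hηε]
    exact le_mul_of_one_le_left hη0.le h2k1
  rw [Real.dist_eq, abs_lt]
  have a1 : (1 / 2 ^ k - (2 ^ k - 1) * η) ≤
      (((Finset.range M).filter fun n => word x k n = w).card : ℝ) / M := by
    rw [le_div_iff₀ hM1]
    exact hlow
  have a2 : (((Finset.range M).filter fun n => word x k n = w).card : ℝ) / M ≤
      1 / 2 ^ k + η := by
    rw [div_le_iff₀ hM1]
    exact hupw
  have a3 : (2 ^ k - 1) * η = ε / 2 - η := by
    rw [sub_mul, hηε, one_mul]
  rw [a3] at a1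
  constructor <;> linarith

end Pool.Agent.Work.MP_df9865_an
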