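import Pool.Agent.Work.MP_df9865_an.Basic

open Set Filter Topology

namespace Pool.Agent.Work.MP_df9865_an

/-- The tail of `x` after `n` binary digits. -/
noncomputable def tl (x : ℝ) (n : ℕ) : ℝ := Int.fract (2 ^ n * x)

lemma tl_nonneg (x : ℝ) (n : ℕ) : 0 ≤ tl x n := Int.fract_nonneg _
lemma tl_lt_one (x : ℝ) (n : ℕ) : tl x n < 1 := Int.fract_lt_one _

lemma floor_add_tl (x : ℝ) (n : ℕ) : (⌊2 ^ n * x⌋ : ℝ) + tl x n = 2 ^ n * x :=
  Int.floor_add_fract _

lemma step_of_lt {x : ℝ} {n : ℕ} (h : tl x n < 1 / 2) : step x n = 1 := if_pos h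
lemma step_of_ge {x : ℝ} {n : ℕ} (h : 1 / 2 ≤ tl x n) : step x n = -1 := if_neg (not_lt.mpr h)

lemma floor_succ_of_lt {x : ℝ} {n : ℕ} (h : tl x n < 1 / 2) :
    ⌊2 ^ (n + 1) * x⌋ = 2 * ⌊2 ^ n * x⌋ := by
  rw [Int.floor_eq_iff]
  have h1 := floor_add_tl x n
  have h2 := tl_nonneg x n
  push_cast
  rw [pow_succ]
  constructor <;> linarith

lemma floor_succ_of_ge {x : ℝ} {n : ℕ} (h : 1 / 2 ≤ tl x n) :
    ⌊2 ^ (n + 1) * x⌋ = 2 * ⌊2 ^ n * x⌋ + 1 := by
  rw [Int.floor_eq_iff]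
  have h1 := floor_add_tl x n
  have h2 := tl_lt_one x n
  push_cast
  rw [pow_succ]
  constructor <;> linarith

lemma tl_succ_of_lt {x : ℝ} {n : ℕ} (h : tl x n < 1 / 2) : tl x (n + 1) = 2 * tl x n := by
  have h1 := floor_add_tl x n
  have h2 := floor_add_tl x (n + 1)
  rw [floor_succ_of_lt h, pow_succ] at h2
  push_cast at h2
  linarith

lemma tl_succ_of_ge {x : ℝ} {n : ℕ} (h : 1 / 2 ≤ tl x n) : tl x (n + 1) = 2 * tl x n - 1 := by
  have h1 := floor_add_tl x n
  have h2 := floor_add_tl x (n + 1)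
  rw [floor_succ_of_ge h, pow_succ] at h2
  push_cast at h2
  linarith

lemma walk_zero (x : ℝ) : walk x 0 = 0 := by simp [walk]
lemma walk_succ (x : ℝ) (n : ℕ) : walk x (n + 1) = walk x n + step x n := by
  simp [walk, Finset.sum_range_succ]

lemma tl_zero {x : ℝ} (h0 : 0 ≤ x) (h1 : x < 1) : tl x 0 = x := by
  unfold tl
  rw [pow_zero, one_mul]
  exact Int.fract_eq_self.mpr ⟨h0, h1⟩

lemma tl_tl (x : ℝ) (n k : ℕ) : tl (tl x n) k = tl x (n + k) := by
  unfold tl
  have h : (2 : ℝ) ^ (n + k) * x = 2 ^ k * Int.fract (2 ^ n * x) + ((2 ^ k * ⌊2 ^ n * x⌋ : ℤ) : ℝ) := by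
    have := Int.floor_add_fract ((2 : ℝ) ^ n * x)
    push_cast
    rw [← mul_add, add_comm (Int.fract _), this, pow_add]
    ring
  rw [h, Int.fract_add_intCast]

lemma step_tl (x : ℝ) (n k : ℕ) : step (tl x n) k = step x (n + k) := by
  have := tl_tl x n k
  unfold step
  unfold tl at this
  unfold tl
  rw [this]

lemma walk_tl (x : ℝ) (n k : ℕ) : walk x (n + k) = walk x n + walk (tl x n) k := by
  induction k with
  | zero => simp [walk_zero]
  | succ k ih =>
    rw [← add_assoc, walk_succ, ih, walk_succ, step_tl]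
    ring

/-- The number whose first `n` binary digits are those of `x` and whose tail is `v`. -/
noncomputable def splice (x : ℝ) (n : ℕ) (v : ℝ) : ℝ := (⌊2 ^ n * x⌋ + v) / 2 ^ n

lemma splice_self (x : ℝ) (n : ℕ) : splice x n (tl x n) = x := by
  unfold splice
  rw [floor_add_tl]
  field_simp

lemma splice_sub (x : ℝ) (n : ℕ) (v : ℝ) : splice x n v - x = (v - tl x n) / 2 ^ n := by
  conv_lhs => rw [← splice_self x n]
  rw [splice_self]
  conv_lhs => arg 2; rw [← splice_self x n]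
  unfold splice
  ring

lemma splice_injective (x : ℝ) (n : ℕ) : Function.Injective (splice x n) := by
  intro v w h
  unfold splice at h
  have h2 : (2 : ℝ) ^ n ≠ 0 := by positivity
  rw [div_left_inj' h2] at h
  linarith

lemma splice_mem {x : ℝ} (hx0 : 0 ≤ x) (hx1 : x < 1) (n : ℕ) {v : ℝ} (h0 : 0 ≤ v) (h1 : v ≤ 1) :
    splice x n v ∈ Set.Icc (0 : ℝ) 1 := by
  unfold splice
  have hp : (0 : ℝ) < 2 ^ n := by positivity
  constructor
  · apply div_nonneg _ hp.le
    have : (0 : ℤ) ≤ ⌊2 ^ n * x⌋ := Int.floor_nonneg.mpr (by positivity)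
    have : (0 : ℝ) ≤ (⌊2 ^ n * x⌋ : ℝ) := by exact_mod_cast this
    linarith
  · rw [div_le_one hp]
    have h2 : ⌊2 ^ n * x⌋ < (2 : ℤ) ^ n := by
      rw [Int.floor_lt]
      push_cast
      nlinarith
    have h3 : ⌊2 ^ n * x⌋ + 1 ≤ (2 : ℤ) ^ n := h2
    have h4 : ((⌊2 ^ n * x⌋ : ℝ) + 1) ≤ (2 : ℝ) ^ n := by exact_mod_cast h3
    linarith

/-- The key identity. -/
lemma takagi_splice (x : ℝ) (n : ℕ) : ∀ {v : ℝ}, 0 ≤ v → v ≤ 1 →
    takagi (splice x n v) - takagi x = (tk (walk x n) v - tk (walk x n) (tl x n)) / 2 ^ n := by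
  induction n with
  | zero =>
    intro v h0 h1
    have e1 : takagi (splice x 0 v) = takagi v := by
      unfold splice
      rw [← takagi_add_int v ⌊2 ^ 0 * x⌋]
      congr 1
      ring
    have e2 : takagi x = takagi (tl x 0) := by
      conv_lhs => rw [← splice_self x 0]
      unfold splice
      rw [← takagi_add_int (tl x 0) ⌊2 ^ 0 * x⌋]
      congr 1
      ring
    rw [e1, e2, walk_zero]
    simp [tk]
  | succ n ih =>
    intro v h0 h1
    rcases lt_or_ge (tl x n) (1 / 2) with h | h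
    · have e1 : splice x (n + 1) v = splice x n (v / 2) := by
        unfold splice
        rw [floor_succ_of_lt h, pow_succ]
        push_cast
        field_simp
      rw [e1, ih (by linarith) (by linarith), tk_left _ h0 h1]
      have e2 : tl x n = tl x (n + 1) / 2 := by rw [tl_succ_of_lt h]; ring
      have e3 : tk (walk x n) (tl x n) = tk (walk x n + 1) (tl x (n + 1)) / 2 := by
        rw [e2, tk_left _ (tl_nonneg _ _) (tl_lt_one _ _).le]
      rw [e3, walk_succ, step_of_lt h, pow_succ]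
      field_simp
    · have e1 : splice x (n + 1) v = splice x n ((1 + v) / 2) := by
        unfold splice
        rw [floor_succ_of_ge h, pow_succ]
        push_cast
        field_simp
        ring
      rw [e1, ih (by linarith) (by linarith), tk_right _ h0 h1]
      have e2 : tl x n = (1 + tl x (n + 1)) / 2 := by rw [tl_succ_of_ge h]; ring
      have e3 : tk (walk x n) (tl x n) = (tk (walk x n - 1) (tl x (n + 1)) + (walk x n + 1)) / 2 := by
        rw [e2, tk_right _ (tl_nonneg _ _) (tl_lt_one _ _).le]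
      rw [e3, walk_succ, step_of_ge h, pow_succ, ← sub_eq_add_neg]
      field_simp
      ring

/-- The key identity with a tilt. -/
lemma tk_splice (E : ℤ) (x : ℝ) (n : ℕ) {v : ℝ} (h0 : 0 ≤ v) (h1 : v ≤ 1) :
    tk E (splice x n v) - tk E x =
      (tk (E + walk x n) v - tk (E + walk x n) (tl x n)) / 2 ^ n := by
  have h2 := takagi_splice x n h0 h1
  have h3 := splice_sub x n v
  have h4 : tk E (splice x n v) - tk E x =
      (takagi (splice x n v) - takagi x) + E * (splice x n v - x) := by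
    unfold tk
    ring
  rw [h4, h2, h3]
  unfold tk
  push_cast
  ring

/-- The height of the tail of `x` after `n` digits. -/
noncomputable def ht (x : ℝ) (n : ℕ) : ℝ := tk (walk x n) (tl x n)

lemma ht_succ_of_lt {x : ℝ} {n : ℕ} (h : tl x n < 1 / 2) : ht x (n + 1) = 2 * ht x n := by
  unfold ht
  have e2 : tl x n = tl x (n + 1) / 2 := by rw [tl_succ_of_lt h]; ring
  have e3 : tk (walk x n) (tl x n) = tk (walk x n + 1) (tl x (n + 1)) / 2 := by
    rw [e2, tk_left _ (tl_nonneg _ _) (tl_lt_one _ _).le]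
  rw [walk_succ, step_of_lt h, e3]
  ring

lemma ht_succ_of_ge {x : ℝ} {n : ℕ} (h : 1 / 2 ≤ tl x n) :
    ht x (n + 1) = 2 * ht x n - (walk x n + 1) := by
  unfold ht
  have e2 : tl x n = (1 + tl x (n + 1)) / 2 := by rw [tl_succ_of_ge h]; ring
  have e3 : tk (walk x n) (tl x n) = (tk (walk x n - 1) (tl x (n + 1)) + (walk x n + 1)) / 2 := by
    rw [e2, tk_right _ (tl_nonneg _ _) (tl_lt_one _ _).le]
  rw [walk_succ, step_of_ge h, e3, ← sub_eq_add_neg]
  ring

lemma ht_zero {x : ℝ} (h0 : 0 ≤ x) (h1 : x < 1) : ht x 0 = takagi x := by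
  unfold ht
  rw [tl_zero h0 h1, walk_zero]
  simp [tk]

/-- If `q T(x)` is an integer then `q` times every height is an integer. -/
lemma ht_int {x : ℝ} (h0 : 0 ≤ x) (h1 : x < 1) {q : ℕ} {p : ℤ} (hp : q * takagi x = p) (n : ℕ) :
    ∃ Y : ℤ, (q : ℝ) * ht x n = Y := by
  induction n with
  | zero => exact ⟨p, by rw [ht_zero h0 h1, hp]⟩
  | succ n ih =>
    obtain ⟨Y, hY⟩ := ih
    rcases lt_or_ge (tl x n) (1 / 2) with h | h
    · refine ⟨2 * Y, ?_⟩
      rw [ht_succ_of_lt h]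
      push_cast
      linarith
    · refine ⟨2 * Y - q * (walk x n + 1), ?_⟩
      rw [ht_succ_of_ge h]
      push_cast
      linarith

lemma abs_ht_le (x : ℝ) (n : ℕ) : |ht x n| ≤ |(walk x n : ℝ)| + 1 :=
  abs_tk_le _ (tl_nonneg _ _) (tl_lt_one _ _).le

/-- A point with the right tail lies in the level set. -/
lemma takagi_splice_eq {x : ℝ} {n : ℕ} {v : ℝ} (h0 : 0 ≤ v) (h1 : v ≤ 1)
    (h : tk (walk x n) v = ht x n) : takagi (splice x n v) = takagi x := by
  have := takagi_splice x n h0 h1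
  unfold ht at h
  rw [h, sub_self, zero_div] at this
  linarith

/-! ### Loops -/

/-- `Loop D y z l`: the contraction with fixed point `z` and ratio `2^{-l}` multiplies
`T + D id - y` by `2^{-l}` on `[0,1]`. -/
def Loop (D : ℤ) (y z : ℝ) (l : ℕ) : Prop :=
  z ∈ Set.Icc (0 : ℝ) 1 ∧ ∀ v ∈ Set.Icc (0 : ℝ) 1,
    tk D (z + (v - z) / 2 ^ l) - y = (tk D v - y) / 2 ^ l

/-- The fixed point of the loop between the times `n` and `n + l`. -/
noncomputable def fixpt (x : ℝ) (n l : ℕ) : ℚ := (⌊2 ^ l * tl x n⌋ : ℚ) / (2 ^ l - 1)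

lemma fixpt_spec (x : ℝ) (n : ℕ) {l : ℕ} (hl : 0 < l) (v : ℝ) :
    splice (tl x n) l v = (fixpt x n l : ℝ) + (v - fixpt x n l) / 2 ^ l := by
  unfold splice fixpt
  have h2 : (1 : ℝ) < 2 ^ l := one_lt_pow₀ (by norm_num) (by omega)
  have h3 : ((2 : ℝ) ^ l - 1) ≠ 0 := by linarith
  push_cast
  field_simp
  ring

lemma fixpt_mem (x : ℝ) (n : ℕ) {l : ℕ} (hl : 0 < l) :
    ((fixpt x n l : ℚ) : ℝ) ∈ Set.Icc (0 : ℝ) 1 := by
  unfold fixpt
  have h2 : (1 : ℝ) < 2 ^ l := one_lt_pow₀ (by norm_num) (by omega)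
  have hf0 : (0 : ℤ) ≤ ⌊2 ^ l * tl x n⌋ := Int.floor_nonneg.mpr (by have := tl_nonneg x n; positivity)
  have hf1 : ⌊2 ^ l * tl x n⌋ < (2 : ℤ) ^ l := by
    rw [Int.floor_lt]
    push_cast
    have := tl_lt_one x n
    nlinarith
  have hf2 : ⌊2 ^ l * tl x n⌋ + 1 ≤ (2 : ℤ) ^ l := hf1
  have hf3 : ((⌊2 ^ l * tl x n⌋ : ℝ) + 1) ≤ (2 : ℝ) ^ l := by exact_mod_cast hf2
  have hf4 : (0 : ℝ) ≤ (⌊2 ^ l * tl x n⌋ : ℝ) := by exact_mod_cast hf0
  push_cast
  constructor
  · apply div_nonneg hf4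
    linarith
  · rw [div_le_one (by linarith)]
    linarith

/-- A repeated state gives a loop. -/
lemma loop_of_repeat {x : ℝ} {n l : ℕ} (hl : 0 < l) (hD : walk x (n + l) = walk x n)
    (hy : ht x (n + l) = ht x n) : Loop (walk x n) (ht x n) (fixpt x n l) l := by
  refine ⟨fixpt_mem x n hl, ?_⟩
  intro v hv
  rw [← fixpt_spec x n hl v]
  have h1 := tk_splice (walk x n) (tl x n) l hv.1 hv.2
  rw [← walk_tl, hD] at h1
  have h2 : tk (walk x n) (tl (tl x n) l) = ht x n := by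
    rw [tl_tl, ← hy]
    unfold ht
    rw [hD]
  rw [h2] at h1
  have h3 : tk (walk x n) (tl x n) = ht x n := rfl
  rw [h3] at h1
  linarith

lemma Loop.fix {D : ℤ} {y z : ℝ} {l : ℕ} (h : Loop D y z l) (hl : 0 < l) : tk D z = y := by
  have h1 := h.2 z h.1
  rw [sub_self, zero_div, add_zero] at h1
  have h2 : (1 : ℝ) < 2 ^ l := one_lt_pow₀ (by norm_num) (by omega)
  rw [eq_div_iff (by positivity)] at h1
  have h3 : (tk D z - y) * (2 ^ l - 1) = 0 := by linarith
  rcases mul_eq_zero.mp h3 with h4 | h4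
  · linarith
  · linarith

lemma Loop.mul {D : ℤ} {y z : ℝ} {l : ℕ} (h : Loop D y z l) (k : ℕ) : Loop D y z (l * k) := by
  refine ⟨h.1, ?_⟩
  induction k with
  | zero =>
    intro v _
    simp
  | succ k ih =>
    intro v hv
    have hp : (0 : ℝ) < 2 ^ (l * k) := by positivity
    have hp1 : (1 : ℝ) ≤ 2 ^ (l * k) := one_le_pow₀ (by norm_num)
    have hmem : z + (v - z) / 2 ^ (l * k) ∈ Set.Icc (0 : ℝ) 1 := by
      have hz := h.1
      have e : z + (v - z) / 2 ^ (l * k) = (1 - 1 / 2 ^ (l * k)) * z + (1 / 2 ^ (l * k)) * v := by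
        ring
      rw [e]
      have h3 : (0 : ℝ) ≤ 1 / 2 ^ (l * k) := by positivity
      have h4 : 1 / (2 : ℝ) ^ (l * k) ≤ 1 := by
        rw [div_le_one hp]
        exact hp1
      exact (convex_Icc (0 : ℝ) 1) hz hv (by linarith) h3 (by ring)
    have h5 := h.2 _ hmem
    have h6 := ih v hv
    have e2 : z + (v - z) / 2 ^ (l * (k + 1)) = z + (z + (v - z) / 2 ^ (l * k) - z) / 2 ^ l := by
      rw [Nat.mul_succ, pow_add]
      field_simp
      ring
    rw [e2, h5, h6, Nat.mul_succ, pow_add]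
    field_simp

end Pool.Agent.Work.MP_df9865_an
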